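import Pool.Agent.Work.MP_c709de_al_h19.Tile

/-! Counting the points of a tile. -/

namespace MPc709deB

open Finset

variable {R : Type*} [CommRing R]

namespace Tile

theorem Full.size {T : Tile R} {u v w : ℕ} (hf : T.Full u v w) : T.n + 2 ≤ u + v + w := by
  classical
  obtain ⟨a, b, ha, hb, hc, -⟩ := T.exists_enum
  have hl : ∀ i, ∃ c, c ≤ T.top ∧ (a i : R) * T.x + b i * T.y = c * T.z := fun i => T.label (hc i)
  choose c hct hcv using hl
  have hcinj : Function.Injective c := by
    intro i j hij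
    by_contra hne
    rcases lt_or_gt_of_ne hne with h | h
    · exact T.pair_ne (hc i) (hc j) (hcv i) (hcv j) (ha h) (hb h) hij
    · exact T.pair_ne (hc j) (hc i) (hcv j) (hcv i) (ha h) (hb h) hij.symm
  let A := (univ : Finset (Fin T.n)).filter (fun i => a i < u)
  let B := (univ : Finset (Fin T.n)).filter (fun i => b i < v)
  let C := (univ : Finset (Fin T.n)).filter (fun i => T.top + 1 ≤ c i + w)
  have hcov : (univ : Finset (Fin T.n)) ⊆ A ∪ (B ∪ C) := by
    intro i _
    simp only [A, B, C, Finset.mem_union, Finset.mem_filter, Finset.mem_univ, true_and]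
    by_contra hcon
    push Not at hcon
    have := hf.type (hc i) (hcv i) hcon.1 hcon.2.1
    omega
  have h1 : A.card ≤ u - 1 := by
    have : A.card ≤ (Ico 1 u).card := by
      apply Finset.card_le_card_of_injOn a
      · intro i hi
        simp only [A, Finset.coe_filter, Finset.mem_univ, true_and, Set.mem_setOf_eq] at hi
        have := (hc i).1
        simp only [Finset.coe_Ico, Set.mem_Ico]
        omega
      · exact ha.injective.injOn
    rwa [Nat.card_Ico] at this
  have h2 : B.card ≤ v - 1 := by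
    have : B.card ≤ (Ico 1 v).card := by
      apply Finset.card_le_card_of_injOn b
      · intro i hi
        simp only [B, Finset.coe_filter, Finset.mem_univ, true_and, Set.mem_setOf_eq] at hi
        have := (hc i).2.1
        simp only [Finset.coe_Ico, Set.mem_Ico]
        omega
      · exact hb.injective.injOn
    rwa [Nat.card_Ico] at this
  have h3 : C.card ≤ w := by
    have : C.card ≤ (Ico (T.top + 1 - w) (T.top + 1)).card := by
      apply Finset.card_le_card_of_injOn c
      · intro i hi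
        simp only [C, Finset.coe_filter, Finset.mem_univ, true_and, Set.mem_setOf_eq] at hi
        have := hct i
        simp only [Finset.coe_Ico, Set.mem_Ico]
        omega
      · exact hcinj.injOn
    rw [Nat.card_Ico] at this
    omega
  have h4 := Finset.card_le_card hcov
  have h5 := Finset.card_union_le A (B ∪ C)
  have h6 := Finset.card_union_le B C
  rw [Finset.card_univ, Fintype.card_fin] at h4
  have := hf.1
  have := hf.2.1
  omega

/-- number of points with prescribed support -/
def N (T : Tile R) (a b c : Bool) : ℕ :=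
  (T.S.filter (fun p => (decide (p.1 ≠ 0), decide (p.2.1 ≠ 0), decide (p.2.2 ≠ 0)) = (a, b, c))).card

theorem card_eq (T : Tile R) : T.S.card = T.N false false false + T.N true false false +
    T.N false true false + T.N false false true + T.N true true false + T.N false true true +
    T.N true false true + T.N true true true := by
  have h := Finset.card_eq_sum_card_fiberwise (s := T.S) (t := (univ : Finset (Bool × Bool × Bool)))
    (f := fun p => (decide (p.1 ≠ 0), decide (p.2.1 ≠ 0), decide (p.2.2 ≠ 0)))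
    (by intro p _; simp)
  rw [h]
  simp only [Fintype.sum_prod_type, Fintype.sum_bool, N]
  ring

theorem N_rot (T : Tile R) (a b c : Bool) : T.rot.N a b c = T.N c a b := by
  unfold N
  have hinj : Function.Injective (fun p : ℕ × ℕ × ℕ => (p.2.1, p.2.2, p.1)) := by
    rintro ⟨i, j, k⟩ ⟨i', j', k'⟩ h
    simp only [Prod.mk.injEq] at h ⊢
    exact ⟨h.2.2, h.1, h.2.1⟩
  simp only [rot]
  rw [Finset.filter_image, Finset.card_image_of_injective _ hinj]
  congr 1
  ext ⟨i, j, k⟩
  simp only [Finset.mem_filter, Prod.mk.injEq]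
  tauto

theorem N_swp (T : Tile R) (a b c : Bool) : T.swp.N a b c = T.N b a c := by
  unfold N
  have hinj : Function.Injective (fun p : ℕ × ℕ × ℕ => (p.2.1, p.1, p.2.2)) := by
    rintro ⟨i, j, k⟩ ⟨i', j', k'⟩ h
    simp only [Prod.mk.injEq] at h ⊢
    exact ⟨h.2.1, h.1, h.2.2⟩
  simp only [swp]
  rw [Finset.filter_image, Finset.card_image_of_injective _ hinj]
  congr 1
  ext ⟨i, j, k⟩
  simp only [Finset.mem_filter, Prod.mk.injEq]
  tauto

theorem top_le_N (T : Tile R) : T.top ≤ T.N false false true := by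
  have h : (Ico 1 (T.top + 1)).card ≤ T.N false false true := by
    unfold N
    apply Finset.card_le_card_of_injOn (fun k => (0, 0, k))
    · intro k hk
      simp only [Finset.coe_Ico, Set.mem_Ico] at hk
      simp only [Finset.coe_filter, Set.mem_setOf_eq, Prod.mk.injEq]
      refine ⟨(T.mem_axis k).2 (by omega), ?_, ?_, ?_⟩
      · simp
      · simp
      · simp; omega
    · intro a _ b _ hab
      simpa using hab
  rw [Nat.card_Ico] at h
  omega

theorem one_le_N (T : Tile R) : 1 ≤ T.N false false false := by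
  unfold N
  rw [Nat.one_le_iff_ne_zero, ← Nat.pos_iff_ne_zero, Finset.card_pos]
  exact ⟨(0, 0, 0), by simp [T.zero_mem]⟩

/-- sums of natural numbers in a form that the kernel evaluates -/
def sm (M : ℕ) (f : ℕ → ℕ) : ℕ := Nat.rec 0 (fun n acc => acc + f n) M

theorem sm_eq (M : ℕ) (f : ℕ → ℕ) : sm M f = ∑ i ∈ range M, f i := by
  induction M with
  | zero => rfl
  | succ n ih =>
    rw [Finset.sum_range_succ, ← ih]
    rfl

theorem I3_ge (T : Tile R) (h : ℕ → ℕ → ℕ) (M : ℕ)
    (hh : ∀ i k j, 1 ≤ i → 1 ≤ k → 1 ≤ j → j ≤ h i k → (i, j, k) ∈ T.S) :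
    sm M (fun i => sm M (fun k => h (i + 1) (k + 1))) ≤ T.N true true true := by
  classical
  simp only [sm_eq]
  let B : Finset (Σ _ : ℕ × ℕ, ℕ) :=
    (range M ×ˢ range M).sigma (fun p => Ico 1 (h (p.1 + 1) (p.2 + 1) + 1))
  have h1 : B.card = ∑ i ∈ range M, ∑ k ∈ range M, h (i + 1) (k + 1) := by
    simp only [B, Finset.card_sigma, Nat.card_Ico, Finset.sum_product, Nat.add_sub_cancel]
  rw [← h1]
  unfold N
  apply Finset.card_le_card_of_injOn (fun p => (p.1.1 + 1, p.2, p.1.2 + 1))
  · rintro ⟨⟨i, k⟩, j⟩ hp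
    simp only [B, Finset.coe_sigma, Finset.coe_product, Finset.coe_range,
      Finset.coe_Ico, Set.mem_sigma_iff, Set.mem_prod, Set.mem_Iio, Set.mem_Ico] at hp
    simp only [Finset.coe_filter, Set.mem_setOf_eq, Prod.mk.injEq]
    refine ⟨hh _ _ _ (by omega) (by omega) hp.2.1 (by omega), ?_, ?_, ?_⟩
    · simp
    · simp; omega
    · simp
  · rintro ⟨⟨i, k⟩, j⟩ _ ⟨⟨i', k'⟩, j'⟩ _ he
    simp only [Prod.mk.injEq, Nat.add_right_cancel_iff] at he
    obtain ⟨rfl, rfl, rfl⟩ := he
    rfl

theorem I2_ge (T : Tile R) (P : ℕ → ℕ → Bool) (M : ℕ)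
    (hP : ∀ i j, 1 ≤ i → 1 ≤ j → P i j = true → (i, j, 0) ∈ T.S) :
    sm M (fun i => sm M (fun j => if P (i + 1) (j + 1) then 1 else 0)) ≤ T.N true true false := by
  classical
  simp only [sm_eq]
  let B : Finset (ℕ × ℕ) := (range M ×ˢ range M).filter (fun p => P (p.1 + 1) (p.2 + 1) = true)
  have h1 : B.card = ∑ i ∈ range M, ∑ j ∈ range M, if P (i + 1) (j + 1) then 1 else 0 := by
    simp only [B, Finset.card_filter, Finset.sum_product]
  rw [← h1]
  unfold N
  apply Finset.card_le_card_of_injOn (fun p => (p.1 + 1, p.2 + 1, 0))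
  · rintro ⟨i, j⟩ hp
    simp only [B, Finset.coe_filter, Finset.mem_product, Finset.mem_range, Set.mem_setOf_eq] at hp
    simp only [Finset.coe_filter, Set.mem_setOf_eq, Prod.mk.injEq]
    refine ⟨hP _ _ (by omega) (by omega) hp.2, ?_, ?_, ?_⟩
    · simp
    · simp
    · simp
  · rintro ⟨i, j⟩ _ ⟨i', j'⟩ _ he
    simp only [Prod.mk.injEq, Nat.add_right_cancel_iff] at he
    obtain ⟨rfl, rfl, -⟩ := he
    rfl

/-- `E`: points of the plane beyond the triangle -/
noncomputable def E (T : Tile R) : ℤ := T.N true true false - ((T.n * (T.n - 1) / 2 : ℕ) : ℤ)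

theorem tri_two (n : ℕ) : 2 * ((n * (n - 1) / 2 : ℕ) : ℤ) = n * (n - 1) := by
  have h : 2 * (n * (n - 1) / 2) = n * (n - 1) := Nat.mul_div_cancel' (Nat.even_mul_pred_self n).two_dvd
  rcases n with _ | n
  · simp
  · have h2 : ((2 * ((n + 1) * (n + 1 - 1) / 2) : ℕ) : ℤ) = (((n + 1) * (n + 1 - 1) : ℕ) : ℤ) := by
      rw [h]
    push_cast at h2 ⊢
    simpa using h2

theorem exc_le_E (T : Tile R) {a b : Fin T.n → ℕ} (ha : StrictMono a) (hb : StrictAnti b)
    (hc : ∀ i, T.IsCor (a i) (b i)) : exc a b ≤ T.E := by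
  classical
  have h := count_interior ha hb (fun i => (hc i).1) (fun i => (hc i).2.1)
    (fun i j => (i, j, 0) ∈ T.S) (fun h h1 h2 => T.down h h1 h2 le_rfl)
    (fun i => (hc i).2.2.2.1) (fun i => (hc i).2.2.2.2)
    ((T.S.filter (fun p => (decide (p.1 ≠ 0), decide (p.2.1 ≠ 0), decide (p.2.2 ≠ 0)) =
      (true, true, false))).image (fun p => (p.1, p.2.1))) (by
        intro s t hs ht hst
        simp only [Finset.mem_image, Finset.mem_filter, Prod.mk.injEq, Prod.exists]
        refine ⟨s, t, 0, ⟨hst, ?_, ?_, ?_⟩, rfl, rfl⟩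
        · simp; omega
        · simp; omega
        · simp)
  have h2 : ((T.S.filter (fun p => (decide (p.1 ≠ 0), decide (p.2.1 ≠ 0), decide (p.2.2 ≠ 0)) =
      (true, true, false))).image (fun p => (p.1, p.2.1))).card ≤ T.N true true false :=
    Finset.card_image_le
  have h3 := tri_two T.n
  unfold E
  have h4 : (T.n : ℤ) * (T.n - 1) = T.n * (T.n - 1) := rfl
  have h5 : (((T.S.filter (fun p => (decide (p.1 ≠ 0), decide (p.2.1 ≠ 0), decide (p.2.2 ≠ 0)) =
      (true, true, false))).image (fun p => (p.1, p.2.1))).card : ℤ) ≤ T.N true true false := by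
    exact_mod_cast h2
  linarith

theorem E_nonneg (T : Tile R) : 0 ≤ T.E := by
  obtain ⟨a, b, ha, hb, hc, -⟩ := T.exists_enum
  exact (exc_nonneg ha hb (fun i => (hc i).1) (fun i => (hc i).2.1)).trans (T.exc_le_E ha hb hc)

/-- `V = Z + E` -/
noncomputable def V (T : Tile R) : ℤ := T.top + T.E

/-- a lower bound for all labels -/
def LabelGe (T : Tile R) (t : ℕ) : Prop :=
  ∀ a b c : ℕ, T.IsCor a b → (a : R) * T.x + b * T.y = c * T.z → t ≤ c

theorem top_ge (T : Tile R) {t : ℕ} (ht : T.LabelGe t) (hn : 1 ≤ T.n) : T.n + t ≤ T.top + 1 := by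
  obtain ⟨a, b, ha, hb, hc, -⟩ := T.exists_enum
  have hl : ∀ i, ∃ c, c ≤ T.top ∧ (a i : R) * T.x + b i * T.y = c * T.z := fun i => T.label (hc i)
  choose c hct hcv using hl
  have hcinj : Function.Injective c := by
    intro i j hij
    by_contra hne
    rcases lt_or_gt_of_ne hne with h | h
    · exact T.pair_ne (hc i) (hc j) (hcv i) (hcv j) (ha h) (hb h) hij
    · exact T.pair_ne (hc j) (hc i) (hcv j) (hcv i) (ha h) (hb h) hij.symm
  have h1 : (univ : Finset (Fin T.n)).card ≤ (Ico t (T.top + 1)).card := by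
    apply Finset.card_le_card_of_injOn c
    · intro i _
      have h2 := hct i
      have h3 := ht _ _ _ (hc i) (hcv i)
      simp only [Finset.coe_Ico, Set.mem_Ico]
      omega
    · exact hcinj.injOn
  rw [Finset.card_univ, Fintype.card_fin, Nat.card_Ico] at h1
  omega

theorem V_kappa (T : Tile R) {t : ℕ} (ht : T.LabelGe t) (hn : 2 ≤ T.n) (W : ℤ)
    (hW1 : W ≤ T.rot.n + 1) (hW2 : W ≤ T.rot.rot.n + 1) :
    ((T.n : ℤ) - 1) * W - (T.n : ℤ) ^ 2 / 2 + 1 + t ≤ T.V := by
  obtain ⟨a, b, ha, hb, hc, -⟩ := T.exists_enum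
  have hl : ∀ i, ∃ c, c ≤ T.top ∧ (a i : R) * T.x + b i * T.y = c * T.z := fun i => T.label (hc i)
  choose c hct hcv using hl
  have hcinj : Function.Injective c := by
    intro i j hij
    by_contra hne
    rcases lt_or_gt_of_ne hne with h | h
    · exact T.pair_ne (hc i) (hc j) (hcv i) (hcv j) (ha h) (hb h) hij
    · exact T.pair_ne (hc j) (hc i) (hcv j) (hcv i) (ha h) (hb h) hij.symm
  have h := kappa hn ha hb (fun i => (hc i).1) (fun i => (hc i).2.1) hcinj W
    (by
      intro i j hij hcc
      have h1 := T.pairR (hc i) (hcv i) (hcv j) (ha hij) (hb hij) hcc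
      have h2 := ha hij
      omega)
    (by
      intro i j hij hcc
      have h1 := T.pairL (hc j) (hcv i) (hcv j) (ha hij) (hb hij) hcc
      have h2 := hb hij
      omega)
    t T.top (fun i => by exact_mod_cast ht _ _ _ (hc i) (hcv i)) (fun i => by exact_mod_cast hct i)
  have h1 := T.exc_le_E ha hb hc
  unfold V
  linarith

theorem V_G (T : Tile R) {t : ℕ} (ht : T.LabelGe t) (hn : 3 ≤ T.n) (Q : ℤ) (hQ : 2 ≤ Q)
    (h : (Q ≤ T.rot.n + 1 ∧ 2 ≤ T.rot.rot.n) ∨ (Q ≤ T.rot.rot.n + 1 ∧ 2 ≤ T.rot.n)) :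
    min (2 * (T.n : ℤ) - 2) Q + t ≤ T.V := by
  obtain ⟨a, b, ha, hb, hc, -⟩ := T.exists_enum
  have hl : ∀ i, ∃ c, c ≤ T.top ∧ (a i : R) * T.x + b i * T.y = c * T.z := fun i => T.label (hc i)
  choose c hct hcv using hl
  have hcinj : Function.Injective c := by
    intro i j hij
    by_contra hne
    rcases lt_or_gt_of_ne hne with h | h
    · exact T.pair_ne (hc i) (hc j) (hcv i) (hcv j) (ha h) (hb h) hij
    · exact T.pair_ne (hc j) (hc i) (hcv j) (hcv i) (ha h) (hb h) hij.symm
  have h1 := T.exc_le_E ha hb hc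
  unfold V
  rcases h with ⟨hL, hR⟩ | ⟨hR, hL⟩
  · have h := lemG hn ha hb (fun i => (hc i).1) (fun i => (hc i).2.1) hcinj Q hQ
      (by
        intro i j hij hcc
        have h1 := T.pairR (hc i) (hcv i) (hcv j) (ha hij) (hb hij) hcc
        have h2 := ha hij
        omega)
      (by
        intro i j hij hcc
        have h1 := T.pairL (hc j) (hcv i) (hcv j) (ha hij) (hb hij) hcc
        have h2 := hb hij
        omega)
      t T.top (fun i => by exact_mod_cast ht _ _ _ (hc i) (hcv i)) (fun i => by exact_mod_cast hct i)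
    linarith
  · have h := lemG' hn ha hb (fun i => (hc i).1) (fun i => (hc i).2.1) hcinj Q hQ
      (by
        intro i j hij hcc
        have h1 := T.pairR (hc i) (hcv i) (hcv j) (ha hij) (hb hij) hcc
        have h2 := ha hij
        omega)
      (by
        intro i j hij hcc
        have h1 := T.pairL (hc j) (hcv i) (hcv j) (ha hij) (hb hij) hcc
        have h2 := hb hij
        omega)
      t T.top (fun i => by exact_mod_cast ht _ _ _ (hc i) (hcv i)) (fun i => by exact_mod_cast hct i)
    linarith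

/-- the plane of the tile bounds the two other axes -/
theorem rot_top_ge (T : Tile R) : T.n ≤ T.rot.top := by
  rw [← mem_axis, mem_rot]
  exact T.tri_mem _ _ (by omega)

theorem rot_rot_top_ge (T : Tile R) : T.n ≤ T.rot.rot.top := by
  rw [← mem_axis, mem_rot, mem_rot]
  exact T.tri_mem _ _ (by omega)

/-- the total count -/
theorem card_ge (T : Tile R) : (1 : ℤ) + T.V + T.rot.V + T.rot.rot.V +
    ((T.n * (T.n - 1) / 2 : ℕ) : ℤ) + ((T.rot.n * (T.rot.n - 1) / 2 : ℕ) : ℤ) +
    ((T.rot.rot.n * (T.rot.rot.n - 1) / 2 : ℕ) : ℤ) + T.N true true true ≤ T.S.card := by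
  have h0 := T.one_le_N
  have h1 := T.top_le_N
  have h2 := T.rot.top_le_N
  have h3 := T.rot.rot.top_le_N
  rw [N_rot] at h2
  rw [N_rot, N_rot] at h3
  have h4 : T.rot.N true true false = T.N false true true := N_rot T _ _ _
  have h5 : T.rot.rot.N true true false = T.N true false true := by rw [N_rot, N_rot]
  rw [T.card_eq]
  unfold V E
  rw [h4, h5]
  push_cast
  omega

end Tile

end MPc709deB
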