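import Pool.Agent.Work.MP_c709de_al_h19.LowerGen

/-! Two families of numerical semigroups of embedding dimension four. -/

namespace MPc709deB

open Finset MPc709de

/-- the order ideal of the first family -/
def A1 (k t i j l : ℕ) : Prop := (l = 0 ∧ (i + j + 1 ≤ k ∨ (i + j = k ∧ j < t))) ∨
  (i = 0 ∧ j + l + 1 ≤ k)

theorem uniq1 {k t : ℕ} (hk : 2 ≤ k) (ht : t ≤ k) (i j l : ℕ) (hA : A1 k t i j l)
    (n i' j' l' : ℕ) (he : n * (k ^ 2 + t) + i' * (2 * (k ^ 2 + t) + k) +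
      j' * (3 * (k ^ 2 + t) + k + 1) + l' * (2 * (k ^ 2 + t) + 1) =
      i * (2 * (k ^ 2 + t) + k) + j * (3 * (k ^ 2 + t) + k + 1) + l * (2 * (k ^ 2 + t) + 1)) :
    n = 0 ∧ i' = i ∧ j' = j ∧ l' = l := by
  -- pass to integers
  have hez : ((n : ℤ) + 2 * i' + 3 * j' + 2 * l') * (k ^ 2 + t) + (k * (i' + j') + (j' + l')) =
      (2 * i + 3 * j + 2 * l) * (k ^ 2 + t) + (k * (i + j) + (j + l)) := by
    have := congrArg (Nat.cast : ℕ → ℤ) he
    push_cast at this
    linarith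
  have hkz : (2 : ℤ) ≤ k := by exact_mod_cast hk
  have htz : (t : ℤ) ≤ k := by exact_mod_cast ht
  have ht0 : (0 : ℤ) ≤ t := by positivity
  obtain ⟨m, hm⟩ : ∃ m : ℤ, m = k ^ 2 + t := ⟨_, rfl⟩
  rw [← hm] at hez
  obtain ⟨δ, hδ⟩ : ∃ δ : ℤ, δ = ((n : ℤ) + 2 * i' + 3 * j' + 2 * l') - (2 * i + 3 * j + 2 * l) :=
    ⟨_, rfl⟩
  have e1 : m * δ = k * ((i + j) - (i' + j')) + ((j + l) - (j' + l')) := by
    rw [hδ]; linarith
  have p1 : (0 : ℤ) ≤ i' := by positivity
  have p2 : (0 : ℤ) ≤ j' := by positivity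
  have p3 : (0 : ℤ) ≤ l' := by positivity
  have p4 : (0 : ℤ) ≤ n := by positivity
  have q1 : (0 : ℤ) ≤ i := by positivity
  have q2 : (0 : ℤ) ≤ j := by positivity
  have q3 : (0 : ℤ) ≤ l := by positivity
  have hkk : (k : ℤ) * k = k ^ 2 := by ring
  have hk0 : (0 : ℤ) ≤ k := by linarith
  have hm0 : 0 < m := by rw [hm]; positivity
  -- the class of an element of `A` is less than `m`
  have hlt : (k : ℤ) * (i + j) + (j + l) < m := by
    rcases hA with ⟨hl, h | ⟨h, h'⟩⟩ | ⟨hi, h⟩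
    · have h1 : (i : ℤ) + j + 1 ≤ k := by exact_mod_cast h
      have h2 : (l : ℤ) = 0 := by exact_mod_cast hl
      have : (k : ℤ) * (i + j) ≤ k * (k - 1) := mul_le_mul_of_nonneg_left (by linarith) hk0
      rw [hm, h2]; nlinarith
    · have h1 : (i : ℤ) + j = k := by exact_mod_cast h
      have h2 : (l : ℤ) = 0 := by exact_mod_cast hl
      have h3 : (j : ℤ) < t := by exact_mod_cast h'
      rw [hm, h2, h1]; nlinarith
    · have h1 : (j : ℤ) + l + 1 ≤ k := by exact_mod_cast h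
      have h2 : (i : ℤ) = 0 := by exact_mod_cast hi
      have : (k : ℤ) * j ≤ k * (k - 1) := mul_le_mul_of_nonneg_left (by linarith) hk0
      rw [hm, h2]; nlinarith
  rcases lt_trichotomy δ 0 with hd | hd | hd
  · -- δ < 0
    exfalso
    have b1 : 2 * ((k : ℤ) * (i' + j') + (j' + l')) ≤ k * (2 * i' + 3 * j' + 2 * l') := by
      nlinarith
    have b2 : (k : ℤ) * (2 * i' + 3 * j' + 2 * l') ≤ k * ((2 * i + 3 * j + 2 * l) + δ) := by
      apply mul_le_mul_of_nonneg_left _ hk0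
      rw [hδ]; linarith
    have b3 : m * δ ≤ - m := by nlinarith
    have b4 : (k : ℤ) * δ ≤ 0 := by nlinarith
    have b5 : 2 * ((k : ℤ) * (i + j) + (j + l)) + 2 * m ≤ k * (2 * i + 3 * j + 2 * l) := by
      nlinarith
    rcases hA with ⟨hl, h⟩ | ⟨hi, h⟩
    · have h2 : (l : ℤ) = 0 := by exact_mod_cast hl
      have h3 : (j : ℤ) ≤ k := by
        have : j ≤ k := by omega
        exact_mod_cast this
      have : (k : ℤ) * j ≤ k * k := mul_le_mul_of_nonneg_left h3 hk0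
      rw [h2] at b5
      nlinarith
    · have h1 : (j : ℤ) + l + 1 ≤ k := by exact_mod_cast h
      have h2 : (i : ℤ) = 0 := by exact_mod_cast hi
      have : (k : ℤ) * (j + l) ≤ k * k := mul_le_mul_of_nonneg_left (by linarith) hk0
      rw [h2] at b5
      nlinarith
  · -- δ = 0
    rw [hd] at e1 hδ
    rw [mul_zero] at e1
    obtain ⟨s, hs⟩ : ∃ s : ℤ, s = (i + j) - (i' + j') := ⟨_, rfl⟩
    rw [← hs] at e1
    rcases lt_trichotomy s 0 with h | h | h
    · exfalso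
      have b1 : (k : ℤ) ≤ j + l := by nlinarith
      have b2 : k ≤ j + l := by exact_mod_cast b1
      rcases hA with ⟨hl, h | ⟨h, h'⟩⟩ | ⟨hi, h⟩ <;> omega
    · rw [h, mul_zero, zero_add] at e1
      have c1 : n + j = j' := by omega
      have c2 : i' + j' = i + j := by omega
      have c3 : j' + l' = j + l := by omega
      rcases hA with ⟨hl, h | ⟨h, h'⟩⟩ | ⟨hi, h⟩ <;> omega
    · exfalso
      have b1 : (2 * (k : ℤ) - 1) * s ≤ i := by
        -- 2 I + 2 L - j ≥ I' + 2 L'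
        have : (j' : ℤ) + l' = j + l + k * s := by linarith
        nlinarith
      have b2 : (2 * (k : ℤ) - 1) * 1 ≤ (2 * k - 1) * s :=
        mul_le_mul_of_nonneg_left (by linarith) (by linarith)
      have b3 : (i : ℤ) ≤ k := by
        have : i ≤ k := by
          rcases hA with ⟨hl, h | ⟨h, h'⟩⟩ | ⟨hi, h⟩ <;> omega
        exact_mod_cast this
      linarith
  · -- δ > 0
    exfalso
    have b1 : m ≤ m * δ := by nlinarith
    have b2 : (0 : ℤ) ≤ k * (i' + j') + (j' + l') := by positivity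
    nlinarith

/-- the corners of the first family -/
def f1 (k t s : ℕ) : ℕ × ℕ × ℕ :=
  if s = 0 then (1, 0, 1) else if s ≤ k then (0, s - 1, k - (s - 1)) else
    if s - (k + 1) < t then (k + 1 - (s - (k + 1)), s - (k + 1), 0) else
      (k - (s - (k + 1)), s - (k + 1), 0)

theorem family1 {k t : ℕ} (hk : 2 ≤ k) (ht : t ≤ k) :
    ((2 * k + 2 : ℕ) : ℕ∞) ≤ maxRho 3 (k ^ 2 + t) := by
  classical
  have hm : 0 < k ^ 2 + t := by positivity
  have hcard : ((range (2 * k + 2)).image (f1 k t)).card = 2 * k + 2 := by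
    rw [Finset.card_image_of_injOn, Finset.card_range]
    intro a ha b hb hab
    rw [Finset.coe_range, Set.mem_Iio] at ha hb
    unfold f1 at hab
    split_ifs at hab <;> simp only [Prod.mk.injEq] at hab <;> omega
  rw [← hcard]
  apply lower_of (x := 2 * (k ^ 2 + t) + k) (y := 3 * (k ^ 2 + t) + k + 1)
    (z := 2 * (k ^ 2 + t) + 1) (q := 2) hm (by omega) (by omega) (by omega) (by ring) (A1 k t)
    (uniq1 hk ht) (by unfold A1; omega) (by unfold A1; omega) (by unfold A1; omega)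
  intro p hp
  rw [Finset.mem_image] at hp
  obtain ⟨s, hs, rfl⟩ := hp
  rw [Finset.mem_range] at hs
  unfold f1
  split_ifs with h1 h2 h3
  · refine ⟨fun _ => ?_, fun h => absurd rfl h, fun _ => ?_, 1, 0, 1, 0, by omega, by simp only; ring⟩
    · exact Or.inr ⟨rfl, by omega⟩
    · exact Or.inl ⟨rfl, Or.inl (by omega)⟩
  · obtain ⟨β, rfl⟩ : ∃ β, s = β + 1 := ⟨s - 1, by omega⟩
    obtain ⟨c, rfl⟩ : ∃ c, k = β + 1 + c := ⟨k - β - 1, by omega⟩
    simp only [Nat.add_sub_cancel]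
    have e : β + 1 + c - β = c + 1 := by omega
    rw [e]
    refine ⟨fun h => absurd rfl h, fun h => ?_, fun _ => ?_, β + 2 * c, β + 1, 0, 0, by omega,
      by ring⟩
    · exact Or.inr ⟨rfl, by omega⟩
    · exact Or.inr ⟨rfl, by omega⟩
  · obtain ⟨b, rfl⟩ : ∃ b, s = b + (k + 1) := ⟨s - (k + 1), by omega⟩
    rw [Nat.add_sub_cancel] at h3 ⊢
    obtain ⟨d, rfl⟩ : ∃ d, t = b + 1 + d := ⟨t - b - 1, by omega⟩
    obtain ⟨c, rfl⟩ : ∃ c, k = b + 1 + d + c := ⟨k - (b + 1 + d), by omega⟩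
    have e : b + 1 + d + c + 1 - b = d + c + 2 := by omega
    rw [e]
    simp only
    refine ⟨fun _ => ?_, fun h => ?_, fun h => absurd rfl h, 5 + b + 2 * d, 0, 0, c + b, by omega,
      by ring⟩
    · exact Or.inl ⟨rfl, Or.inr ⟨by omega, by omega⟩⟩
    · exact Or.inl ⟨rfl, Or.inr ⟨by omega, by omega⟩⟩
  · obtain ⟨b, rfl⟩ : ∃ b, s = b + (k + 1) := ⟨s - (k + 1), by omega⟩
    rw [Nat.add_sub_cancel] at h3 ⊢
    obtain ⟨d, rfl⟩ : ∃ d, b = t + d := ⟨b - t, by omega⟩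
    obtain ⟨c, rfl⟩ : ∃ c, k = t + d + c := ⟨k - (t + d), by omega⟩
    have e : t + d + c - (t + d) = c := by omega
    rw [e]
    simp only
    refine ⟨fun h => ?_, fun h => ?_, fun h => absurd rfl h, 3 * t + d + 2 * c + 1, 0, 0, d,
      by omega, by ring⟩
    · exact Or.inl ⟨rfl, Or.inl (by omega)⟩
    · exact Or.inl ⟨rfl, Or.inl (by omega)⟩

end MPc709deB
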