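import Pool.Agent.Work.MP_c709de_al_h19.LowerGen

/-! The second family of numerical semigroups of embedding dimension four. -/

namespace MPc709deB

open Finset MPc709de

/-- the order ideal of the second family -/
def A2 (k t i j l : ℕ) : Prop := (i = 0 ∧ j + l ≤ k) ∨
  (l = 0 ∧ 1 ≤ i ∧ (i + j + 1 ≤ k ∨ (i + j = k ∧ i + 1 ≤ t)))

/-- the integer form of uniqueness -/
theorem uniq2_int {k t m α γ : ℤ} (hk : 2 ≤ k) (ht1 : 1 ≤ t) (ht : t ≤ k)
    (hm : m = k ^ 2 + k + t) (hα : α = 2 * k * (k + 1)) (hγ : γ = 2 * k ^ 2 + 1)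
    {i j l n i' j' l' : ℤ} (q1 : 0 ≤ i) (q2 : 0 ≤ j) (q3 : 0 ≤ l) (p1 : 0 ≤ i') (p2 : 0 ≤ j')
    (p3 : 0 ≤ l') (p4 : 0 ≤ n)
    (hA : (i = 0 ∧ j + l ≤ k) ∨ (l = 0 ∧ 1 ≤ i ∧ (i + j + 1 ≤ k ∨ (i + j = k ∧ i + 1 ≤ t))))
    (he : m * (n + α * (i' + j') + γ * l') - k * (i' + j') + (l' - i') =
      m * (α * (i + j) + γ * l) - k * (i + j) + (l - i)) :
    n = 0 ∧ i' = i ∧ j' = j ∧ l' = l := by
  have hk0 : (0 : ℤ) ≤ k := by linarith
  have hm0 : 0 < m := by rw [hm]; positivity
  have hm1 : k ^ 2 + k + 1 ≤ m := by rw [hm]; linarith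
  have hα0 : 0 < α := by rw [hα]; positivity
  have hγ0 : 0 < γ := by rw [hγ]; positivity
  obtain ⟨δ, hδ⟩ : ∃ δ : ℤ, δ = (n + α * (i' + j') + γ * l') - (α * (i + j) + γ * l) := ⟨_, rfl⟩
  obtain ⟨a, ha⟩ : ∃ a : ℤ, a = (i' + j') - (i + j) := ⟨_, rfl⟩
  have e1 : m * δ = k * a - (l' - i') + (l - i) := by
    rw [hδ, ha]; linarith
  have e2 : α * a + γ * (l' - l) ≤ δ := by
    rw [hδ, ha]; nlinarith
  have hik : (i + j) + (l - i) ≤ k := by
    rcases hA with ⟨h1, h2⟩ | ⟨h1, h2, h3 | ⟨h3, h4⟩⟩ <;> linarith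
  have hi' : i' ≤ (i + j) + a := by rw [ha]; linarith
  have hlk : l ≤ k := by
    rcases hA with ⟨h1, h2⟩ | ⟨h1, h2, h3 | ⟨h3, h4⟩⟩ <;> linarith
  -- comparison of `l'` and `l`
  have hll : ∀ x, 0 ≤ x → l' - i' = (l - i) + x → 0 ≤ l' - l := by
    intro x hx h
    rcases hA with ⟨h1, h2⟩ | ⟨h1, h2⟩
    · linarith
    · linarith
  rcases lt_trichotomy a 0 with h | h | h
  · -- a < 0
    exfalso
    have hd : δ < 0 := by
      by_contra hcon
      push Not at hcon
      have : 0 ≤ m * δ := mul_nonneg hm0.le hcon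
      nlinarith
    have hd1 : δ ≤ -1 := by linarith
    -- (α + γ k) (-a) + γ i ≥ (-δ) (1 + γ m)
    have f1 : (-δ) * (1 + γ * m) ≤ (α + γ * k) * (-a) + γ * i := by
      have g1 : l' - l ≥ (k * a - m * δ) - i := by linarith
      have g2 : γ * (l' - l) ≥ γ * ((k * a - m * δ) - i) := mul_le_mul_of_nonneg_left g1 hγ0.le
      nlinarith
    have f2 : 1 + γ * m ≤ (α + γ * k) * (-a) + γ * i := by
      have : 0 < 1 + γ * m := by positivity
      nlinarith
    have f3 : -a ≤ i + j := by linarith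
    have f4 : 0 < α + γ * k := by positivity
    rcases hA with ⟨h1, h2⟩ | ⟨h1, h2, h3 | ⟨h3, h4⟩⟩
    · have g1 : (α + γ * k) * (-a) ≤ (α + γ * k) * k :=
        mul_le_mul_of_nonneg_left (by linarith) f4.le
      have g2 : γ * (k ^ 2 + k + 1) ≤ γ * m := mul_le_mul_of_nonneg_left hm1 hγ0.le
      rw [h1, mul_zero, add_zero] at f2
      rw [hα, hγ] at *
      nlinarith
    · have g1 : (α + γ * k) * (-a) ≤ (α + γ * k) * (k - 1) :=
        mul_le_mul_of_nonneg_left (by linarith) f4.le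
      have g2 : γ * (k ^ 2 + k + 1) ≤ γ * m := mul_le_mul_of_nonneg_left hm1 hγ0.le
      have g3 : γ * i ≤ γ * (k - 1) := mul_le_mul_of_nonneg_left (by linarith) hγ0.le
      have g4 : (α + γ * k) * (k - 1) + γ * (k - 1) < 1 + γ * (k ^ 2 + k + 1) := by
        rw [hα, hγ]; nlinarith
      linarith
    · have g1 : (α + γ * k) * (-a) ≤ (α + γ * k) * k :=
        mul_le_mul_of_nonneg_left (by linarith) f4.le
      have g3 : γ * i ≤ γ * (t - 1) := mul_le_mul_of_nonneg_left (by linarith) hγ0.le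
      have g4 : (α + γ * k) * k + γ * (t - 1) < 1 + γ * m := by
        rw [hα, hγ, hm]; nlinarith
      linarith
  · -- a = 0
    rw [h] at e1 e2 hi'
    rw [mul_zero] at e1 e2
    have hd0 : δ = 0 := by
      rcases lt_trichotomy δ 0 with hd | hd | hd
      · exfalso
        have g1 := hll (-(m * δ)) (by nlinarith) (by linarith)
        have g2 : 0 ≤ γ * (l' - l) := mul_nonneg hγ0.le g1
        linarith
      · exact hd
      · exfalso
        have g1 : m ≤ m * δ := by nlinarith
        nlinarith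
    rw [hd0, mul_zero] at e1
    have g1 := hll 0 le_rfl (by linarith)
    have hll' : l' = l := by
      by_contra hne
      have : 1 ≤ l' - l := by
        have : l' - l ≠ 0 := fun h => hne (by linarith)
        omega
      nlinarith
    have hn : n = 0 := by
      rw [hd0, hll'] at hδ
      have : α * (i' + j') = α * (i + j) := by rw [show i' + j' = i + j by linarith]
      linarith
    refine ⟨hn, by linarith, by linarith, hll'⟩
  · -- a > 0
    exfalso
    rcases le_or_gt δ 0 with hd | hd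
    · have g1 := hll (k * a - m * δ) (by nlinarith) (by linarith)
      have g2 : 0 ≤ γ * (l' - l) := mul_nonneg hγ0.le g1
      have g3 : 0 < α * a := mul_pos hα0 h
      linarith
    · have g1 : m * δ ≤ (k + 1) * a + k := by nlinarith
      have g2 : m ≤ m * δ := by nlinarith
      have g3 : k ≤ a := by
        by_contra hcon
        have : a ≤ k - 1 := by linarith [Int.add_one_le_iff.2 (lt_of_not_ge hcon)]
        have : (k + 1) * a ≤ (k + 1) * (k - 1) := mul_le_mul_of_nonneg_left this (by linarith)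
        nlinarith
      have g4 : α * a - γ * k ≤ δ := by
        have : -(γ * k) ≤ γ * (l' - l) := by
          have : -k ≤ l' - l := by linarith
          nlinarith
        linarith
      obtain ⟨b, hb⟩ : ∃ b, a = k + b := ⟨a - k, by ring⟩
      have hb0 : 0 ≤ b := by linarith
      have g5 : α * b + (2 * k ^ 2 - k) ≤ δ := by
        have : α * a - γ * k = α * b + (2 * k ^ 2 - k) := by rw [hb, hα, hγ]; ring
        linarith
      have g6 : m * (α * b + (2 * k ^ 2 - k)) ≤ (k + 1) * (k + b) + k := by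
        have := mul_le_mul_of_nonneg_left g5 hm0.le
        rw [hb] at g1
        linarith
      have g7 : (k + 1) * b ≤ m * (α * b) := by
        have : k + 1 ≤ m * α := by
          have h1 : k + 1 ≤ m := by nlinarith
          have h2 : (1 : ℤ) ≤ α := by linarith
          nlinarith
        have := mul_le_mul_of_nonneg_right this hb0
        linarith
      have g8 : (k + 1) * k + k < m * (2 * k ^ 2 - k) := by
        have h1 : (6 : ℤ) ≤ 2 * k ^ 2 - k := by nlinarith
        have h2 : m * 6 ≤ m * (2 * k ^ 2 - k) := mul_le_mul_of_nonneg_left h1 hm0.le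
        nlinarith
      nlinarith

/-- the corners of the second family -/
def f2 (k t s : ℕ) : ℕ × ℕ × ℕ :=
  if s = 0 then (1, 0, 1) else if s ≤ k + 1 then (0, s - 1, k + 1 - (s - 1)) else
    if s - (k + 2) < t then (s - (k + 2), k + 1 - (s - (k + 2)), 0) else
      (s - (k + 2), k - (s - (k + 2)), 0)

theorem family2 {k t : ℕ} (hk : 2 ≤ k) (ht1 : 1 ≤ t) (ht : t ≤ k) :
    ((2 * k + 3 : ℕ) : ℕ∞) ≤ maxRho 3 (k ^ 2 + k + t) := by
  classical
  obtain ⟨m, hm⟩ : ∃ m : ℕ, m = k ^ 2 + k + t := ⟨_, rfl⟩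
  obtain ⟨α, hα⟩ : ∃ α : ℕ, α = 2 * k * (k + 1) := ⟨_, rfl⟩
  obtain ⟨γ, hγ⟩ : ∃ γ : ℕ, γ = 2 * k ^ 2 + 1 := ⟨_, rfl⟩
  rw [← hm]
  have hmz : (m : ℤ) = (k : ℤ) ^ 2 + k + t := by rw [hm]; push_cast; ring
  have hαz : (α : ℤ) = 2 * (k : ℤ) * (k + 1) := by rw [hα]; push_cast; ring
  have hγz : (γ : ℤ) = 2 * (k : ℤ) ^ 2 + 1 := by rw [hγ]; push_cast; ring
  have hkz : (2 : ℤ) ≤ k := by exact_mod_cast hk
  have htz1 : (1 : ℤ) ≤ t := by exact_mod_cast ht1
  have htz : (t : ℤ) ≤ k := by exact_mod_cast ht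
  have hm0 : 0 < m := by rw [hm]; positivity
  have hmα : k + 1 + m < m * α := by
    have h1 : k + 1 ≤ m := by rw [hm]; nlinarith
    have h2 : 12 ≤ α := by rw [hα]; nlinarith
    nlinarith
  obtain ⟨x, hx⟩ : ∃ x : ℕ, x + (k + 1) = m * α := ⟨m * α - (k + 1), by omega⟩
  have hxz : (x : ℤ) = m * α - (k + 1) := by
    have : ((x + (k + 1) : ℕ) : ℤ) = ((m * α : ℕ) : ℤ) := by rw [hx]
    push_cast at this
    linarith
  have hcard : ((range (2 * k + 3)).image (f2 k t)).card = 2 * k + 3 := by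
    rw [Finset.card_image_of_injOn, Finset.card_range]
    intro a ha b hb hab
    rw [Finset.coe_range, Set.mem_Iio] at ha hb
    unfold f2 at hab
    split_ifs at hab <;> simp only [Prod.mk.injEq] at hab <;> omega
  rw [← hcard]
  apply lower_of (x := x) (y := x + 1) (z := m * γ + 1) (q := γ) hm0 (by omega) (by omega)
    (by rw [hγ]; nlinarith) rfl (A2 k t) ?_ (Or.inr ⟨rfl, le_rfl, Or.inl (by omega)⟩)
    (Or.inl ⟨rfl, by omega⟩) (Or.inl ⟨rfl, by omega⟩)
  · intro p hp
    rw [Finset.mem_image] at hp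
    obtain ⟨s, hs, rfl⟩ := hp
    rw [Finset.mem_range] at hs
    unfold f2
    split_ifs with h1 h2 h3
    · refine ⟨fun _ => ?_, fun h => absurd rfl h, fun _ => ?_, γ, 0, 1, 0, by omega, ?_⟩
      · refine Or.inl ⟨rfl, ?_⟩
        simp only
        omega
      · exact Or.inr ⟨rfl, le_rfl, Or.inl (by omega)⟩
      · simp only
        ring
    · obtain ⟨β, rfl⟩ : ∃ β, s = β + 1 := ⟨s - 1, by omega⟩
      obtain ⟨c, hc⟩ : ∃ c, k = β + c := ⟨k - β, by omega⟩
      simp only [Nat.add_sub_cancel]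
      have e : k + 1 - β = c + 1 := by omega
      rw [e]
      refine ⟨fun h => absurd rfl h, fun h => ?_, fun _ => ?_, ?_⟩
      · exact Or.inl ⟨rfl, by omega⟩
      · exact Or.inl ⟨rfl, by omega⟩
      · rcases Nat.eq_zero_or_pos β with hβ | hβ
        · subst hβ
          obtain ⟨t0, rfl⟩ : ∃ t0, t = t0 + 1 := ⟨t - 1, by omega⟩
          obtain ⟨d, rfl⟩ : ∃ d, k = t0 + 1 + d := ⟨k - (t0 + 1), by omega⟩
          refine ⟨t0 + 1 + d + 2, t0, d + 1, 0, by omega, ?_⟩
          have hc' : c = t0 + 1 + d := by omega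
          subst hc'
          zify
          rw [hxz]
          push_cast at hmz hαz hγz ⊢
          rw [hαz, hγz, hmz]
          ring
        · obtain ⟨β0, rfl⟩ : ∃ β0, β = β0 + 1 := ⟨β - 1, by omega⟩
          refine ⟨α + γ * (c + 1), β0, 0, 0, by rw [hγ]; positivity, ?_⟩
          zify
          rw [hxz, hc]
          push_cast
          ring
    · obtain ⟨i, rfl⟩ : ∃ i, s = i + (k + 2) := ⟨s - (k + 2), by omega⟩
      rw [Nat.add_sub_cancel] at h3 ⊢
      obtain ⟨d, rfl⟩ : ∃ d, t = i + 1 + d := ⟨t - i - 1, by omega⟩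
      obtain ⟨c, rfl⟩ : ∃ c, k = i + 1 + d + c := ⟨k - (i + 1 + d), by omega⟩
      have e : i + 1 + d + c + 1 - i = d + c + 2 := by omega
      rw [e]
      simp only
      refine ⟨fun h => ?_, fun h => ?_, fun h => absurd rfl h, ?_⟩
      · rcases Nat.lt_or_ge i 2 with hi | hi
        · have : i = 1 := by omega
          subst this
          exact Or.inl ⟨rfl, by omega⟩
        · exact Or.inr ⟨rfl, by omega, Or.inr ⟨by omega, by omega⟩⟩
      · rcases Nat.eq_zero_or_pos i with hi | hi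
        · subst hi
          exact Or.inl ⟨rfl, by omega⟩
        · exact Or.inr ⟨rfl, hi, Or.inr ⟨by omega, by omega⟩⟩
      · obtain ⟨n, hn⟩ : ∃ n : ℕ, n + (1 + γ * (d + 1)) = α * (i + 1 + d + c + 1) := by
          refine ⟨α * (i + 1 + d + c + 1) - (1 + γ * (d + 1)), Nat.sub_add_cancel ?_⟩
          rw [hα, hγ]; nlinarith
        have hnz : (n : ℤ) = α * (i + 1 + d + c + 1) - (1 + γ * (d + 1)) := by
          have : ((n + (1 + γ * (d + 1)) : ℕ) : ℤ) = ((α * (i + 1 + d + c + 1) : ℕ) : ℤ) := by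
            rw [hn]
          push_cast at this
          linarith
        refine ⟨n, 0, 0, d + 1, ?_, ?_⟩
        · intro h0
          subst h0
          rw [hα, hγ] at hn
          nlinarith
        · zify
          rw [hxz, hnz]
          push_cast at hmz hαz hγz ⊢
          linear_combination (-1 : ℤ) * hmz
    · obtain ⟨i, rfl⟩ : ∃ i, s = i + (k + 2) := ⟨s - (k + 2), by omega⟩
      rw [Nat.add_sub_cancel] at h3 ⊢
      obtain ⟨d, rfl⟩ : ∃ d, i = t + d := ⟨i - t, by omega⟩
      obtain ⟨c, hc⟩ : ∃ c, k = t + d + c := ⟨k - (t + d), by omega⟩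
      have e : k - (t + d) = c := by omega
      rw [e]
      simp only
      refine ⟨fun h => ?_, fun h => ?_, fun h => absurd rfl h, ?_⟩
      · rcases Nat.lt_or_ge (t + d) 2 with hi | hi
        · have : t + d - 1 = 0 := by omega
          rw [this]
          exact Or.inl ⟨rfl, by omega⟩
        · exact Or.inr ⟨rfl, by omega, Or.inl (by omega)⟩
      · exact Or.inr ⟨rfl, by omega, Or.inl (by omega)⟩
      · -- z ^ (k + t - i) = z ^ (c + t)
        have hαγ : 1 + γ * (c + t) < α * k := by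
          have h1 : c + t ≤ k := by omega
          have h2 : γ * (c + t) ≤ γ * k := Nat.mul_le_mul_left _ h1
          have h3 : 1 + γ * k < α * k := by
            rw [hα, hγ]; nlinarith
          omega
        obtain ⟨n, hn⟩ : ∃ n : ℕ, n + (1 + γ * (c + t)) = α * k :=
          ⟨α * k - (1 + γ * (c + t)), by omega⟩
        have hnz : (n : ℤ) = α * k - (1 + γ * (c + t)) := by
          have : ((n + (1 + γ * (c + t)) : ℕ) : ℤ) = ((α * k : ℕ) : ℤ) := by
            rw [hn]
          push_cast at this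
          linarith
        have hcz : (k : ℤ) = t + d + c := by exact_mod_cast hc
        refine ⟨n, 0, 0, c + t, ?_, ?_⟩
        · omega
        · zify
          rw [hxz, hnz]
          push_cast
          have hdz : (d : ℤ) = k - t - c := by linarith
          rw [hdz]
          linear_combination (-1 : ℤ) * hmz
  · intro i j l hA n i' j' l' he
    have hez := congrArg (Nat.cast : ℕ → ℤ) he
    push_cast at hez
    rw [hxz] at hez
    have hA' : ((i : ℤ) = 0 ∧ (j : ℤ) + l ≤ k) ∨ ((l : ℤ) = 0 ∧ (1 : ℤ) ≤ i ∧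
        ((i : ℤ) + j + 1 ≤ k ∨ ((i : ℤ) + j = k ∧ (i : ℤ) + 1 ≤ t))) := by
      unfold A2 at hA
      omega
    obtain ⟨h1, h2, h3, h4⟩ := uniq2_int hkz htz1 htz hmz hαz hγz (by positivity) (by positivity)
      (by positivity) (by positivity) (by positivity) (by positivity) (by positivity) hA'
      (i := i) (j := j) (l := l) (n := n) (i' := i') (j' := j') (l' := l')
      (by linear_combination hez)
    exact ⟨by exact_mod_cast h1, by exact_mod_cast h2, by exact_mod_cast h3, by exact_mod_cast h4⟩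

end MPc709deB
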