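import Pool.Agent.Work.MP_c709de_al_h19.UpperR
import Pool.Agent.Work.MP_c709de_al_h19.LowerR
import Pool.Agent.Work.MP_c709de_al_h19.LowerR2

/-! The exact value of `R(3,m)`. -/

namespace MPc709deB

open MPc709de

theorem le_maxRho_three {m : ℕ} (hm : 4 ≤ m) : ((Nat.sqrt (4 * m) + 2 : ℕ) : ℕ∞) ≤ maxRho 3 m := by
  obtain ⟨k, hk⟩ : ∃ k, k = Nat.sqrt m := ⟨_, rfl⟩
  have h1 : k * k ≤ m := by rw [hk]; exact Nat.sqrt_le m
  have h2 : m < (k + 1) * (k + 1) := by rw [hk]; exact Nat.lt_succ_sqrt m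
  have hk2 : 2 ≤ k := by
    rw [hk, Nat.le_sqrt]
    omega
  rcases Nat.lt_or_ge (k * k + k) m with h | h
  · -- m = k² + k + t
    obtain ⟨t, ht⟩ : ∃ t, m = k ^ 2 + k + t := ⟨m - (k ^ 2 + k), by
      have : k ^ 2 = k * k := by ring
      omega⟩
    have ht1 : 1 ≤ t := by nlinarith
    have ht2 : t ≤ k := by nlinarith
    have hs : Nat.sqrt (4 * m) = 2 * k + 1 := by
      symm
      rw [Nat.eq_sqrt']
      constructor <;> nlinarith
    rw [hs, ht]
    exact family2 hk2 ht1 ht2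
  · obtain ⟨t, ht⟩ : ∃ t, m = k ^ 2 + t := ⟨m - k ^ 2, by
      have : k ^ 2 = k * k := by ring
      omega⟩
    have ht2 : t ≤ k := by nlinarith
    have hs : Nat.sqrt (4 * m) = 2 * k := by
      symm
      rw [Nat.eq_sqrt']
      constructor <;> nlinarith
    rw [hs, ht]
    exact family1 hk2 ht2

theorem maxRho_three {m : ℕ} (hm : 4 ≤ m) : maxRho 3 m = ((Nat.sqrt (4 * m) + 2 : ℕ) : ℕ∞) :=
  le_antisymm (maxRho_three_le m) (le_maxRho_three hm)

end MPc709deB
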