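import Pool.Agent.Work.MP_c709de_al_h19.Stair

/-! Two lower bounds for the spread of the labels of the corners of a staircase. -/

namespace MPc709deB

open Finset

theorem sum_abs (n : ℕ) : ∑ i ∈ range n, |2 * (i : ℤ) + 1 - n| = (n : ℤ) ^ 2 / 2 := by
  induction n using Nat.strong_induction_on with
  | _ n ih =>
    rcases n with _ | _ | n
    · simp
    · simp
    · rw [Finset.sum_range_succ, Finset.sum_range_succ']
      have h1 : ∑ k ∈ range n, |2 * ((k + 1 : ℕ) : ℤ) + 1 - ((n + 1 + 1 : ℕ) : ℤ)| =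
          ∑ k ∈ range n, |2 * (k : ℤ) + 1 - n| := by
        refine Finset.sum_congr rfl (fun k _ => ?_)
        congr 1; push_cast; ring
      rw [h1, ih n (by omega)]
      have h2 : |2 * ((0 : ℕ) : ℤ) + 1 - ((n + 1 + 1 : ℕ) : ℤ)| = n + 1 := by
        rw [show 2 * ((0 : ℕ) : ℤ) + 1 - ((n + 1 + 1 : ℕ) : ℤ) = -((n : ℤ) + 1) by push_cast; ring,
          abs_neg, abs_of_nonneg (by positivity)]
      have h3 : |2 * ((n + 1 : ℕ) : ℤ) + 1 - ((n + 1 + 1 : ℕ) : ℤ)| = n + 1 := by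
        rw [show 2 * ((n + 1 : ℕ) : ℤ) + 1 - ((n + 1 + 1 : ℕ) : ℤ) = (n : ℤ) + 1 by push_cast; ring,
          abs_of_nonneg (by positivity)]
      rw [h2, h3]
      push_cast
      have : ((n : ℤ) + 1 + 1) ^ 2 = (n : ℤ) ^ 2 + 2 * (2 * n + 2) := by ring
      rw [this]
      omega

theorem kappa {n : ℕ} (hn : 2 ≤ n) {a b : Fin n → ℕ} (ha : StrictMono a) (hb : StrictAnti b)
    (ha1 : ∀ i, 1 ≤ a i) (hb1 : ∀ i, 1 ≤ b i) {c : Fin n → ℕ} (hc : Function.Injective c)
    (W : ℤ) (hR : ∀ i j, i < j → c j < c i → W ≤ ((a j : ℤ) - a i) + ((c i : ℤ) - c j))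
    (hL : ∀ i j, i < j → c i < c j → W ≤ ((b i : ℤ) - b j) + ((c j : ℤ) - c i))
    (lo hi : ℤ) (hlo : ∀ i, lo ≤ c i) (hhi : ∀ i, (c i : ℤ) ≤ hi) :
    ((n : ℤ) - 1) * W - (n : ℤ) ^ 2 / 2 + 1 ≤ (hi - lo) + exc a b := by
  obtain ⟨N, rfl⟩ : ∃ N, n = N + 2 := ⟨n - 2, by omega⟩
  set σ := Tuple.sort c with hσ
  have hmono : Monotone (c ∘ σ) := Tuple.monotone_sort c
  have hstrict : StrictMono (c ∘ σ) := hmono.strictMono_of_injective (hc.comp σ.injective)
  set M : ℤ := N + 3 with hM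
  let tgt : Fin (N + 2) → ℤ := fun i => max 0 (2 * (a i : ℤ) - M) + max 0 (2 * (b i : ℤ) - M)
  let src : Fin (N + 2) → ℤ := fun i => max 0 (M - 2 * (a i : ℤ)) + max 0 (M - 2 * (b i : ℤ))
  have hstep : ∀ u v : Fin (N + 2), c u < c v →
      2 * W ≤ tgt u + src v + 2 * ((c v : ℤ) - c u) := by
    intro u v huv
    rcases lt_trichotomy u v with h | h | h
    · have := hL u v h huv
      simp only [tgt, src]
      omega
    · subst h; omega
    · have := hR v u h huv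
      simp only [tgt, src]
      omega
  -- sum over consecutive pairs
  have hsum : ∑ s : Fin (N + 1), (2 * W) ≤ ∑ s : Fin (N + 1),
      (tgt (σ s.castSucc) + src (σ s.succ) + 2 * ((c (σ s.succ) : ℤ) - c (σ s.castSucc))) := by
    apply Finset.sum_le_sum
    intro s _
    apply hstep
    exact hstrict (Fin.castSucc_lt_succ)
  rw [Finset.sum_add_distrib, Finset.sum_add_distrib] at hsum
  have h1 : ∑ s : Fin (N + 1), tgt (σ s.castSucc) = ∑ i, tgt i - tgt (σ (Fin.last _)) := by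
    rw [← Equiv.sum_comp σ tgt, Fin.sum_univ_castSucc (fun i => tgt (σ i))]; ring
  have h2 : ∑ s : Fin (N + 1), src (σ s.succ) = ∑ i, src i - src (σ 0) := by
    rw [← Equiv.sum_comp σ src, Fin.sum_univ_succ (fun i => src (σ i))]; ring
  have h3 : ∑ s : Fin (N + 1), 2 * ((c (σ s.succ) : ℤ) - c (σ s.castSucc)) =
      2 * ((c (σ (Fin.last _)) : ℤ) - c (σ 0)) := by
    rw [← Finset.mul_sum, Finset.sum_sub_distrib]
    have e1 := Fin.sum_univ_castSucc (fun i => ((c (σ i) : ℕ) : ℤ))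
    have e2 := Fin.sum_univ_succ (fun i => ((c (σ i) : ℕ) : ℤ))
    rw [e1] at e2
    linarith
  rw [h1, h2, h3, Finset.sum_const, Finset.card_univ, Fintype.card_fin, nsmul_eq_mul] at hsum
  -- pointwise bounds
  let δ : Fin (N + 2) → ℤ := fun i => |2 * ((i : ℕ) : ℤ) + 1 - ((N + 2 : ℕ) : ℤ)|
  let eA : Fin (N + 2) → ℤ := fun i => (a i : ℤ) - ((i : ℕ) + 1)
  let eB : Fin (N + 2) → ℤ := fun i => (b i : ℤ) - (((N + 2 : ℕ) : ℤ) - (i : ℕ))
  have hA : ∀ i, 0 ≤ eA i := by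
    intro i; have := fin_le ha ha1 i; simp only [eA]; omega
  have hB : ∀ i, 0 ≤ eB i := by
    intro i
    have := fin_le' hb hb1 i
    have := i.2
    simp only [eB]; push_cast; omega
  have hsrc : ∀ i, src i ≤ δ i := by
    intro i
    have h1 := hA i
    have h2 := hB i
    simp only [src, δ, eA, eB] at *
    rw [abs_eq_max_neg]
    push_cast at *
    omega
  have htgt : ∀ i, tgt i ≤ δ i + 2 * (eA i + eB i) := by
    intro i
    have h1 := hA i
    have h2 := hB i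
    simp only [tgt, δ, eA, eB] at *
    rw [abs_eq_max_neg]
    push_cast at *
    omega
  -- total
  have hne : σ 0 ≠ σ (Fin.last _) := by
    intro h
    have := σ.injective h
    simp [Fin.ext_iff] at this
  have hδ : ∀ i j : Fin (N + 2), i ≠ j → 2 ≤ δ i + δ j := by
    intro i j hij
    have : (i : ℕ) ≠ j := fun h => hij (Fin.ext h)
    simp only [δ]
    rw [abs_eq_max_neg, abs_eq_max_neg]
    push_cast
    omega
  have hδs : ∑ i, δ i = ((N + 2 : ℕ) : ℤ) ^ 2 / 2 := by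
    rw [← sum_abs (N + 2)]
    exact Fin.sum_univ_eq_sum_range (fun i => |2 * (i : ℤ) + 1 - ((N + 2 : ℕ) : ℤ)|) (N + 2)
  have hexc : exc a b = ∑ i, eA i + ∑ i, eB i := by
    rw [exc_eq, Finset.sum_add_distrib]
  have key : ∑ i, tgt i - tgt (σ (Fin.last _)) + (∑ i, src i - src (σ 0)) ≤
      2 * ∑ i, δ i + 2 * exc a b - 2 := by
    have hP : ∑ i, (δ i + 2 * (eA i + eB i) - tgt i) ≥
        δ (σ (Fin.last _)) + 2 * (eA (σ (Fin.last _)) + eB (σ (Fin.last _))) -
          tgt (σ (Fin.last _)) := by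
      exact Finset.single_le_sum (f := fun i => δ i + 2 * (eA i + eB i) - tgt i)
        (fun i _ => by have := htgt i; linarith) (Finset.mem_univ _)
    have hQ : ∑ i, (δ i - src i) ≥ δ (σ 0) - src (σ 0) := by
      exact Finset.single_le_sum (f := fun i => δ i - src i)
        (fun i _ => by have := hsrc i; linarith) (Finset.mem_univ _)
    rw [Finset.sum_sub_distrib, Finset.sum_add_distrib, ← Finset.mul_sum,
      Finset.sum_add_distrib] at hP
    rw [Finset.sum_sub_distrib] at hQ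
    have h5 := hδ _ _ hne
    have h6 := hA (σ (Fin.last _))
    have h7 := hB (σ (Fin.last _))
    rw [hexc]
    linarith
  have h8 := hlo (σ 0)
  have h9 := hhi (σ (Fin.last _))
  rw [hδs] at key
  push_cast at hsum key ⊢
  have h10 : ((N : ℤ) + 2 - 1) * W = ((N : ℤ) + 1) * W := by ring
  rw [h10]
  linarith

theorem lemG {n : ℕ} (hn : 3 ≤ n) {a b : Fin n → ℕ} (ha : StrictMono a) (hb : StrictAnti b)
    (ha1 : ∀ i, 1 ≤ a i) (hb1 : ∀ i, 1 ≤ b i) {c : Fin n → ℕ} (hc : Function.Injective c)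
    (Q : ℤ) (hQ : 2 ≤ Q)
    (hR : ∀ i j, i < j → c j < c i → 3 ≤ ((a j : ℤ) - a i) + ((c i : ℤ) - c j))
    (hL : ∀ i j, i < j → c i < c j → Q ≤ ((b i : ℤ) - b j) + ((c j : ℤ) - c i))
    (lo hi : ℤ) (hlo : ∀ i, lo ≤ c i) (hhi : ∀ i, (c i : ℤ) ≤ hi) :
    min (2 * (n : ℤ) - 2) Q ≤ (hi - lo) + exc a b := by
  have hA : ∀ i, 0 ≤ (a i : ℤ) - ((i : ℕ) + 1) := by
    intro i; have := fin_le ha ha1 i; omega
  have hB : ∀ i : Fin n, 0 ≤ (b i : ℤ) - ((n : ℤ) - (i : ℕ)) := by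
    intro i
    have := fin_le' hb hb1 i
    have := i.2
    omega
  have hE := fun x y => exc_ge ha hb ha1 hb1 x y
  by_cases hasc : ∀ (k : ℕ) (hk : k + 1 < n), c ⟨k + 1, hk⟩ < c ⟨k, by omega⟩
  · -- all descents
    have h1 : ∀ (k : ℕ) (hk : k < n), 3 * (k : ℤ) ≤ ((a ⟨k, hk⟩ : ℤ) - a ⟨0, by omega⟩) +
        ((c ⟨0, by omega⟩ : ℤ) - c ⟨k, hk⟩) := by
      intro k
      induction k with
      | zero => intro hk; simp
      | succ k ih =>
        intro hk
        have h2 := ih (by omega)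
        have h3 := hR ⟨k, by omega⟩ ⟨k + 1, hk⟩ (by simp [Fin.lt_def]) (hasc k hk)
        push_cast
        linarith
    have h2 := h1 (n - 1) (by omega)
    have h3 := ha1 ⟨0, by omega⟩
    have h4 := hhi ⟨0, by omega⟩
    have h5 := hlo ⟨n - 1, by omega⟩
    have h6 := hE ⟨n - 1, by omega⟩ ⟨0, by omega⟩
    have h7 := hB ⟨0, by omega⟩
    simp only at h6 h7
    have h8 : ((n - 1 : ℕ) : ℤ) = n - 1 := by omega
    rw [h8] at h2 h6
    apply (min_le_left _ _).trans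
    have h9 : (1 : ℤ) ≤ a ⟨0, by omega⟩ := by exact_mod_cast h3
    linarith
  · push Not at hasc
    obtain ⟨k, hk, hck⟩ := hasc
    apply (min_le_right _ _).trans
    have hck' : c ⟨k, by omega⟩ < c ⟨k + 1, hk⟩ := by
      rcases lt_or_eq_of_le hck with h | h
      · exact h
      · have := hc h
        simp at this
    have hlt1 : (⟨k, by omega⟩ : Fin n) < ⟨k + 1, hk⟩ := by simp [Fin.lt_def]
    have hij := hL _ _ hlt1 hck'
    by_cases hk2 : k + 2 < n
    · have hlt2 : (⟨k + 1, hk⟩ : Fin n) < ⟨k + 2, hk2⟩ := by simp [Fin.lt_def]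
      have hlt3 : (⟨k, by omega⟩ : Fin n) < ⟨k + 2, hk2⟩ := by simp [Fin.lt_def]
      have hne1 : c ⟨k + 2, hk2⟩ ≠ c ⟨k, by omega⟩ := by
        intro h; have := hc h; simp at this
      have hne2 : c ⟨k + 2, hk2⟩ ≠ c ⟨k + 1, hk⟩ := by
        intro h; have := hc h; simp at this
      have e1 := hE ⟨k + 2, hk2⟩ ⟨k, by omega⟩
      have b0 := hB ⟨k, by omega⟩
      have b1 := hB ⟨k + 1, hk⟩
      have b2 := hB ⟨k + 2, hk2⟩
      have a1 := hA ⟨k + 1, hk⟩
      have a2 := hA ⟨k + 2, hk2⟩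
      have lo0 := hlo ⟨k, by omega⟩
      have lo2 := hlo ⟨k + 2, hk2⟩
      have hi1 := hhi ⟨k + 1, hk⟩
      have hi2 := hhi ⟨k + 2, hk2⟩
      simp only at e1 b0 b1 b2 a1 a2
      push_cast at e1 b0 b1 b2 a1 a2
      rcases lt_or_gt_of_ne hne2 with h | h
      · rcases lt_or_gt_of_ne hne1 with h' | h'
        · have : (c ⟨k + 2, hk2⟩ : ℤ) + 1 ≤ c ⟨k, by omega⟩ := by exact_mod_cast h'
          linarith
        · have h3 := hR _ _ hlt2 h
          have h4 := hL _ _ hlt3 h'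
          linarith
      · have h4 := hL _ _ hlt2 h
        linarith
    · have hk1 : 1 ≤ k := by omega
      have hlt2 : (⟨k - 1, by omega⟩ : Fin n) < ⟨k, by omega⟩ := by
        rw [Fin.lt_def]; simp only; omega
      have hlt3 : (⟨k - 1, by omega⟩ : Fin n) < ⟨k + 1, hk⟩ := by simp [Fin.lt_def]
      have hne1 : c ⟨k - 1, by omega⟩ ≠ c ⟨k, by omega⟩ := by
        intro h; have := hc h; simp at this; omega
      have hne2 : c ⟨k - 1, by omega⟩ ≠ c ⟨k + 1, hk⟩ := by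
        intro h; have := hc h; simp at this
      have e1 := hE ⟨k, by omega⟩ ⟨k - 1, by omega⟩
      have b0 := hB ⟨k, by omega⟩
      have b1 := hB ⟨k + 1, hk⟩
      have b2 := hB ⟨k - 1, by omega⟩
      have a1 := hA ⟨k - 1, by omega⟩
      have a2 := hA ⟨k, by omega⟩
      have lo0 := hlo ⟨k, by omega⟩
      have lo2 := hlo ⟨k - 1, by omega⟩
      have hi1 := hhi ⟨k + 1, hk⟩
      have hi2 := hhi ⟨k - 1, by omega⟩
      simp only at e1 b0 b1 b2 a1 a2
      have hkc : ((k - 1 : ℕ) : ℤ) = k - 1 := by omega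
      rw [hkc] at e1 b2 a1
      push_cast at e1 b0 b1 b2 a1 a2
      rcases lt_or_gt_of_ne hne1 with h | h
      · -- c h < c i
        have h4 := hL _ _ hlt2 h
        linarith
      · rcases lt_or_gt_of_ne hne2 with h' | h'
        · have h3 := hR _ _ hlt2 h
          have h4 := hL _ _ hlt3 h'
          linarith
        · have : (c ⟨k + 1, hk⟩ : ℤ) + 1 ≤ c ⟨k - 1, by omega⟩ := by exact_mod_cast h'
          have hbb : (b ⟨k, by omega⟩ : ℤ) + 1 ≤ b ⟨k - 1, by omega⟩ := by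
            exact_mod_cast hb hlt2
          linarith

/-- the same with the two directions exchanged -/
theorem lemG' {n : ℕ} (hn : 3 ≤ n) {a b : Fin n → ℕ} (ha : StrictMono a) (hb : StrictAnti b)
    (ha1 : ∀ i, 1 ≤ a i) (hb1 : ∀ i, 1 ≤ b i) {c : Fin n → ℕ} (hc : Function.Injective c)
    (Q : ℤ) (hQ : 2 ≤ Q)
    (hR : ∀ i j, i < j → c j < c i → Q ≤ ((a j : ℤ) - a i) + ((c i : ℤ) - c j))
    (hL : ∀ i j, i < j → c i < c j → 3 ≤ ((b i : ℤ) - b j) + ((c j : ℤ) - c i))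
    (lo hi : ℤ) (hlo : ∀ i, lo ≤ c i) (hhi : ∀ i, (c i : ℤ) ≤ hi) :
    min (2 * (n : ℤ) - 2) Q ≤ (hi - lo) + exc a b := by
  have h := lemG hn (a := fun i => b (Fin.rev i)) (b := fun i => a (Fin.rev i))
    (c := fun i => c (Fin.rev i))
    (by intro i j hij; exact hb (Fin.rev_lt_rev.2 hij))
    (by intro i j hij; exact ha (Fin.rev_lt_rev.2 hij))
    (fun i => hb1 _) (fun i => ha1 _) (hc.comp Fin.rev_injective) Q hQ
    (by
      intro i j hij hcc
      have := hL (Fin.rev j) (Fin.rev i) (Fin.rev_lt_rev.2 hij) hcc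
      linarith)
    (by
      intro i j hij hcc
      have := hR (Fin.rev j) (Fin.rev i) (Fin.rev_lt_rev.2 hij) hcc
      linarith)
    lo hi (fun i => hlo _) (fun i => hhi _)
  have h2 : exc (fun i => b (Fin.rev i)) (fun i => a (Fin.rev i)) = exc a b := by
    unfold exc
    congr 1
    rw [← Equiv.sum_comp Fin.revPerm]
    refine Finset.sum_congr rfl (fun i _ => ?_)
    simp [Fin.revPerm, add_comm]
  rw [h2] at h
  exact h

end MPc709deB
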