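import Pool.Agent.Work.MP_c709de_al.Growth
import Pool.Agent.Work.MP_c709de_al.LinLower

/-! A general lower bound for `maxRho 3 m`. -/

namespace MPc709deB

open Finset MPc709de

theorem lower_of {m x y z q : ℕ} (hm : 0 < m) (hx : m < x) (hy : m < y) (hz : m < z)
    (hzq : z = m * q + 1) (A : ℕ → ℕ → ℕ → Prop)
    (huniq : ∀ i j l, A i j l → ∀ n i' j' l', n * m + i' * x + j' * y + l' * z =
      i * x + j * y + l * z → n = 0 ∧ i' = i ∧ j' = j ∧ l' = l)
    (hAx : A 1 0 0) (hAy : A 0 1 0) (hAz : A 0 0 1) (U : Finset (ℕ × ℕ × ℕ))
    (hU : ∀ p ∈ U, (p.1 ≠ 0 → A (p.1 - 1) p.2.1 p.2.2) ∧ (p.2.1 ≠ 0 → A p.1 (p.2.1 - 1) p.2.2) ∧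
      (p.2.2 ≠ 0 → A p.1 p.2.1 (p.2.2 - 1)) ∧
      ∃ n i' j' l', n ≠ 0 ∧ n * m + i' * x + j' * y + l' * z = p.1 * x + p.2.1 * y + p.2.2 * z) :
    (U.card : ℕ∞) ≤ maxRho 3 m := by
  classical
  let h : Fin 4 → ℕ := ![m, x, y, z]
  have hc : ∀ a : Fin 4 → ℕ, comb h a = a 0 * m + a 1 * x + a 2 * y + a 3 * z := by
    intro a
    rw [comb_apply, Fin.sum_univ_four]
    rfl
  have hpos : ∀ i, 0 < h i := by
    intro i
    fin_cases i
    · exact hm
    · exact lt_trans hm hx
    · exact lt_trans hm hy
    · exact lt_trans hm hz
  have hge : ∀ i, m ≤ h i := by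
    intro i
    fin_cases i
    · exact le_rfl
    · exact hx.le
    · exact hy.le
    · exact hz.le
  have huq : ∀ i j l, A i j l → ∀ a : Fin 4 → ℕ, comb h a = i * x + j * y + l * z →
      a = ![0, i, j, l] := by
    intro i j l hA a ha
    rw [hc] at ha
    obtain ⟨h0, h1, h2, h3⟩ := huniq i j l hA _ _ _ _ ha
    funext s
    fin_cases s
    · exact h0
    · exact h1
    · exact h2
    · exact h3
  have hirr : ∀ i a, comb h a = h i → a = Pi.single i 1 := by
    intro i a ha
    fin_cases i
    · rw [hc] at ha
      change _ = m at ha
      have h1 : a 1 = 0 := by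
        by_contra hne
        have : x ≤ a 1 * x := Nat.le_mul_of_pos_left _ (by omega)
        omega
      have h2 : a 2 = 0 := by
        by_contra hne
        have : y ≤ a 2 * y := Nat.le_mul_of_pos_left _ (by omega)
        omega
      have h3 : a 3 = 0 := by
        by_contra hne
        have : z ≤ a 3 * z := Nat.le_mul_of_pos_left _ (by omega)
        omega
      rw [h1, h2, h3] at ha
      have h0 : a 0 = 1 := by
        have : a 0 * m = 1 * m := by omega
        exact Nat.eq_of_mul_eq_mul_right hm this
      funext s
      fin_cases s
      · simpa using h0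
      · simpa using h1
      · simpa using h2
      · simpa using h3
    · have := huq 1 0 0 hAx a (by rw [ha]; change x = _; ring)
      rw [this]
      funext s
      fin_cases s <;> simp
    · have := huq 0 1 0 hAy a (by rw [ha]; change y = _; ring)
      rw [this]
      funext s
      fin_cases s <;> simp
    · have := huq 0 0 1 hAz a (by rw [ha]; change z = _; ring)
      rw [this]
      funext s
      fin_cases s <;> simp
  have hnum : IsNumerical (AddMonoidHom.mrange (comb h)) :=
    numerical_mrange (i₀ := 0) (i₁ := 3) (q := q) hm rfl hzq
  have hcard : Fintype.card (Fin 4) = 3 + 1 := by simp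
  refine le_maxRho hnum ?_ (mult_mrange (i₀ := 0) hm rfl hge) ?_
  · rw [edim_mrange hpos hirr, hcard]
  · refine rho_mrange_ge' (by norm_num) hpos hirr hcard hnum ?_
    intro R hR
    let V : Finset (Fin 4 → ℕ) := U.image (fun p => ![0, p.1, p.2.1, p.2.2])
    have hVc : V.card = U.card := by
      apply Finset.card_image_of_injective
      rintro ⟨i, j, l⟩ ⟨i', j', l'⟩ he
      have h1 := congrFun he 1
      have h2 := congrFun he 2
      have h3 := congrFun he 3
      simp only [Prod.mk.injEq]
      exact ⟨h1, h2, h3⟩
    rw [← hVc]
    refine card_le_of_iso (U := V) ?_ ?_ hR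
    · intro u hu
      simp only [V, Finset.mem_image] at hu
      obtain ⟨⟨i, j, l⟩, hp, rfl⟩ := hu
      obtain ⟨g1, g2, g3, -⟩ := hU _ hp
      simp only at g1 g2 g3
      refine ⟨?_, fun a ha => comb_pos hpos a ha⟩
      intro v c a b hac hbc hfv hc0
      have hc0' : c 0 = 0 := by
        have := congrFun hac 0
        simp only [Pi.add_apply, Matrix.cons_val_zero] at this
        omega
      obtain ⟨s, hs⟩ : ∃ s, c s ≠ 0 := by
        by_contra hcon
        push Not at hcon
        exact hc0 (funext hcon)
      -- remove one generator `s`
      have hv : v = Pi.single s 1 + (v - Pi.single s 1) := by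
        funext r
        simp only [Pi.add_apply, Pi.sub_apply]
        by_cases hr : r = s
        · subst hr
          have := congrFun hbc r
          simp only [Pi.add_apply] at this
          simp only [Pi.single_eq_same]
          omega
        · simp [Pi.single_eq_of_ne hr]
      have hfv2 : comb h (v - Pi.single s 1) + h s = comb h v := by
        conv_rhs => rw [hv]
        rw [map_add, comb_single]
        ring
      have hval : comb h ![0, i, j, l] = i * x + j * y + l * z := by
        rw [hc]
        simp
      have hfin : ∀ i' j' l' : ℕ, A i' j' l' → i' * x + j' * y + l' * z + h s =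
          i * x + j * y + l * z → ![0, i, j, l] = Pi.single s 1 + ![0, i', j', l'] →
          v = ![0, i, j, l] := by
        intro i' j' l' hA he hs'
        have h1 := huq i' j' l' hA (v - Pi.single s 1) (by
          have := hfv2
          rw [hfv, hval] at this
          omega)
        rw [hv, h1, hs']
      fin_cases s
      · exact absurd hc0' hs
      · have hi : i ≠ 0 := by
          have := congrFun hac 1
          simp only [Pi.add_apply] at this
          have h2 : a 1 + c 1 = i := this
          have h3 : c 1 ≠ 0 := hs
          omega
        apply hfin _ _ _ (g1 hi)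
        · change (i - 1) * x + j * y + l * z + x = _
          obtain ⟨i0, rfl⟩ := Nat.exists_eq_succ_of_ne_zero hi
          simp only [Nat.succ_eq_add_one, Nat.add_sub_cancel]
          ring
        · funext r
          fin_cases r
          · simp
          · simp; omega
          · simp
          · simp
      · have hj : j ≠ 0 := by
          have := congrFun hac 2
          simp only [Pi.add_apply] at this
          have h2 : a 2 + c 2 = j := this
          have h3 : c 2 ≠ 0 := hs
          omega
        apply hfin _ _ _ (g2 hj)
        · change i * x + (j - 1) * y + l * z + y = _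
          obtain ⟨j0, rfl⟩ := Nat.exists_eq_succ_of_ne_zero hj
          simp only [Nat.succ_eq_add_one, Nat.add_sub_cancel]
          ring
        · funext r
          fin_cases r
          · simp
          · simp
          · simp; omega
          · simp
      · have hl : l ≠ 0 := by
          have := congrFun hac 3
          simp only [Pi.add_apply] at this
          have h2 : a 3 + c 3 = l := this
          have h3 : c 3 ≠ 0 := hs
          omega
        apply hfin _ _ _ (g3 hl)
        · change i * x + j * y + (l - 1) * z + z = _
          obtain ⟨l0, rfl⟩ := Nat.exists_eq_succ_of_ne_zero hl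
          simp only [Nat.succ_eq_add_one, Nat.add_sub_cancel]
          ring
        · funext r
          fin_cases r
          · simp
          · simp
          · simp
          · simp; omega
    · intro u hu
      simp only [V, Finset.mem_image] at hu
      obtain ⟨⟨i, j, l⟩, hp, rfl⟩ := hu
      obtain ⟨-, -, -, n, i', j', l', hn, he⟩ := hU _ hp
      refine ⟨![n, i', j', l'], ?_, ?_⟩
      · simp only [V, Finset.mem_image, not_exists, not_and]
        intro p _ hp2
        have := congrFun hp2 0
        exact hn this.symm
      · rw [hc, hc]
        simpa using he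

end MPc709deB
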