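import Pool.Agent.Work.MP_c709de_al_h19.T1fin

/-! The inequality for all tiles. -/

namespace MPc709deB

open Finset

variable {R : Type*} [CommRing R]

namespace Tile

open Classical in
/-- `1` if there is a minimal non-element of full support, and `0` otherwise -/
noncomputable def t (T : Tile R) : ℕ := if ∃ u v w, T.Full u v w then 1 else 0

theorem t_rot (T : Tile R) : T.rot.t = T.t := by
  classical
  unfold t
  exact if_congr (full_rot_iff T) rfl rfl

theorem t_swp (T : Tile R) : T.swp.t = T.t := by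
  classical
  unfold t
  exact if_congr (full_swp_iff T) rfl rfl

theorem card_rot (T : Tile R) : T.rot.S.card = T.S.card := by
  simp only [rot]
  apply Finset.card_image_of_injective
  rintro ⟨i, j, k⟩ ⟨i', j', k'⟩ h
  simp only [Prod.mk.injEq] at h ⊢
  exact ⟨h.2.2, h.1, h.2.1⟩

theorem card_swp (T : Tile R) : T.swp.S.card = T.S.card := by
  simp only [swp]
  apply Finset.card_image_of_injective
  rintro ⟨i, j, k⟩ ⟨i', j', k'⟩ h
  simp only [Prod.mk.injEq] at h ⊢
  exact ⟨h.2.1, h.1, h.2.2⟩

theorem main_sorted (T : Tile R) (hqp : T.rot.n ≤ T.n) (hrq : T.rot.rot.n ≤ T.rot.n) :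
    (T.n + T.rot.n + T.rot.rot.n + 1 + T.t) ^ 2 ≤ 4 * T.S.card := by
  classical
  by_cases h : ∃ u v w, T.Full u v w
  · have ht : T.t = 1 := by unfold t; rw [if_pos h]
    rw [ht]
    obtain ⟨u, v, w, hf⟩ := h
    have F := hf.facts hqp hrq
    rcases Nat.lt_or_ge T.rot.rot.n 3 with h3 | h3
    · have : T.rot.rot.n = 0 ∨ T.rot.rot.n = 1 ∨ T.rot.rot.n = 2 := by omega
      rcases this with h0 | h0 | h0
      · exact (case_0 F h0).final
      · exact (case_1 hf F h0).final
      · exact (case_2 hf F h0).final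
    · exact (case_ge3 hf F h3).final
  · have ht : T.t = 0 := by unfold t; rw [if_neg h]
    rw [ht]
    exact T.main0 h hqp hrq

theorem main_max (T : Tile R) (h1 : T.rot.n ≤ T.n) (h2 : T.rot.rot.n ≤ T.n) :
    (T.n + T.rot.n + T.rot.rot.n + 1 + T.t) ^ 2 ≤ 4 * T.S.card := by
  rcases le_total T.rot.rot.n T.rot.n with h | h
  · exact T.main_sorted h1 h
  · have := T.swp.main_sorted (by rw [swp_rot, swp_n, swp_n]; exact h2)
      (by rw [swp_rot_rot, swp_rot, swp_n, swp_n]; exact h)
    rw [swp_rot_rot, swp_rot, swp_n, swp_n, swp_n, t_swp, card_swp] at this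
    have e : T.n + T.rot.n + T.rot.rot.n + 1 + T.t = T.n + T.rot.rot.n + T.rot.n + 1 + T.t := by
      ring
    rw [e]
    exact this

/-- the main inequality -/
theorem main (T : Tile R) : (T.n + T.rot.n + T.rot.rot.n + 1 + T.t) ^ 2 ≤ 4 * T.S.card := by
  by_cases h : T.rot.n ≤ T.n ∧ T.rot.rot.n ≤ T.n
  · exact T.main_max h.1 h.2
  · by_cases h' : T.rot.rot.n ≤ T.rot.n ∧ T.n ≤ T.rot.n
    · have := T.rot.main_max h'.1 (by rw [rot_rot_rot]; exact h'.2)
      rw [rot_rot_rot, t_rot, card_rot] at this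
      have e : T.n + T.rot.n + T.rot.rot.n + 1 + T.t = T.rot.n + T.rot.rot.n + T.n + 1 + T.t := by
        ring
      rw [e]
      exact this
    · have := T.rot.rot.main_max (by rw [rot_rot_rot]; omega) (by rw [rot_rot_rot]; omega)
      rw [rot_rot_rot, t_rot, t_rot, card_rot, card_rot] at this
      have e : T.n + T.rot.n + T.rot.rot.n + 1 + T.t = T.rot.rot.n + T.n + T.rot.n + 1 + T.t := by
        ring
      rw [e]
      exact this

end Tile

end MPc709deB
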