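import Pool.Agent.Work.MP_c709de_al_h19.T0

/-! Finite checks for tiles with a full minimal non-element. -/

namespace MPc709deB

open Tile

def kap (n W : ℕ) : ℕ := (n - 1) * W + 2 - n ^ 2 / 2
def gg (n Q : ℕ) : ℕ := min (2 * n - 2) Q + 1

/-- points of the rectangle `u × v` or equal to `e`, beyond the triangle of size `n` -/
def Pe (n u v e1 e2 : ℕ) (i j : ℕ) : Bool :=
  Nat.ble (n + 1) (i + j) && ((Nat.ble i u && Nat.ble j v) || (Nat.beq i e1 && Nat.beq j e2))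

def Eb (M n u v e1 e2 : ℕ) : ℕ := sm M (fun i => sm M (fun j => if Pe n u v e1 e2 (i + 1) (j + 1) then 1 else 0))

/-- height of the column over `(i,k)` -/
def hcol (p q r u v w e1 e2 : ℕ) (i k : ℕ) : ℕ :=
  max (if Nat.ble (i + k) r || (Nat.beq i e1 && Nat.beq k e2) then min (q - k) (p + 1 - i - k) else 0)
    (if Nat.ble i u && Nat.ble k w then (if Nat.beq i u && Nat.beq k w then v - 1 else v) else 0)

def Jb (M p q r u v w e1 e2 : ℕ) : ℕ := sm M (fun i => sm M (fun k => hcol p q r u v w e1 e2 (i + 1) (k + 1)))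

/-- the lower bound -/
def LB (p q r u v w e1 e2 s2 : ℕ) : ℕ :=
  4 * (1 + max (max (kap p (r + 1)) (gg p (q + 1))) (p + Eb (p + 1) p u v 0 0) +
    max (max (kap q (r + 1)) (if Nat.ble 3 q then gg q (p + 1) else 0)) (p + max s2 (Eb (p + 1) q v w 0 0)) +
    max (kap r (q + 1)) (p + Eb (p + 1) r w u e2 e1) + Jb (p + 1) p q r u v w e1 e2) +
    2 * (p * (p - 1) + q * (q - 1) + r * (r - 1))

def exc3 : List (ℕ × ℕ × ℕ) := [(4, 3, 3), (5, 3, 3), (5, 4, 3), (6, 3, 3), (6, 4, 3), (7, 3, 3),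
  (7, 4, 3), (7, 4, 4), (7, 5, 3), (8, 3, 3), (8, 4, 3), (8, 4, 4), (8, 5, 3), (8, 6, 3), (9, 4, 3),
  (9, 4, 4), (9, 5, 3), (10, 4, 4), (10, 5, 3), (10, 5, 4), (10, 6, 3)]

def ck3 (p q r : ℕ) : Prop := ∀ u < p + 1, ∀ v < p + 1, 1 ≤ u → 1 ≤ v → u + v ≤ p + 1 →
  (p + q + r + 2) ^ 2 ≤ LB p q r u v (p + 2 - u - v) 0 0 0

instance (p q r : ℕ) : Decidable (ck3 p q r) := by unfold ck3; infer_instance

theorem ck3_all : ∀ t ∈ exc3, ck3 t.1 t.2.1 t.2.2 := by decide +kernel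

def ck2 (p q s2 e1 e2 : ℕ) : Prop := ∀ u < p + 1, ∀ v < p + 1, 1 ≤ u → 1 ≤ v → u + v ≤ p + 1 →
  (p + q + 2 + 2) ^ 2 ≤ LB p q 2 u v (p + 2 - u - v) e1 e2 s2

instance (p q s2 e1 e2 : ℕ) : Decidable (ck2 p q s2 e1 e2) := by unfold ck2; infer_instance

def exc2 : List (ℕ × ℕ × ℕ) := [(3, 2, 1), (4, 2, 1), (5, 2, 1), (4, 3, 0), (5, 3, 0), (6, 3, 0),
  (6, 4, 0), (7, 4, 0)]

theorem ck2_all12 : ∀ t ∈ exc2, ck2 t.1 t.2.1 t.2.2 1 2 := by decide +kernel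

theorem ck2_all21 : ∀ t ∈ exc2, ck2 t.1 t.2.1 t.2.2 2 1 := by decide +kernel

end MPc709deB
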