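import Pool.Agent.Work.MP_c709de_al_h19.Num1

/-! The numerical inequality for tiles with a full minimal non-element, `r ≥ 3`. -/

namespace MPc709deB

theorem num3 (p q r V1 V2 V3 J : ℤ) (hqp : q ≤ p) (hrq : r ≤ q) (hr : 3 ≤ r)
    (hJ : r * (r - 1) * (3 * q + 1 - 2 * r) ≤ 6 * J)
    (h1 : p ≤ V1) (h2 : p ≤ V2) (h3 : p ≤ V3)
    (k1 : (p - 1) * (r + 1) - p ^ 2 / 2 + 2 ≤ V1)
    (k2 : (q - 1) * (r + 1) - q ^ 2 / 2 + 2 ≤ V2)
    (k3 : (r - 1) * (q + 1) - r ^ 2 / 2 + 2 ≤ V3)
    (g1 : min (2 * p - 2) (q + 1) + 1 ≤ V1) (g2 : min (2 * q - 2) (p + 1) + 1 ≤ V2)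
    (hexc : ∀ t ∈ exc3, p = (t.1 : ℤ) → q = (t.2.1 : ℤ) → r = (t.2.2 : ℤ) →
      (p + q + r + 2) ^ 2 ≤ 4 * (1 + V1 + V2 + V3 + J) +
      2 * (p * (p - 1) + q * (q - 1) + r * (r - 1))) :
    (p + q + r + 2) ^ 2 ≤ 4 * (1 + V1 + V2 + V3 + J) +
      2 * (p * (p - 1) + q * (q - 1) + r * (r - 1)) := by
  obtain ⟨d, hd⟩ : ∃ d, p = q + d := ⟨p - q, by ring⟩
  have hd0 : 0 ≤ d := by linarith
  obtain ⟨T1, hT1⟩ : ∃ T1, V1 = p + T1 := ⟨V1 - p, by ring⟩
  obtain ⟨T2, hT2⟩ : ∃ T2, V2 = p + T2 := ⟨V2 - p, by ring⟩
  obtain ⟨T3, hT3⟩ : ∃ T3, V3 = p + T3 := ⟨V3 - p, by ring⟩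
  have hT1' : 0 ≤ T1 := by linarith
  have hT2' : 0 ≤ T2 := by linarith
  have hT3' : 0 ≤ T3 := by linarith
  have key : 0 ≤ 4 * (T1 + T2 + T3 + J) + (d + 3 - r) ^ 2 - 9 - 4 * r * q →
      (p + q + r + 2) ^ 2 ≤ 4 * (1 + V1 + V2 + V3 + J) +
      2 * (p * (p - 1) + q * (q - 1) + r * (r - 1)) := by
    intro h
    subst hd hT1 hT2 hT3
    nlinarith [h]
  rcases lt_or_ge r 7 with hr7 | hr7
  · interval_cases r
    · -- r = 3
      norm_num at k3 hJ
      have hJ2 : 3 * q - 5 ≤ J := by linarith
      rcases lt_or_ge d 6 with hd6 | hd6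
      · interval_cases d
        · rcases eq_or_lt_of_le hrq with h | h
          · subst h
            rw [hd] at k1
            norm_num at k1 k2
            apply key; nlinarith
          · rw [min_eq_right (by linarith)] at g1 g2
            apply key; nlinarith
        · rcases lt_or_ge q 5 with hq | hq
          · interval_cases q
            · exact hexc (4, 3, 3) (by decide) hd rfl rfl
            · exact hexc (5, 4, 3) (by decide) hd rfl rfl
          · rw [min_eq_right (by linarith)] at g1 g2
            apply key; nlinarith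
        · rcases lt_or_ge q 7 with hq | hq
          · interval_cases q
            · exact hexc (5, 3, 3) (by decide) hd rfl rfl
            · exact hexc (6, 4, 3) (by decide) hd rfl rfl
            · exact hexc (7, 5, 3) (by decide) hd rfl rfl
            · exact hexc (8, 6, 3) (by decide) hd rfl rfl
          · rw [min_eq_right (by linarith)] at g1 g2
            apply key; nlinarith
        · rcases lt_or_ge q 6 with hq | hq
          · interval_cases q
            · exact hexc (6, 3, 3) (by decide) hd rfl rfl
            · exact hexc (7, 4, 3) (by decide) hd rfl rfl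
            · exact hexc (8, 5, 3) (by decide) hd rfl rfl
          · rw [min_eq_right (by linarith)] at g1 g2
            apply key; nlinarith
        · rcases lt_or_ge q 7 with hq | hq
          · interval_cases q
            · exact hexc (7, 3, 3) (by decide) hd rfl rfl
            · exact hexc (8, 4, 3) (by decide) hd rfl rfl
            · exact hexc (9, 5, 3) (by decide) hd rfl rfl
            · exact hexc (10, 6, 3) (by decide) hd rfl rfl
          · rw [min_eq_right (by linarith)] at g1 g2
            apply key; nlinarith
        · rcases lt_or_ge q 6 with hq | hq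
          · interval_cases q
            · exact hexc (8, 3, 3) (by decide) hd rfl rfl
            · exact hexc (9, 4, 3) (by decide) hd rfl rfl
            · exact hexc (10, 5, 3) (by decide) hd rfl rfl
          · apply key; nlinarith
      · apply key; nlinarith
    · -- r = 4
      norm_num at k3 hJ
      have hJ2 : 6 * q - 14 ≤ J := by linarith
      rcases lt_or_ge q 9 with hq | hq
      · interval_cases q
        · rcases lt_or_ge d 7 with hd7 | hd7
          · interval_cases d
            · rw [hd] at k1
              norm_num at k1 k2 k3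
              apply key; nlinarith
            · rw [hd] at k1
              norm_num at k1 k2 k3
              apply key; nlinarith
            · rw [hd] at k1
              norm_num at k1 k2 k3
              apply key; nlinarith
            · exact hexc (7, 4, 4) (by decide) hd rfl rfl
            · exact hexc (8, 4, 4) (by decide) hd rfl rfl
            · exact hexc (9, 4, 4) (by decide) hd rfl rfl
            · exact hexc (10, 4, 4) (by decide) hd rfl rfl
          · apply key; nlinarith
        · norm_num at k2 k3
          rcases lt_or_ge d 6 with hd7 | hd7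
          · interval_cases d
            · apply key; nlinarith
            · apply key; nlinarith
            · apply key; nlinarith
            · apply key; nlinarith
            · apply key; nlinarith
            · exact hexc (10, 5, 4) (by decide) hd rfl rfl
          · apply key; nlinarith
        · norm_num at k2 k3
          apply key; nlinarith [sq_nonneg (d - 5)]
        · norm_num at k2 k3
          apply key; nlinarith [sq_nonneg (d - 3)]
        · norm_num at k2 k3
          apply key; nlinarith [sq_nonneg (d - 3)]
      · apply key; nlinarith [sq_nonneg (d - 1)]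
    · -- r = 5
      norm_num at k3 hJ
      have hJ2 : 10 * q - 30 ≤ J := by linarith
      rcases lt_or_ge q 7 with hq | hq
      · interval_cases q
        · norm_num at k2 k3
          apply key; nlinarith [sq_nonneg (d - 6)]
        · norm_num at k2 k3
          apply key; nlinarith [sq_nonneg (d - 4)]
      · apply key; nlinarith [sq_nonneg (d - 2)]
    · -- r = 6
      norm_num at k3 hJ
      have hJ2 : 15 * q - 55 ≤ J := by linarith
      rcases lt_or_ge q 7 with hq | hq
      · interval_cases q
        norm_num at k2 k3
        apply key; nlinarith [sq_nonneg (d - 5)]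
      · apply key; nlinarith [sq_nonneg (d - 3)]
  · obtain ⟨e, he⟩ : ∃ e, q = r + e := ⟨q - r, by ring⟩
    obtain ⟨f, hf⟩ : ∃ f, r = 7 + f := ⟨r - 7, by ring⟩
    have he0 : 0 ≤ e := by linarith
    have hf0 : 0 ≤ f := by linarith
    have h5 : 0 ≤ (d + 3 - r) ^ 2 := sq_nonneg _
    have h6 : 0 ≤ 2 * (r * (r - 1) * (3 * q + 1 - 2 * r)) - 27 - 12 * r * q := by
      rw [he, hf]
      have : 2 * ((7 + f) * (7 + f - 1) * (3 * (7 + f + e) + 1 - 2 * (7 + f))) - 27 -
          12 * (7 + f) * (7 + f + e) =
          57 + 124 * f + 30 * f ^ 2 + 2 * f ^ 3 + e * (168 + 66 * f + 6 * f ^ 2) := by ring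
      rw [this]
      positivity
    apply key
    linarith

end MPc709deB
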