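import Mathlib

/-! Planar staircases: a strictly increasing sequence `a`, a strictly decreasing sequence `b`. -/

namespace MPc709deB

open Finset

theorem fin_le {n : ℕ} {a : Fin n → ℕ} (ha : StrictMono a) (h1 : ∀ i, 1 ≤ a i) (i : Fin n) :
    (i : ℕ) + 1 ≤ a i := by
  obtain ⟨k, hk⟩ := i
  induction k with
  | zero => exact h1 _
  | succ k ih =>
    have h2 := ih (by omega)
    have h3 : a ⟨k, by omega⟩ < a ⟨k + 1, hk⟩ := ha (by simp [Fin.lt_def])
    simp only at h2 ⊢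
    omega

theorem fin_le' {n : ℕ} {b : Fin n → ℕ} (hb : StrictAnti b) (h1 : ∀ i, 1 ≤ b i) (i : Fin n) :
    n - (i : ℕ) ≤ b i := by
  have h2 : StrictMono (fun j : Fin n => b (Fin.rev j)) := by
    intro j k hjk
    exact hb (Fin.rev_lt_rev.2 hjk)
  have h3 := fin_le h2 (fun j => h1 _) (Fin.rev i)
  simp only [Fin.rev_rev] at h3
  have h4 := i.2
  rw [Fin.val_rev] at h3
  omega

/-- the excess of a staircase -/
def exc {n : ℕ} (a b : Fin n → ℕ) : ℤ := ∑ i, ((a i : ℤ) + b i) - n * (n + 1)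

theorem sum_lin (n : ℕ) : ∑ i : Fin n, (((i : ℕ) : ℤ) + 1 + (n - (i : ℕ))) = n * (n + 1) := by
  have : ∀ i : Fin n, (((i : ℕ) : ℤ) + 1 + (n - (i : ℕ))) = n + 1 := by intro i; ring
  rw [Finset.sum_congr rfl (fun i _ => this i), Finset.sum_const, Finset.card_univ,
    Fintype.card_fin, nsmul_eq_mul]

theorem exc_eq {n : ℕ} (a b : Fin n → ℕ) :
    exc a b = ∑ i : Fin n, (((a i : ℤ) - ((i : ℕ) + 1)) + ((b i : ℤ) - (n - (i : ℕ)))) := by
  unfold exc
  rw [← sum_lin n, ← Finset.sum_sub_distrib]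
  refine Finset.sum_congr rfl (fun i _ => ?_)
  ring

theorem exc_ge {n : ℕ} {a b : Fin n → ℕ} (ha : StrictMono a) (hb : StrictAnti b)
    (ha1 : ∀ i, 1 ≤ a i) (hb1 : ∀ i, 1 ≤ b i) (x y : Fin n) :
    ((a x : ℤ) - ((x : ℕ) + 1)) + ((b y : ℤ) - (n - (y : ℕ))) ≤ exc a b := by
  rw [exc_eq, Finset.sum_add_distrib]
  have h1 : ∀ i : Fin n, 0 ≤ (a i : ℤ) - ((i : ℕ) + 1) := by
    intro i; have := fin_le ha ha1 i; omega
  have h2 : ∀ i : Fin n, 0 ≤ (b i : ℤ) - (n - (i : ℕ)) := by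
    intro i; have := fin_le' hb hb1 i; have := i.2; omega
  exact add_le_add
    (Finset.single_le_sum (f := fun i : Fin n => (a i : ℤ) - ((i : ℕ) + 1)) (fun i _ => h1 i)
      (Finset.mem_univ x))
    (Finset.single_le_sum (f := fun i : Fin n => (b i : ℤ) - (n - (i : ℕ))) (fun i _ => h2 i)
      (Finset.mem_univ y))

theorem exc_nonneg {n : ℕ} {a b : Fin n → ℕ} (ha : StrictMono a) (hb : StrictAnti b)
    (ha1 : ∀ i, 1 ≤ a i) (hb1 : ∀ i, 1 ≤ b i) : 0 ≤ exc a b := by
  rw [exc_eq]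
  apply Finset.sum_nonneg
  intro i _
  have := fin_le ha ha1 i
  have := fin_le' hb hb1 i
  have := i.2
  omega

/-- points strictly inside: counting by rows and columns through the corners. -/
theorem count_interior {n : ℕ} {a b : Fin n → ℕ} (ha : StrictMono a) (hb : StrictAnti b)
    (ha1 : ∀ i, 1 ≤ a i) (hb1 : ∀ i, 1 ≤ b i) (D : ℕ → ℕ → Prop)
    (hdown : ∀ {i j i' j'}, D i j → i' ≤ i → j' ≤ j → D i' j')
    (hpa : ∀ i, D (a i - 1) (b i)) (hpb : ∀ i, D (a i) (b i - 1))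
    (I : Finset (ℕ × ℕ)) (hI : ∀ s t, 1 ≤ s → 1 ≤ t → D s t → (s, t) ∈ I) :
    2 * exc a b + n * (n - 1) ≤ 2 * (I.card : ℤ) := by
  classical
  -- rows
  let R : Finset (Σ _ : Fin n, ℕ) := (univ : Finset (Fin n)).sigma (fun i => Ico 1 (a i))
  let C : Finset (Σ _ : Fin n, ℕ) :=
    (univ : Finset (Fin n)).sigma (fun i => (Ico 1 (b i)) \ (Ioi i).image b)
  let fR : (Σ _ : Fin n, ℕ) → ℕ × ℕ := fun p => (p.2, b p.1)
  let fC : (Σ _ : Fin n, ℕ) → ℕ × ℕ := fun p => (a p.1, p.2)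
  have hRinj : Function.Injective fR := by
    rintro ⟨i, s⟩ ⟨j, t⟩ h
    simp only [fR, Prod.mk.injEq] at h
    obtain ⟨rfl, h2⟩ := h
    have := hb.injective h2
    subst this; rfl
  have hCinj : Function.Injective fC := by
    rintro ⟨i, s⟩ ⟨j, t⟩ h
    simp only [fC, Prod.mk.injEq] at h
    obtain ⟨h1, rfl⟩ := h
    have := ha.injective h1
    subst this; rfl
  have hdisj : Disjoint (R.image fR) (C.image fC) := by
    rw [Finset.disjoint_left]
    intro p hp hq
    rw [Finset.mem_image] at hp hq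
    obtain ⟨⟨i, s⟩, hi, rfl⟩ := hp
    obtain ⟨⟨j, t⟩, hj, he⟩ := hq
    simp only [R, Finset.mem_sigma, Finset.mem_univ, true_and, Finset.mem_Ico] at hi
    simp only [C, Finset.mem_sigma, Finset.mem_univ, true_and, Finset.mem_sdiff, Finset.mem_Ico,
      Finset.mem_image, Finset.mem_Ioi, not_exists, not_and] at hj
    simp only [fR, fC, Prod.mk.injEq] at he
    obtain ⟨h1, h2⟩ := he
    apply hj.2 i _ h2.symm
    apply ha.lt_iff_lt.1
    omega
  have hsub : R.image fR ∪ C.image fC ⊆ I := by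
    intro p hp
    rw [Finset.mem_union] at hp
    rcases hp with hp | hp
    · rw [Finset.mem_image] at hp
      obtain ⟨⟨i, s⟩, hi, rfl⟩ := hp
      simp only [R, Finset.mem_sigma, Finset.mem_univ, true_and, Finset.mem_Ico] at hi
      have hs : s ≤ a i - 1 := by omega
      exact hI _ _ hi.1 (hb1 i) (hdown (hpa i) hs le_rfl)
    · rw [Finset.mem_image] at hp
      obtain ⟨⟨i, s⟩, hi, rfl⟩ := hp
      simp only [C, Finset.mem_sigma, Finset.mem_univ, true_and, Finset.mem_sdiff,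
        Finset.mem_Ico] at hi
      have hs : s ≤ b i - 1 := by omega
      exact hI _ _ (ha1 i) hi.1.1 (hdown (hpb i) le_rfl hs)
  have hcard := Finset.card_le_card hsub
  rw [Finset.card_union_of_disjoint hdisj, Finset.card_image_of_injective _ hRinj,
    Finset.card_image_of_injective _ hCinj] at hcard
  have hR : (R.card : ℤ) = ∑ i, ((a i : ℤ) - 1) := by
    simp only [R, Finset.card_sigma, Nat.card_Ico]
    rw [Nat.cast_sum]
    refine Finset.sum_congr rfl (fun i _ => ?_)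
    have := ha1 i
    omega
  have hC : ∑ i : Fin n, ((b i : ℤ) - 1 - (n - 1 - (i : ℕ))) ≤ (C.card : ℤ) := by
    simp only [C, Finset.card_sigma]
    rw [Nat.cast_sum]
    apply Finset.sum_le_sum
    intro i _
    have h1 := Finset.le_card_sdiff ((Ioi i).image b) (Ico 1 (b i))
    have h2 : ((Ioi i).image b).card ≤ n - 1 - i := by
      refine Finset.card_image_le.trans ?_
      rw [Fin.card_Ioi]
    rw [Nat.card_Ico] at h1
    have := hb1 i
    have := i.2
    omega
  have hsum : ∑ i : Fin n, ((b i : ℤ) - 1 - (n - 1 - (i : ℕ))) + ∑ i, ((a i : ℤ) - 1) =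
      exc a b + ∑ i : Fin n, ((i : ℕ) : ℤ) := by
    rw [exc_eq, ← Finset.sum_add_distrib, ← Finset.sum_add_distrib]
    refine Finset.sum_congr rfl (fun i _ => ?_)
    ring
  have hgauss : 2 * ∑ i : Fin n, ((i : ℕ) : ℤ) = n * (n - 1) := by
    rw [Fin.sum_univ_eq_sum_range (fun i => (i : ℤ)) n]
    have := Finset.sum_range_id_mul_two n
    have h2 : ((∑ i ∈ range n, i : ℕ) : ℤ) * 2 = n * (n - 1) := by
      rcases n with _ | n
      · simp
      · have h3 : ((∑ i ∈ range (n + 1), i : ℕ) : ℤ) * 2 = ((n + 1 : ℕ) : ℤ) * (n : ℤ) := by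
          exact_mod_cast this
        rw [h3]; push_cast; ring
    push_cast at h2
    linarith
  have hcard' : (R.card : ℤ) + C.card ≤ I.card := by exact_mod_cast hcard
  linarith

end MPc709deB
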