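import Pool.Agent.Work.MP_c709de_al_h19.Count3

/-! Tiles without minimal non-element of full support. -/

namespace MPc709deB

open Finset

variable {R : Type*} [CommRing R]

namespace Tile

theorem top_ge_rot (T : Tile R) : T.rot.n ≤ T.top := by
  have := T.rot.rot_rot_top_ge
  rwa [rot_rot_rot] at this

theorem top_ge_rot_rot (T : Tile R) : T.rot.rot.n ≤ T.top := by
  have := T.rot.rot.rot_top_ge
  rwa [rot_rot_rot] at this

theorem labelGe_zero (T : Tile R) : T.LabelGe 0 := fun _ _ _ _ _ => Nat.zero_le _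

/-- a plane with two corners and excess zero -/
theorem E_zero_cor (T : Tile R) (hn : T.n = 2) (hE : T.E ≤ 0) : T.IsCor 1 2 ∧ T.IsCor 2 1 := by
  obtain ⟨a, b, ha, hb, hc, -⟩ := T.exists_enum
  have h1 := T.exc_le_E ha hb hc
  have hA := fin_le ha (fun i => (hc i).1)
  have hB := fin_le' hb (fun i => (hc i).2.1)
  have hE' := fun x y => exc_ge ha hb (fun i => (hc i).1) (fun i => (hc i).2.1) x y
  have e1 := hE' ⟨0, by omega⟩ ⟨0, by omega⟩
  have e2 := hE' ⟨1, by omega⟩ ⟨1, by omega⟩
  have a0 := hA ⟨0, by omega⟩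
  have a1 := hA ⟨1, by omega⟩
  have b0 := hB ⟨0, by omega⟩
  have b1 := hB ⟨1, by omega⟩
  simp only at e1 e2 a0 a1 b0 b1
  have c0 := hc ⟨0, by omega⟩
  have c1 := hc ⟨1, by omega⟩
  have h2 : a ⟨0, by omega⟩ = 1 := by omega
  have h3 : a ⟨1, by omega⟩ = 2 := by omega
  have h4 : b ⟨0, by omega⟩ = 2 := by omega
  have h5 : b ⟨1, by omega⟩ = 1 := by omega
  rw [h2, h4] at c0
  rw [h3, h5] at c1
  exact ⟨c0, c1⟩

theorem z_ne (T : Tile R) (h : 1 ≤ T.top) : T.z ≠ 0 := by
  intro hz
  have h1 := (T.mem_axis 1).2 h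
  obtain ⟨-, -, h2⟩ := T.inj h1 T.zero_mem (by rw [hz]; simp)
  omega

/-- labels when the excess vanishes -/
theorem E_zero_labels (T : Tile R) (hn : T.n = 2) (hn2 : T.rot.n = 2) (hn3 : T.rot.rot.n = 2)
    (hV : T.V ≤ 2) : T.top = 2 ∧
      ((T.x + 2 * T.y = 0 ∧ 2 * T.x + T.y = 2 * T.z) ∨
       (T.x + 2 * T.y = 2 * T.z ∧ 2 * T.x + T.y = 0)) := by
  have h1 := T.top_ge_rot
  have h2 := T.E_nonneg
  unfold V at hV
  have h3 : T.E ≤ 0 := by omega
  have h4 : T.top = 2 := by omega
  obtain ⟨c1, c2⟩ := T.E_zero_cor hn h3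
  obtain ⟨g1, hg1, e1⟩ := T.label c1
  obtain ⟨g2, hg2, e2⟩ := T.label c2
  have hne := T.pair_ne c1 c2 e1 e2 (by omega) (by omega)
  have hpr := T.pairR c1 e1 e2 (by omega) (by omega)
  have hpl := T.pairL c2 e1 e2 (by omega) (by omega)
  refine ⟨h4, ?_⟩
  rcases lt_or_gt_of_ne hne with h | h
  · have := hpl h
    have h5 : g1 = 0 := by omega
    have h6 : g2 = 2 := by omega
    subst h5 h6
    left
    push_cast at e1 e2
    exact ⟨by linear_combination e1, by linear_combination e2⟩
  · have := hpr h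
    have h5 : g1 = 2 := by omega
    have h6 : g2 = 0 := by omega
    subst h5 h6
    right
    push_cast at e1 e2
    exact ⟨by linear_combination e1, by linear_combination e2⟩

theorem V_add_ge (T : Tile R) (hn : T.n = 2) (hn2 : T.rot.n = 2) (hn3 : T.rot.rot.n = 2) :
    5 ≤ T.V + T.rot.V := by
  by_contra hcon
  have hE1 := T.E_nonneg
  have hE2 := T.rot.E_nonneg
  have ht1 := T.top_ge_rot
  have ht2 := T.rot.top_ge_rot
  have hV1 : T.V ≤ 2 := by unfold V at *; omega
  have hV2 : T.rot.V ≤ 2 := by unfold V at *; omega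
  have hn4 : T.rot.rot.rot.n = 2 := by rw [rot_rot_rot]; exact hn
  obtain ⟨hz, h1⟩ := T.E_zero_labels hn hn2 hn3 hV1
  obtain ⟨hx, h2⟩ := T.rot.E_zero_labels hn2 hn3 hn4 hV2
  have hz0 := T.z_ne (by omega)
  have hx0 : T.x ≠ 0 := T.rot.z_ne (by omega)
  change T.y + 2 * T.z = 0 ∧ 2 * T.y + T.z = 2 * T.x ∨ T.y + 2 * T.z = 2 * T.x ∧ 2 * T.y + T.z = 0
    at h2
  have m001 : (0, 0, 1) ∈ T.S := (T.mem_axis 1).2 (by omega)
  have m002 : (0, 0, 2) ∈ T.S := (T.mem_axis 2).2 (by omega)
  have m100 : (1, 0, 0) ∈ T.S := by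
    rw [← mem_rot]; exact (T.rot.mem_axis 1).2 (by omega)
  have m200 : (2, 0, 0) ∈ T.S := by
    rw [← mem_rot]; exact (T.rot.mem_axis 2).2 (by omega)
  rcases h1 with ⟨e1, e2⟩ | ⟨e1, e2⟩
  · rcases h2 with ⟨e3, e4⟩ | ⟨e3, e4⟩
    · apply hz0
      have h4 : 4 * T.z = 0 := by linear_combination e2 - 2 * e1 + 3 * e3
      have h11 : 11 * T.z = 0 := by linear_combination 6 * e3 - 2 * e1 - e4
      linear_combination 3 * h4 - h11
    · have h5 : T.x = T.z := by linear_combination e1 - e4
      obtain ⟨h6, -⟩ := T.inj m100 m001 (by push_cast; linear_combination h5)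
      omega
  · rcases h2 with ⟨e3, e4⟩ | ⟨e3, e4⟩
    · have h5 : 2 * T.x = 2 * T.z := by linear_combination e2 - e3
      obtain ⟨h6, -⟩ := T.inj m200 m002 (by push_cast; linear_combination h5)
      omega
    · apply hx0
      have h4 : 4 * T.x = 0 := by linear_combination e3 + 3 * e2 - 2 * e4
      have h11 : 11 * T.x = 0 := by linear_combination 6 * e2 - 2 * e4 - e1
      linear_combination 3 * h4 - h11

/-- a triangular count of interior points -/
theorem I3_tri (T : Tile R) (r q : ℕ)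
    (hh : ∀ i k j, 1 ≤ i → 1 ≤ k → 1 ≤ j → i + k ≤ r → i + j + k ≤ q + 1 → (i, j, k) ∈ T.S) :
    ∑ s ∈ range r, s * (q - s) ≤ T.N true true true := by
  classical
  let B : Finset (Σ _ : (Σ _ : ℕ, ℕ), ℕ) :=
    ((range r).sigma (fun s => range s)).sigma (fun p => Ico 1 (q - p.1 + 1))
  have h1 : B.card = ∑ s ∈ range r, s * (q - s) := by
    simp only [B, Finset.card_sigma, Nat.card_Ico, Finset.sum_sigma, Nat.add_sub_cancel,
      Finset.sum_const, Finset.card_range, smul_eq_mul]
  rw [← h1]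
  unfold N
  apply Finset.card_le_card_of_injOn (fun p => (p.1.2 + 1, p.2, p.1.1 - p.1.2))
  · rintro ⟨⟨s, i⟩, j⟩ hp
    simp only [B, Finset.coe_sigma, Finset.coe_range,
      Finset.coe_Ico, Set.mem_sigma_iff, Set.mem_Iio, Set.mem_Ico] at hp
    simp only [Finset.coe_filter, Set.mem_ofPred_eq, Prod.mk.injEq]
    refine ⟨hh _ _ _ (by omega) (by omega) hp.2.1 (by omega) (by omega), ?_, ?_, ?_⟩
    · simp
    · simp; omega
    · simp; omega
  · rintro ⟨⟨s, i⟩, j⟩ h1 ⟨⟨s', i'⟩, j'⟩ h2 he
    simp only [B, Finset.coe_sigma, Finset.coe_range,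
      Finset.coe_Ico, Set.mem_sigma_iff, Set.mem_Iio, Set.mem_Ico] at h1 h2
    simp only [Prod.mk.injEq, Nat.add_right_cancel_iff] at he
    obtain ⟨rfl, rfl, h3⟩ := he
    have : s = s' := by omega
    subst this
    rfl

theorem sum_closed (r q : ℕ) (h : r ≤ q + 1) :
    6 * ((∑ s ∈ range r, s * (q - s) : ℕ) : ℤ) = r * (r - 1) * (3 * q + 1 - 2 * r) := by
  induction r with
  | zero => simp
  | succ n ih =>
    rw [Finset.sum_range_succ, Nat.cast_add, mul_add, ih (by omega), Nat.cast_mul,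
      Nat.cast_sub (by omega)]
    push_cast
    ring

/-- pairwise membership suffices when there is no full minimal non-element -/
theorem mem_of_pairwise (T : Tile R) (h : ¬ ∃ u v w, T.Full u v w) {i j k : ℕ}
    (h1 : (i, j, 0) ∈ T.S) (h2 : (0, j, k) ∈ T.S) (h3 : (i, 0, k) ∈ T.S) : (i, j, k) ∈ T.S := by
  by_contra hcon
  obtain ⟨u, v, w, hf, -⟩ := T.exists_full _ i j k rfl hcon h1 h2 h3
  exact h ⟨u, v, w, hf⟩

theorem mem_xz (T : Tile R) {i k : ℕ} (h : i + k ≤ T.rot.rot.n) : (i, 0, k) ∈ T.S := by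
  have := T.rot.rot.tri_mem k i (by omega)
  rwa [mem_rot, mem_rot] at this

theorem mem_yz (T : Tile R) {j k : ℕ} (h : j + k ≤ T.rot.n) : (0, j, k) ∈ T.S := by
  have := T.rot.tri_mem j k (by omega)
  rwa [mem_rot] at this

/-- the numerical inequality of the case without full minimal non-element -/
theorem num0 (p q r V1 V2 V3 J : ℤ) (hqp : q ≤ p) (hrq : r ≤ q) (hr : 0 ≤ r) (hJ0 : 0 ≤ J)
    (hJ : r * (r - 1) * (3 * q + 1 - 2 * r) ≤ 6 * J)
    (h1 : p - 1 ≤ V1) (h1' : q ≤ V1) (h2 : p ≤ V2) (h3 : p ≤ V3)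
    (k1 : 2 ≤ p → (p - 1) * (r + 1) - p ^ 2 / 2 + 1 ≤ V1)
    (k2 : 2 ≤ q → (q - 1) * (r + 1) - q ^ 2 / 2 + 1 ≤ V2)
    (k3 : 2 ≤ r → (r - 1) * (q + 1) - r ^ 2 / 2 + 1 ≤ V3)
    (g1 : 3 ≤ p → 2 ≤ r → min (2 * p - 2) (q + 1) ≤ V1)
    (g2 : 3 ≤ q → 2 ≤ r → min (2 * q - 2) (p + 1) ≤ V2)
    (h222 : p = 2 → q = 2 → r = 2 → 8 ≤ V1 + V2 + V3) :
    (p + q + r + 1) ^ 2 ≤ 4 * (1 + V1 + V2 + V3 + J) +
      2 * (p * (p - 1) + q * (q - 1) + r * (r - 1)) := by
  obtain ⟨d, hd⟩ : ∃ d, p = q + d := ⟨p - q, by ring⟩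
  have hd0 : 0 ≤ d := by linarith
  obtain ⟨T1, hT1⟩ : ∃ T1, V1 = p + T1 := ⟨V1 - p, by ring⟩
  obtain ⟨T2, hT2⟩ : ∃ T2, V2 = p + T2 := ⟨V2 - p, by ring⟩
  obtain ⟨T3, hT3⟩ : ∃ T3, V3 = p + T3 := ⟨V3 - p, by ring⟩
  have hT2' : 0 ≤ T2 := by linarith
  have hT3' : 0 ≤ T3 := by linarith
  have hT1' : -1 ≤ T1 := by linarith
  have key : 0 ≤ 4 * (T1 + T2 + T3 + J) + (d + 4 - r) ^ 2 - 13 + 4 * q + 4 * r - 4 * r * q →
      (p + q + r + 1) ^ 2 ≤ 4 * (1 + V1 + V2 + V3 + J) +
      2 * (p * (p - 1) + q * (q - 1) + r * (r - 1)) := by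
    intro h
    subst hd hT1 hT2 hT3
    nlinarith [h]
  apply key
  clear key
  rcases lt_or_ge r 5 with hr5 | hr5
  · interval_cases r
    · nlinarith [sq_nonneg (d + 4)]
    · rcases eq_or_lt_of_le hd0 with h | h
      · subst h
        have : 0 ≤ T1 := by linarith
        nlinarith
      · nlinarith
    · -- r = 2
      have hJ2 : q - 1 ≤ J := by linarith
      rcases lt_or_ge d 2 with hd2 | hd2
      · interval_cases d
        · rcases eq_or_lt_of_le hrq with h | h
          · have := h222 (by linarith) (by linarith) rfl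
            nlinarith
          · have e1 := g1 (by linarith) le_rfl
            have e2 := g2 (by linarith) le_rfl
            rw [min_eq_right (by linarith)] at e1 e2
            nlinarith
        · have e1 := g1 (by linarith) le_rfl
          rw [min_eq_right (by linarith)] at e1
          nlinarith
      · nlinarith
    · -- r = 3
      have hJ2 : 3 * q - 5 ≤ J := by linarith
      have e3 := k3 (by norm_num)
      norm_num at e3
      rcases lt_or_ge d 3 with hd2 | hd2
      · interval_cases d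
        · nlinarith
        · rcases eq_or_lt_of_le hrq with h | h
          · subst h
            have e1 := k1 (by linarith)
            rw [hd] at e1
            norm_num at e1
            nlinarith
          · nlinarith
        · rcases eq_or_lt_of_le hrq with h | h
          · subst h
            have e1 := k1 (by linarith)
            rw [hd] at e1
            norm_num at e1
            nlinarith
          · nlinarith
      · nlinarith
    · -- r = 4
      have hJ2 : 6 * q - 14 ≤ J := by linarith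
      rcases eq_or_lt_of_le hrq with h | h
      · subst h
        have e1 := k1 (by linarith)
        rcases lt_or_ge d 3 with hd2 | hd2
        · interval_cases d
          · rw [hd] at e1
            norm_num at e1
            nlinarith
          · rw [hd] at e1
            norm_num at e1
            nlinarith
          · rw [hd] at e1
            norm_num at e1
            nlinarith
        · nlinarith
      · nlinarith
  · obtain ⟨e, he⟩ : ∃ e, q = r + e := ⟨q - r, by ring⟩
    obtain ⟨f, hf⟩ : ∃ f, r = 5 + f := ⟨r - 5, by ring⟩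
    have he0 : 0 ≤ e := by linarith
    have hf0 : 0 ≤ f := by linarith
    have h5 : 0 ≤ (d + 4 - r) ^ 2 := sq_nonneg _
    have h6 : 0 ≤ 2 * (r * (r - 1) * (3 * q + 1 - 2 * r)) - 51 + 12 * q + 12 * r - 12 * r * q := by
      rw [he, hf]
      have : 2 * ((5 + f) * (5 + f - 1) * (3 * (5 + f + e) + 1 - 2 * (5 + f))) - 51 +
          12 * (5 + f + e) + 12 * (5 + f) - 12 * (5 + f) * (5 + f + e) =
          9 + 52 * f + 18 * f ^ 2 + 2 * f ^ 3 + e * (72 + 42 * f + 6 * f ^ 2) := by ring
      rw [this]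
      positivity
    linarith

theorem main0 (T : Tile R) (hno : ¬ ∃ u v w, T.Full u v w) (hqp : T.rot.n ≤ T.n)
    (hrq : T.rot.rot.n ≤ T.rot.n) :
    (T.n + T.rot.n + T.rot.rot.n + 1) ^ 2 ≤ 4 * T.S.card := by
  set p := T.n with hp
  set q := T.rot.n with hq
  set r := T.rot.rot.n with hr
  have hcard := T.card_ge
  have hV1 : (T.top : ℤ) ≤ T.V := by have := T.E_nonneg; unfold V; linarith
  have hV2 : (T.rot.top : ℤ) ≤ T.rot.V := by have := T.rot.E_nonneg; unfold V; linarith
  have hV3 : (T.rot.rot.top : ℤ) ≤ T.rot.rot.V := by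
    have := T.rot.rot.E_nonneg; unfold V; linarith
  have a1 := T.top_ge_rot
  have a2 := T.rot_top_ge
  have a3 := T.rot_rot_top_ge
  have l1 := T.labelGe_zero
  have l2 := T.rot.labelGe_zero
  have l3 := T.rot.rot.labelGe_zero
  have hrr : T.rot.rot.rot = T := T.rot_rot_rot
  have htop : 1 ≤ p → p ≤ T.top + 1 := fun h => by
    have := T.top_ge l1 h
    omega
  have hJ := T.I3_tri r q (by
    intro i k j hi hk hj h1 h2
    apply T.mem_of_pairwise hno
    · exact T.tri_mem _ _ (by omega)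
    · exact T.mem_yz (by omega)
    · exact T.mem_xz (by omega))
  have hJc := sum_closed r q (by omega)
  have hJ' : ((∑ s ∈ range r, s * (q - s) : ℕ) : ℤ) ≤ T.N true true true := by exact_mod_cast hJ
  have t1 := tri_two T.n
  have t2 := tri_two T.rot.n
  have t3 := tri_two T.rot.rot.n
  have hnum := num0 (p : ℤ) q r T.V T.rot.V T.rot.rot.V (T.N true true true)
    (by exact_mod_cast hqp) (by exact_mod_cast hrq) (by positivity) (by positivity)
    (by rw [← hJc]; linarith)
    (by
      rcases Nat.eq_zero_or_pos p with h | h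
      · rw [h]; push_cast
        have : (0 : ℤ) ≤ T.top := by positivity
        linarith
      · have := htop h
        omega)
    (by have : (q : ℤ) ≤ T.top := by exact_mod_cast a1
        linarith)
    (by have : (p : ℤ) ≤ T.rot.top := by exact_mod_cast a2
        linarith)
    (by have : (p : ℤ) ≤ T.rot.rot.top := by exact_mod_cast a3
        linarith)
    (by
      intro h
      have := T.V_kappa l1 (by omega) (r + 1) (by omega) (by omega)
      simpa using this)
    (by
      intro h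
      have := T.rot.V_kappa l2 (by omega) (r + 1) (by omega) (by rw [hrr]; omega)
      simpa using this)
    (by
      intro h
      have := T.rot.rot.V_kappa l3 (by omega) (q + 1) (by rw [hrr]; omega) (by rw [hrr])
      simpa using this)
    (by
      intro h h'
      have := T.V_G l1 (by omega) (q + 1) (by omega) (Or.inl ⟨le_rfl, by omega⟩)
      simpa using this)
    (by
      intro h h'
      have := T.rot.V_G l2 (by omega) (p + 1) (by omega) (Or.inr ⟨by rw [hrr], by omega⟩)
      simpa using this)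
    (by
      intro h1 h2 h3
      have e1 : T.n = 2 := by omega
      have e2 : T.rot.n = 2 := by omega
      have e3 : T.rot.rot.n = 2 := by omega
      have e4 : T.rot.rot.rot.n = 2 := by rw [hrr]; exact e1
      have e5 : T.rot.rot.rot.rot.n = 2 := by rw [hrr]; exact e2
      have f1 := T.V_add_ge e1 e2 e3
      have f2 := T.rot.V_add_ge e2 e3 e4
      have f3 := T.rot.rot.V_add_ge e3 e4 e5
      rw [hrr] at f3
      omega)
  have hfin : ((p : ℤ) + q + r + 1) ^ 2 ≤ 4 * T.S.card := by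
    linarith
  exact_mod_cast hfin

end Tile

end MPc709deB
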