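import Pool.Agent.Work.MP_c709de_al_h19.Num1

/-! Tiles with a full minimal non-element: geometry. -/

namespace MPc709deB

open Finset

variable {R : Type*} [CommRing R]

namespace Tile

theorem Full.labelGe {T : Tile R} {u v w : ℕ} (hf : T.Full u v w) : T.LabelGe 1 :=
  fun _ _ _ h hc => hf.label_pos h hc

/-- the box of `(u,v,w)` without its top point lies in the tile -/
def Box (T : Tile R) (u v w : ℕ) : Prop := ∀ i j k, i ≤ u → j ≤ v → k ≤ w →
  (i < u ∨ j < v ∨ k < w) → (i, j, k) ∈ T.S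

theorem Full.box {T : Tile R} {u v w : ℕ} (hf : T.Full u v w) : T.Box u v w := by
  intro i j k hi hj hk h
  obtain ⟨hu, hv, hw, h1, h2, h3, h4⟩ := hf
  rcases h with h | h | h
  · exact T.down h2 (by omega) hj hk
  · exact T.down h3 hi (by omega) hk
  · exact T.down h4 hi hj (by omega)

theorem Box.rot {T : Tile R} {u v w : ℕ} (h : T.Box u v w) : T.rot.Box v w u := by
  intro i j k hi hj hk h'
  rw [mem_rot]
  exact h k i j hk hi hj (by omega)

theorem Full.exists_box {T : Tile R} {u0 v0 w0 : ℕ} (hf : T.Full u0 v0 w0) (hn : 1 ≤ T.n) :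
    ∃ u v w, 1 ≤ u ∧ 1 ≤ v ∧ 1 ≤ w ∧ u + v + w = T.n + 2 ∧ T.Box u v w := by
  have hs := hf.size
  have hu := hf.1
  have hv := hf.2.1
  have hw := hf.2.2.1
  have hb := hf.box
  refine ⟨min u0 T.n, min v0 (T.n + 1 - min u0 T.n),
    T.n + 2 - min u0 T.n - min v0 (T.n + 1 - min u0 T.n), by omega, by omega, by omega, by omega, ?_⟩
  intro i j k hi hj hk h
  exact hb i j k (by omega) (by omega) (by omega) (by omega)

theorem Full.unique {T : Tile R} {u v w u' v' w' : ℕ} (h : T.Full u v w) (h' : T.Full u' v' w') :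
    u = u' ∧ v = v' ∧ w = w' := by
  have hz := h.zero
  have hz' := h'.zero
  have hb := h.box
  have hb' := h'.box
  have hu := h.1
  have hv := h.2.1
  have hw := h.2.2.1
  have hu' := h'.1
  have hv' := h'.2.1
  have hw' := h'.2.2.1
  have m1 := hb (u - min u u') (v - min v v') (w - min w w') (by omega) (by omega) (by omega)
    (by omega)
  have m2 := hb' (u' - min u u') (v' - min v v') (w' - min w w') (by omega) (by omega) (by omega)
    (by omega)
  obtain ⟨e1, e2, e3⟩ := T.inj m1 m2 (by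
    rw [Nat.cast_sub (by omega), Nat.cast_sub (by omega), Nat.cast_sub (by omega),
      Nat.cast_sub (by omega), Nat.cast_sub (by omega), Nat.cast_sub (by omega)]
    linear_combination hz - hz')
  omega

/-- pairwise membership and not above the full minimal non-element -/
theorem Full.mem {T : Tile R} {u v w : ℕ} (h : T.Full u v w) {i j k : ℕ}
    (h1 : (i, j, 0) ∈ T.S) (h2 : (0, j, k) ∈ T.S) (h3 : (i, 0, k) ∈ T.S)
    (h4 : i + j + k ≤ T.n + 1) : (i, j, k) ∈ T.S := by
  by_contra hcon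
  obtain ⟨u', v', w', hf, h5, h6, h7⟩ := T.exists_full _ i j k rfl hcon h1 h2 h3
  obtain ⟨rfl, rfl, rfl⟩ := h.unique hf
  have := h.size
  omega

theorem tri_card (n : ℕ) : ((range n).sigma (fun s => range s) : Finset (Σ _ : ℕ, ℕ)).card =
    n * (n - 1) / 2 := by
  rw [Finset.card_sigma]
  simp only [Finset.card_range]
  exact Finset.sum_range_id n

/-- interior points beyond the triangle -/
theorem E_ge (T : Tile R) (B : Finset (ℕ × ℕ))
    (hB : ∀ p ∈ B, 1 ≤ p.1 ∧ 1 ≤ p.2 ∧ T.n + 1 ≤ p.1 + p.2 ∧ (p.1, p.2, 0) ∈ T.S) :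
    (B.card : ℤ) ≤ T.E := by
  classical
  let A : Finset (ℕ × ℕ) := ((range T.n).sigma (fun s => range s)).image
    (fun p : (Σ _ : ℕ, ℕ) => (p.2 + 1, p.1 - p.2))
  have hA : A.card = T.n * (T.n - 1) / 2 := by
    rw [← tri_card]
    apply Finset.card_image_of_injOn
    rintro ⟨s, i⟩ h1 ⟨s', i'⟩ h2 he
    simp only [Finset.coe_sigma, Finset.coe_range, Set.mem_sigma_iff, Set.mem_Iio] at h1 h2
    simp only [Prod.mk.injEq, Nat.add_right_cancel_iff] at he
    obtain ⟨rfl, h3⟩ := he
    have : s = s' := by omega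
    subst this
    rfl
  have hAm : ∀ p ∈ A, 1 ≤ p.1 ∧ 1 ≤ p.2 ∧ p.1 + p.2 ≤ T.n := by
    intro p hp
    simp only [A, Finset.mem_image, Finset.mem_sigma, Finset.mem_range, Sigma.exists] at hp
    obtain ⟨s, i, ⟨h1, h2⟩, rfl⟩ := hp
    simp only
    omega
  have hdisj : Disjoint A B := by
    rw [Finset.disjoint_left]
    intro p hp hq
    have h1 := hAm p hp
    have h2 := hB p hq
    omega
  have hle : (A ∪ B).card ≤ T.N true true false := by
    unfold N
    apply Finset.card_le_card_of_injOn (fun p => (p.1, p.2, 0))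
    · intro p hp
      rw [Finset.mem_coe, Finset.mem_union] at hp
      simp only [Finset.coe_filter, Set.mem_ofPred_eq, Prod.mk.injEq]
      rcases hp with hp | hp
      · have h1 := hAm p hp
        refine ⟨T.tri_mem _ _ h1.2.2, ?_, ?_, ?_⟩
        · simp; omega
        · simp; omega
        · simp
      · have h1 := hB p hp
        refine ⟨h1.2.2.2, ?_, ?_, ?_⟩
        · simp; omega
        · simp; omega
        · simp
    · rintro ⟨i, j⟩ _ ⟨i', j'⟩ _ he
      simpa using he
  rw [Finset.card_union_of_disjoint hdisj, hA] at hle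
  unfold E
  have : ((T.n * (T.n - 1) / 2 + B.card : ℕ) : ℤ) ≤ T.N true true false := by exact_mod_cast hle
  rw [Nat.cast_add] at this
  linarith

theorem E_ge_one (T : Tile R) {i j : ℕ} (hi : 1 ≤ i) (hj : 1 ≤ j) (h : T.n + 1 ≤ i + j)
    (hm : (i, j, 0) ∈ T.S) : 1 ≤ T.E := by
  have := T.E_ge {(i, j)} (by
    intro p hp
    rw [Finset.mem_singleton] at hp
    subst hp
    exact ⟨hi, hj, h, hm⟩)
  simpa using this

theorem E_ge_pred (T : Tile R) (M : ℕ) (P : ℕ → ℕ → Bool)
    (hP : ∀ i j, 1 ≤ i → 1 ≤ j → P i j = true → T.n + 1 ≤ i + j ∧ (i, j, 0) ∈ T.S) :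
    ((sm M (fun i => sm M (fun j => if P (i + 1) (j + 1) then 1 else 0)) : ℕ) : ℤ) ≤ T.E := by
  classical
  let B : Finset (ℕ × ℕ) := ((range M ×ˢ range M).filter
    (fun p => P (p.1 + 1) (p.2 + 1) = true)).image (fun p => (p.1 + 1, p.2 + 1))
  have h1 : B.card = sm M (fun i => sm M (fun j => if P (i + 1) (j + 1) then 1 else 0)) := by
    simp only [sm_eq, B]
    rw [Finset.card_image_of_injective _ (by
      rintro ⟨i, j⟩ ⟨i', j'⟩ h
      simpa using h)]
    simp only [Finset.card_filter, Finset.sum_product]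
  rw [← h1]
  apply T.E_ge
  intro p hp
  simp only [B, Finset.mem_image, Finset.mem_filter, Prod.exists] at hp
  obtain ⟨i, j, ⟨_, h2⟩, rfl⟩ := hp
  obtain ⟨h3, h4⟩ := hP (i + 1) (j + 1) (by omega) (by omega) h2
  exact ⟨by simp, by simp, h3, h4⟩

/-- a plane with exactly two corners has positive excess -/
theorem Full.sep {T : Tile R} {u v w : ℕ} (hf : T.Full u v w) (hn : T.n = 2) : 1 ≤ T.E := by
  by_contra hcon
  obtain ⟨c1, c2⟩ := T.E_zero_cor hn (by omega)
  have hb := hf.box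
  have hz := hf.zero
  have hu := hf.1
  have hv := hf.2.1
  have hw := hf.2.2.1
  have hu1 : u = 1 := by
    by_contra hne
    exact c2.2.2.1 (hb 2 1 0 (by omega) hv (by omega) (by omega))
  have hv1 : v = 1 := by
    by_contra hne
    exact c1.2.2.1 (hb 1 2 0 hu (by omega) (by omega) (by omega))
  subst hu1 hv1
  obtain ⟨g1, hg1, e1⟩ := T.label c1
  obtain ⟨g2, hg2, e2⟩ := T.label c2
  have hne := T.pair_ne c1 c2 e1 e2 (by omega) (by omega)
  have t1 := hf.type c1 e1 le_rfl (by omega)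
  have t2 := hf.type c2 e2 (by omega) le_rfl
  have hx : (1, 0, 0) ∈ T.S := hb 1 0 0 (by omega) (by omega) (by omega) (by omega)
  have hy : (0, 1, 0) ∈ T.S := hb 0 1 0 (by omega) (by omega) (by omega) (by omega)
  push_cast at e1 e2 hz
  rcases lt_or_gt_of_ne hne with h | h
  · have m := hb 0 1 (g2 - g1) (by omega) (by omega) (by omega) (by omega)
    obtain ⟨h1, -⟩ := T.inj hx m (by
      rw [Nat.cast_sub h.le]
      push_cast
      linear_combination e2 - e1)
    omega
  · have m := hb 1 0 (g1 - g2) (by omega) (by omega) (by omega) (by omega)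
    obtain ⟨h1, -⟩ := T.inj hy m (by
      rw [Nat.cast_sub h.le]
      push_cast
      linear_combination e1 - e2)
    omega

theorem I3_box {T : Tile R} {u v w : ℕ} (hb : T.Box u v w) : u * v * w ≤ T.N true true true + 1 := by
  classical
  let B : Finset (ℕ × ℕ × ℕ) := ((Icc 1 u) ×ˢ ((Icc 1 v) ×ˢ (Icc 1 w))).erase (u, v, w)
  have h1 : u * v * w ≤ B.card + 1 := by
    have := Finset.pred_card_le_card_erase (s := (Icc 1 u) ×ˢ ((Icc 1 v) ×ˢ (Icc 1 w)))
      (a := (u, v, w))
    rw [Finset.card_product, Finset.card_product, Nat.card_Icc, Nat.card_Icc, Nat.card_Icc] at this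
    simp only [Nat.add_sub_cancel] at this
    have h2 : u * v * w = u * (v * w) := by ring
    simp only [B]
    omega
  have h2 : B.card ≤ T.N true true true := by
    unfold N
    apply Finset.card_le_card
    rintro ⟨i, j, k⟩ hp
    simp only [B, Finset.mem_erase, Finset.mem_product, Finset.mem_Icc, ne_eq, Prod.mk.injEq] at hp
    rw [Finset.mem_filter]
    refine ⟨hb i j k (by omega) (by omega) (by omega) (by omega), ?_⟩
    simp only [Prod.mk.injEq, decide_eq_true_eq]
    omega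
  omega

theorem exc_two {n : ℕ} (hn : n = 2) (a b : Fin n → ℕ) :
    exc a b = (((a ⟨0, by omega⟩ : ℕ) : ℤ) + (b ⟨0, by omega⟩ : ℕ)) +
      (((a ⟨1, by omega⟩ : ℕ) : ℤ) + (b ⟨1, by omega⟩ : ℕ)) - 6 := by
  subst hn
  unfold exc
  rw [Fin.sum_univ_two]
  norm_num

/-- the three planes with two corners each -/
theorem Full.two {T : Tile R} {u v w : ℕ} (hf : T.Full u v w) (hn : T.n = 2) (hn2 : T.rot.n = 2)
    (hn3 : T.rot.rot.n = 2) (hu : 2 ≤ u) (hV : T.V ≤ 3) : 5 ≤ T.rot.rot.V := by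
  have hb := hf.box
  have hv := hf.2.1
  have hw := hf.2.2.1
  have hE := hf.sep hn
  have htop := T.top_ge_rot
  unfold V at hV
  have hE1 : T.E = 1 := by omega
  have htop2 : T.top = 2 := by omega
  obtain ⟨a, b, ha, hb', hc, -⟩ := T.exists_enum
  have hexc := T.exc_le_E ha hb' hc
  have hA := fin_le ha (fun i => (hc i).1)
  have hB := fin_le' hb' (fun i => (hc i).2.1)
  have hE' := fun x y => exc_ge ha hb' (fun i => (hc i).1) (fun i => (hc i).2.1) x y
  have e1 := hE' ⟨0, by omega⟩ ⟨0, by omega⟩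
  have e2 := hE' ⟨1, by omega⟩ ⟨1, by omega⟩
  have e3 := hE' ⟨1, by omega⟩ ⟨0, by omega⟩
  have e4 := hE' ⟨0, by omega⟩ ⟨1, by omega⟩
  have a0 := hA ⟨0, by omega⟩
  have a1 := hA ⟨1, by omega⟩
  have b0 := hB ⟨0, by omega⟩
  have b1 := hB ⟨1, by omega⟩
  have hbb : b ⟨1, by omega⟩ < b ⟨0, by omega⟩ := hb' (by simp [Fin.lt_def])
  have haa : a ⟨0, by omega⟩ < a ⟨1, by omega⟩ := ha (by simp [Fin.lt_def])
  have c0 := hc ⟨0, by omega⟩
  have c1 := hc ⟨1, by omega⟩
  have hsum := exc_two hn a b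
  have m21 : (2, 1, 0) ∈ T.S := hb 2 1 0 hu hv (by omega) (by omega)
  generalize a ⟨0, by omega⟩ = A0 at *
  generalize a ⟨1, by omega⟩ = A1 at *
  generalize b ⟨0, by omega⟩ = B0 at *
  generalize b ⟨1, by omega⟩ = B1 at *
  have h21 : ¬ (A1 ≤ 2 ∧ B1 ≤ 1) := fun h => c1.2.2.1 (T.down m21 h.1 h.2 le_rfl)
  simp only at e1 e2 e3 e4 a0 a1 b0 b1
  have hA1 : A1 = 3 := by omega
  have hB1 : B1 = 1 := by omega
  have hA0 : A0 = 1 := by omega
  have hB0 : B0 = 2 := by omega
  subst hA1 hB1 hA0 hB0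
  have hu2 : u = 2 := by
    by_contra hne
    exact c1.2.2.1 (hb 3 1 0 (by omega) hv (by omega) (by omega))
  have hv1 : v = 1 := by
    by_contra hne
    exact c0.2.2.1 (hb 1 2 0 (by omega) (by omega) (by omega) (by omega))
  subst hu2 hv1
  obtain ⟨g1, hg1, f1⟩ := T.label c0
  obtain ⟨g2, hg2, f2⟩ := T.label c1
  have hne := T.pair_ne c0 c1 f1 f2 (by omega) (by omega)
  have p1 := hf.label_pos c0 f1
  have p2 := hf.label_pos c1 f2
  have hL := T.pairL c1 f1 f2 (by omega) (by omega)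
  have t2 := hf.type c1 f2 (by omega) le_rfl
  have hw2 : 2 ≤ w := by
    rcases lt_or_gt_of_ne hne with h | h
    · have := hL h
      omega
    · omega
  have hE3 := T.rot.rot.E_ge {(1, 2), (2, 1), (2, 2)} (by
    intro p hp
    simp only [Finset.mem_insert, Finset.mem_singleton] at hp
    rcases hp with rfl | rfl | rfl
    · refine ⟨by simp, by simp, by simp [hn3], ?_⟩
      rw [mem_rot, mem_rot]
      exact hb 2 0 1 (by omega) (by omega) (by omega) (by omega)
    · refine ⟨by simp, by simp, by simp [hn3], ?_⟩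
      rw [mem_rot, mem_rot]
      exact hb 1 0 2 (by omega) (by omega) (by omega) (by omega)
    · refine ⟨by simp, by simp, by simp [hn3], ?_⟩
      rw [mem_rot, mem_rot]
      exact hb 2 0 2 (by omega) (by omega) (by omega) (by omega))
  have h5 := T.rot_rot_top_ge
  have h6 : (({(1, 2), (2, 1), (2, 2)} : Finset (ℕ × ℕ)).card : ℤ) = 3 := by decide
  rw [h6] at hE3
  unfold V
  omega

end Tile

end MPc709deB
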