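import Pool.Agent.Work.MP_c709de_al_h19.T1main

/-! Tiles with a full minimal non-element: the four cases. -/

namespace MPc709deB

open Finset

variable {R : Type*} [CommRing R]

namespace Tile

/-- the inequality to be proved, in integers -/
def Ineq (T : Tile R) : Prop := ((T.n : ℤ) + T.rot.n + T.rot.rot.n + 2) ^ 2 ≤
  4 * (1 + T.V + T.rot.V + T.rot.rot.V + T.N true true true) +
    2 * ((T.n : ℤ) * (T.n - 1) + T.rot.n * (T.rot.n - 1) + T.rot.rot.n * (T.rot.rot.n - 1))

theorem Ineq.final {T : Tile R} (h : T.Ineq) :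
    (T.n + T.rot.n + T.rot.rot.n + 2) ^ 2 ≤ 4 * T.S.card := by
  have hcard := T.card_ge
  have t1 := tri_two T.n
  have t2 := tri_two T.rot.n
  have t3 := tri_two T.rot.rot.n
  unfold Ineq at h
  have : ((T.n : ℤ) + T.rot.n + T.rot.rot.n + 2) ^ 2 ≤ 4 * T.S.card := by linarith
  exact_mod_cast this

theorem Full.I3_tri {T : Tile R} {u v w : ℕ} (hf : T.Full u v w) (F : T.Facts) :
    (T.rot.rot.n : ℤ) * (T.rot.rot.n - 1) * (3 * T.rot.n + 1 - 2 * T.rot.rot.n) ≤
      6 * T.N true true true := by
  have hrq := F.hrq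
  have hqp := F.hqp
  have hJ := Tile.I3_tri T T.rot.rot.n T.rot.n (by
    intro i k j hi hk hj h1 h2
    apply hf.mem
    · exact T.tri_mem _ _ (by omega)
    · exact T.mem_yz (by omega)
    · exact T.mem_xz (by omega)
    · omega)
  have hJc := sum_closed T.rot.rot.n T.rot.n (by omega)
  rw [← hJc]
  have : ((∑ s ∈ range T.rot.rot.n, s * (T.rot.n - s) : ℕ) : ℤ) ≤ T.N true true true := by
    exact_mod_cast hJ
  linarith

theorem case_ge3 {T : Tile R} {u v w : ℕ} (hf : T.Full u v w) (F : T.Facts)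
    (hr : 3 ≤ T.rot.rot.n) : T.Ineq := by
  have hrq := F.hrq
  have hqp := F.hqp
  have n1 := T.E_nonneg
  have n2 := T.rot.E_nonneg
  have n3 := T.rot.rot.E_nonneg
  have f1 := F.V1
  have f2 := F.V2
  have f3 := F.V3
  unfold Ineq
  apply num3 _ _ _ _ _ _ _ (by exact_mod_cast hqp) (by exact_mod_cast hrq) (by exact_mod_cast hr)
    (hf.I3_tri F) (by linarith) (by linarith) (by linarith) (F.k1 (by omega)) (F.k2 (by omega))
    (F.k3 (by omega)) (F.g1 (by omega) (by omega)) (F.g2 (by omega) (by omega))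
  intro t ht h1 h2 h3
  obtain ⟨u', v', w', hu, hv, hw, hs, hb⟩ := hf.exists_box (by omega)
  have hLB := LB_le hf F (by omega) (by omega) hb hu hv hw 0 0 0 (Or.inr rfl)
    (by push_cast; exact n2)
  have hck := ck3_all t ht
  have e1 : t.1 = T.n := by exact_mod_cast h1.symm
  have e2 : t.2.1 = T.rot.n := by exact_mod_cast h2.symm
  have e3 : t.2.2 = T.rot.rot.n := by exact_mod_cast h3.symm
  rw [e1, e2, e3] at hck
  have h := hck u' (by omega) v' (by omega) hu hv (by omega)
  have hw' : T.n + 2 - u' - v' = w' := by omega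
  rw [hw'] at h
  have h' : (((T.n + T.rot.n + T.rot.rot.n + 2) ^ 2 : ℕ) : ℤ) ≤
      ((LB T.n T.rot.n T.rot.rot.n u' v' w' 0 0 0 : ℕ) : ℤ) := by exact_mod_cast h
  push_cast at h' hLB ⊢
  linarith

theorem case_0 {T : Tile R} (F : T.Facts) (hr : T.rot.rot.n = 0) : T.Ineq := by
  have hqp := F.hqp
  have n1 := T.E_nonneg
  have n2 := T.rot.E_nonneg
  have n3 := T.rot.rot.E_nonneg
  have f1 := F.V1
  have f2 := F.V2
  have f3 := F.V3
  unfold Ineq
  rw [hr]
  obtain ⟨d, hd⟩ : ∃ d : ℤ, (T.n : ℤ) = T.rot.n + d := ⟨T.n - T.rot.n, by ring⟩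
  have hd0 : 0 ≤ d := by
    have : (T.rot.n : ℤ) ≤ T.n := by exact_mod_cast hqp
    linarith
  have hJ : (0 : ℤ) ≤ T.N true true true := by positivity
  have hq0 : (0 : ℤ) ≤ T.rot.n := by positivity
  push_cast
  rw [hd] at f1 f2 f3 ⊢
  nlinarith

theorem case_1 {T : Tile R} {u0 v0 w0 : ℕ} (hf : T.Full u0 v0 w0) (F : T.Facts)
    (hr : T.rot.rot.n = 1) : T.Ineq := by
  have hqp := F.hqp
  have hrq := F.hrq
  have n1 := T.E_nonneg
  have n2 := T.rot.E_nonneg
  have n3 := T.rot.rot.E_nonneg
  have f1 := F.V1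
  have f2 := F.V2
  have f3 := F.V3
  obtain ⟨u, v, w, hu, hv, hw, hs, hb⟩ := hf.exists_box (by omega)
  have hJ := I3_box hb
  have hE3 := T.rot.rot.E_ge ((Icc 1 w) ×ˢ (Icc 1 u)) (by
    rintro ⟨i, j⟩ hp
    rw [Finset.mem_product, Finset.mem_Icc, Finset.mem_Icc] at hp
    refine ⟨hp.1.1, hp.2.1, ?_, ?_⟩
    · rw [hr]
      simp only at hp ⊢
      omega
    · rw [mem_rot, mem_rot]
      exact hb j 0 i hp.2.2 (by omega) hp.1.2 (by omega))
  rw [Finset.card_product, Nat.card_Icc, Nat.card_Icc, Nat.add_sub_cancel, Nat.add_sub_cancel]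
    at hE3
  have hE1 : T.n + 1 ≤ u + v → 1 ≤ T.E := fun h =>
    T.E_ge_one hu hv h (hb u v 0 le_rfl le_rfl (by omega) (by omega))
  have hE2 : T.rot.n + 1 ≤ v + w → 1 ≤ T.rot.E := fun h =>
    T.rot.E_ge_one hv hw h (by rw [mem_rot]; exact hb 0 v w (by omega) le_rfl le_rfl (by omega))
  unfold Ineq
  rw [hr]
  generalize T.n = p at *
  generalize T.rot.n = q at *
  generalize T.N true true true = J at *
  generalize T.E = X1 at *
  generalize T.rot.E = X2 at *
  generalize T.rot.rot.E = X3 at *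
  generalize T.V = V1 at *
  generalize T.rot.V = V2 at *
  generalize T.rot.rot.V = V3 at *
  have hsz : ((u : ℤ) + v + w) = p + 2 := by exact_mod_cast hs
  have hJz : ((u : ℤ) * v * w) ≤ J + 1 := by exact_mod_cast hJ
  have huz : (1 : ℤ) ≤ u := by exact_mod_cast hu
  have hvz : (1 : ℤ) ≤ v := by exact_mod_cast hv
  have hwz : (1 : ℤ) ≤ w := by exact_mod_cast hw
  push_cast at hE3
  have a1 : (u : ℤ) + w - 1 ≤ u * w := by nlinarith
  -- T ≥ u w (v + 1) - 1 + X1 + X2
  have hT : (u : ℤ) * w * (v + 1) - 1 + X1 + X2 ≤ (V1 - p) + (V2 - p) + (V3 - p) + J := by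
    nlinarith
  have a2 : ((u : ℤ) + w - 1) * (v + 1) ≤ u * w * (v + 1) := by
    apply mul_le_mul_of_nonneg_right a1; linarith
  rcases lt_or_ge q p with hlt | hge
  · -- d ≥ 1
    have a3 : (p : ℤ) + 1 ≤ u * w * (v + 1) := by nlinarith
    have hlt' : (q : ℤ) + 1 ≤ p := by exact_mod_cast hlt
    push_cast
    nlinarith [sq_nonneg ((p : ℤ) - q - 1)]
  · have hpq : p = q := le_antisymm hge hqp
    subst hpq
    have hfin : (p : ℤ) + 2 ≤ (V1 - p) + (V2 - p) + (V3 - p) + J := by
      by_cases huw : u + w = 2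
      · have hu1 : u = 1 := by omega
        have hw1 : w = 1 := by omega
        subst hu1 hw1
        have := hE1 (by omega)
        have := hE2 (by omega)
        push_cast at *
        linarith
      · have a4 : (2 : ℤ) ≤ u + w - 1 := by
          have : 3 ≤ u + w := by omega
          have : (3 : ℤ) ≤ u + w := by exact_mod_cast this
          linarith
        have a5 : 2 * ((p : ℤ) + 2) - 4 ≤ ((u : ℤ) + w - 1) * (v + 1) := by nlinarith
        rcases lt_or_ge p 3 with hp3 | hp3
        · have hp2 : p = 2 := by omega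
          subst hp2
          have hv1 : v = 1 := by omega
          subst hv1
          have : u = 2 ∨ u = 1 := by omega
          rcases this with rfl | rfl
          · have := hE1 (by omega)
            push_cast at *
            linarith
          · have hw2 : w = 2 := by omega
            subst hw2
            have := hE2 (by omega)
            push_cast at *
            linarith
        · have : (3 : ℤ) ≤ p := by exact_mod_cast hp3
          linarith
    push_cast
    nlinarith

theorem swp_V (T : Tile R) : T.swp.V = T.V := by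
  have h1 : T.swp.top = T.top := by
    apply le_antisymm
    · rw [← mem_axis]
      have := (T.swp.mem_axis T.swp.top).2 le_rfl
      rwa [mem_swp] at this
    · rw [← mem_axis, mem_swp, mem_axis]
  unfold V E
  rw [h1, swp_n, N_swp]

theorem exists_e (T : Tile R) (hn : T.n = 2) (hE : 1 ≤ T.E) : (2, 1, 0) ∈ T.S ∨ (1, 2, 0) ∈ T.S := by
  by_contra hcon
  push Not at hcon
  have h : T.N true true false ≤ 1 := by
    have : T.N true true false ≤ ({(1, 1, 0)} : Finset (ℕ × ℕ × ℕ)).card := by
      unfold N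
      apply Finset.card_le_card
      rintro ⟨i, j, k⟩ hp
      simp only [Finset.mem_filter, Prod.mk.injEq, decide_eq_true_eq, decide_eq_false_iff_not,
        not_not] at hp
      obtain ⟨h1, h2, h3, h4⟩ := hp
      subst h4
      have hi : i = 1 := by
        by_contra hne
        exact hcon.1 (T.down h1 (by omega) (by omega) le_rfl)
      have hj : j = 1 := by
        by_contra hne
        exact hcon.2 (T.down h1 (by omega) (by omega) le_rfl)
      rw [Finset.mem_singleton, hi, hj]
    simpa using this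
  unfold E at hE
  rw [hn] at hE
  norm_num at hE
  omega

theorem I3_cols (T : Tile R) (h11 h21 h12 : ℕ) (c11 : ∀ j, 1 ≤ j → j ≤ h11 → (1, j, 1) ∈ T.S)
    (c21 : ∀ j, 1 ≤ j → j ≤ h21 → (2, j, 1) ∈ T.S) (c12 : ∀ j, 1 ≤ j → j ≤ h12 → (1, j, 2) ∈ T.S) :
    h11 + h21 + h12 ≤ T.N true true true := by
  have h := T.I3_ge (fun i k => if i = 1 ∧ k = 1 then h11 else if i = 2 ∧ k = 1 then h21 else
    if i = 1 ∧ k = 2 then h12 else 0) 2 (by
      intro i k j hi hk hj h
      split_ifs at h with h1 h2 h3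
      · obtain ⟨rfl, rfl⟩ := h1
        exact c11 j hj h
      · obtain ⟨rfl, rfl⟩ := h2
        exact c21 j hj h
      · obtain ⟨rfl, rfl⟩ := h3
        exact c12 j hj h
      · omega)
  simp only [sm_eq, Finset.sum_range_succ, Finset.sum_range_zero] at h
  norm_num at h
  omega

/-- the case of three planes with two corners each -/
theorem Full.sum_two {T : Tile R} {u v w : ℕ} (hf : T.Full u v w) (hn : T.n = 2)
    (hn2 : T.rot.n = 2) (hn3 : T.rot.rot.n = 2) :
    12 ≤ T.V + T.rot.V + T.rot.rot.V + T.N true true true := by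
  have hJ : 1 ≤ T.N true true true := by
    have := T.I3_cols 1 0 0 (by
      intro j h1 h2
      have : j = 1 := by omega
      subst this
      exact hf.mem (T.tri_mem _ _ (by omega)) (T.mem_yz (by omega)) (T.mem_xz (by omega))
        (by omega)) (by intro j h1 h2; omega) (by intro j h1 h2; omega)
    omega
  have hn4 : T.rot.rot.rot.n = 2 := by rw [rot_rot_rot]; exact hn
  have hn5 : T.rot.rot.rot.rot.n = 2 := by rw [rot_rot_rot]; exact hn2
  have s1 := hf.sep hn
  have s2 := hf.rot.sep hn2
  have s3 := hf.rot.rot.sep hn3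
  have t1 := T.top_ge_rot
  have t2 := T.rot.top_ge_rot
  have t3 := T.rot.rot.top_ge_rot
  have V1 : 3 ≤ T.V := by unfold V; omega
  have V2 : 3 ≤ T.rot.V := by unfold V; omega
  have V3 : 3 ≤ T.rot.rot.V := by unfold V; rw [rot_rot_rot] at t3; omega
  -- the statement when the first coordinate is at least two
  have key : ∀ (T' : Tile R) (u v w : ℕ), T'.Full u v w → T'.n = 2 → T'.rot.n = 2 →
      T'.rot.rot.n = 2 → 2 ≤ u → 3 ≤ T'.V → 3 ≤ T'.rot.V → 3 ≤ T'.rot.rot.V →
      11 ≤ T'.V + T'.rot.V + T'.rot.rot.V := by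
    intro T' u v w hf' h1 h2 h3 hu W1 W2 W3
    by_contra hcon
    rcases le_or_gt T'.V 3 with h | h
    · have := hf'.two h1 h2 h3 hu h
      omega
    · have h4 : T'.rot.rot.V ≤ 3 := by omega
      -- the mirror image
      have hf2 : T'.rot.rot.swp.Full u w v := hf'.rot.rot.swp
      have hV : T'.rot.rot.swp.V = T'.rot.rot.V := swp_V _
      have hrr : T'.rot.rot.swp.rot.rot = T'.swp := by
        rw [swp_rot_rot, rot_rot_rot]
      have hrot : T'.rot.rot.swp.rot = T'.rot.swp := by
        rw [swp_rot, rot_rot_rot]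
      have := hf2.two (by rw [swp_n]; exact h3) (by rw [hrot, swp_n]; exact h2)
        (by rw [hrr, swp_n]; exact h1) hu (by rw [hV]; exact h4)
      rw [hrr, swp_V] at this
      omega
  have hsz := hf.size
  have : 2 ≤ u ∨ 2 ≤ v ∨ 2 ≤ w := by omega
  have hfin : 11 ≤ T.V + T.rot.V + T.rot.rot.V := by
    rcases this with h | h | h
    · exact key T u v w hf hn hn2 hn3 h V1 V2 V3
    · have := key T.rot v w u hf.rot hn2 hn3 hn4 h V2 V3 (by rw [rot_rot_rot]; exact V1)
      rw [rot_rot_rot] at this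
      linarith
    · have := key T.rot.rot w u v hf.rot.rot hn3 hn4 hn5 h V3 (by rw [rot_rot_rot]; exact V1)
        (by rw [rot_rot_rot]; exact V2)
      rw [rot_rot_rot] at this
      linarith
  omega

theorem num2 (p q V1 V2 V3 J : ℤ) (hqp : q ≤ p) (hq : 2 ≤ q) (h1 : p ≤ V1) (h2 : p ≤ V2)
    (h3 : p + 1 ≤ V3) (hJ : 2 * q - 3 ≤ J)
    (g1 : 3 ≤ p → min (2 * p - 2) (q + 1) + 1 ≤ V1) (g2 : 3 ≤ q → min (2 * q - 2) (p + 1) + 1 ≤ V2)
    (hd1 : p = q + 1 → 4 ≤ q → 2 * q - 1 ≤ V3 - p + J)
    (hexc : ∀ t ∈ exc2, p = (t.1 : ℤ) → q = (t.2.1 : ℤ) →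
      (p + q + 2 + 2) ^ 2 ≤ 4 * (1 + V1 + V2 + V3 + J) +
      2 * (p * (p - 1) + q * (q - 1) + 2 * (2 - 1)))
    (h22 : p = 2 → q = 2 → (p + q + 2 + 2) ^ 2 ≤ 4 * (1 + V1 + V2 + V3 + J) +
      2 * (p * (p - 1) + q * (q - 1) + 2 * (2 - 1))) :
    (p + q + 2 + 2) ^ 2 ≤ 4 * (1 + V1 + V2 + V3 + J) +
      2 * (p * (p - 1) + q * (q - 1) + 2 * (2 - 1)) := by
  obtain ⟨d, hd⟩ : ∃ d, p = q + d := ⟨p - q, by ring⟩
  have hd0 : 0 ≤ d := by linarith
  have key : 0 ≤ 4 * (V1 + V2 + V3 - 3 * p + J) + d ^ 2 + 2 * d - 8 - 8 * q →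
      (p + q + 2 + 2) ^ 2 ≤ 4 * (1 + V1 + V2 + V3 + J) +
      2 * (p * (p - 1) + q * (q - 1) + 2 * (2 - 1)) := by
    intro h
    subst hd
    nlinarith [h]
  rcases lt_or_ge d 4 with hd4 | hd4
  · interval_cases d
    · rcases lt_or_ge q 3 with hq3 | hq3
      · have : q = 2 := by linarith
        exact h22 (by linarith) this
      · have e1 := g1 (by linarith)
        have e2 := g2 hq3
        rw [min_eq_right (by linarith)] at e1 e2
        apply key; linarith
    · rcases lt_or_ge q 4 with hq4 | hq4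
      · interval_cases q
        · exact hexc (3, 2, 1) (by decide) hd rfl
        · exact hexc (4, 3, 0) (by decide) hd rfl
      · have e1 := g1 (by linarith)
        have e2 := g2 (by linarith)
        rw [min_eq_right (by linarith)] at e1 e2
        have e3 := hd1 (by linarith) hq4
        apply key; linarith
    · rcases lt_or_ge q 5 with hq5 | hq5
      · interval_cases q
        · exact hexc (4, 2, 1) (by decide) hd rfl
        · exact hexc (5, 3, 0) (by decide) hd rfl
        · exact hexc (6, 4, 0) (by decide) hd rfl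
      · have e2 := g2 (by linarith)
        rw [min_eq_right (by linarith)] at e2
        apply key; linarith
    · rcases lt_or_ge q 5 with hq5 | hq5
      · interval_cases q
        · exact hexc (5, 2, 1) (by decide) hd rfl
        · exact hexc (6, 3, 0) (by decide) hd rfl
        · exact hexc (7, 4, 0) (by decide) hd rfl
      · have e2 := g2 (by linarith)
        have e3 : p ≤ min (2 * q - 2) (p + 1) := le_min (by linarith) (by linarith)
        apply key; linarith
  · apply key
    nlinarith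

theorem case_2 {T : Tile R} {u0 v0 w0 : ℕ} (hf : T.Full u0 v0 w0) (F : T.Facts)
    (hr : T.rot.rot.n = 2) : T.Ineq := by
  have hqp := F.hqp
  have hrq := F.hrq
  have n1 := T.E_nonneg
  have n2 := T.rot.E_nonneg
  have f1 := F.V1
  have f2 := F.V2
  have f3 := F.V3
  have hE3 := hf.rot.rot.sep hr
  have he := T.rot.rot.exists_e hr hE3
  rw [mem_rot, mem_rot, mem_rot, mem_rot] at he
  have c11 : ∀ j, 1 ≤ j → j ≤ T.rot.n - 1 → (1, j, 1) ∈ T.S := by
    intro j hj hj'
    apply hf.mem (T.tri_mem _ _ (by omega)) (T.mem_yz (by omega)) (T.mem_xz (by omega))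
    omega
  have c21 : (2, 0, 1) ∈ T.S → ∀ j, 1 ≤ j → j ≤ T.rot.n - 1 → j ≤ T.n - 2 → (2, j, 1) ∈ T.S := by
    intro h j hj hj' hj''
    apply hf.mem (T.tri_mem _ _ (by omega)) (T.mem_yz (by omega)) h
    omega
  have c12 : (1, 0, 2) ∈ T.S → ∀ j, 1 ≤ j → j ≤ T.rot.n - 2 → (1, j, 2) ∈ T.S := by
    intro h j hj hj'
    apply hf.mem (T.tri_mem _ _ (by omega)) (T.mem_yz (by omega)) h
    omega
  have hJ : 2 * T.rot.n - 3 ≤ T.N true true true := by
    rcases he with he | he
    · have := T.I3_cols (T.rot.n - 1) 0 (T.rot.n - 2) c11 (by intro j h1 h2; omega) (c12 he)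
      omega
    · have := T.I3_cols (T.rot.n - 1) (T.rot.n - 2) 0 c11
        (by intro j h1 h2; exact c21 he j h1 (by omega) (by omega)) (by intro j h1 h2; omega)
      omega
  unfold Ineq
  rw [hr]
  push_cast
  apply num2 _ _ _ _ _ _ (by exact_mod_cast hqp) (by omega) (by linarith) (by linarith)
    (by linarith) (by omega)
  · intro h
    exact F.g1 (by omega) (by omega)
  · intro h
    exact F.g2 (by omega) (by omega)
  · -- d = 1
    intro h1 h2
    have hp : T.n = T.rot.n + 1 := by omega
    by_cases h21 : (2, 0, 1) ∈ T.S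
    · have := T.I3_cols (T.rot.n - 1) (T.rot.n - 1) 0 c11
        (by intro j h1 h2; exact c21 h21 j h1 (by omega) (by omega)) (by intro j h1 h2; omega)
      omega
    · have h12 : (1, 0, 2) ∈ T.S := by
        rcases he with he | he
        · exact he
        · exact absurd he h21
      obtain ⟨u, v, w, hu, hv, hw, hs, hb⟩ := hf.exists_box (by omega)
      have hu1 : u = 1 := by
        by_contra hne
        exact h21 (hb 2 0 1 (by omega) (by omega) (by omega) (by omega))
      subst hu1
      rcases lt_or_ge w 3 with hw3 | hw3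
      · have : w = 1 ∨ w = 2 := by omega
        rcases this with rfl | rfl
        · have := T.I3_cols T.rot.n 0 (T.rot.n - 2) (by
            intro j h1 h2
            exact hb 1 j 1 le_rfl (by omega) le_rfl (by omega)) (by intro j h1 h2; omega) (c12 h12)
          omega
        · have := T.I3_cols T.rot.n 0 (T.rot.n - 2) (by
            intro j h1 h2
            exact hb 1 j 1 le_rfl (by omega) (by omega) (by omega)) (by intro j h1 h2; omega)
            (c12 h12)
          omega
      · have hE2 := T.rot.rot.E_ge {(2, 1), (3, 1)} (by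
          intro p hp
          simp only [Finset.mem_insert, Finset.mem_singleton] at hp
          rcases hp with rfl | rfl
          · refine ⟨by simp, by simp, by simp [hr], ?_⟩
            rw [mem_rot, mem_rot]
            exact h12
          · refine ⟨by simp, by simp, by simp [hr], ?_⟩
            rw [mem_rot, mem_rot]
            exact hb 1 0 3 le_rfl (by omega) (by omega) (by omega))
        have h6 : (({(2, 1), (3, 1)} : Finset (ℕ × ℕ)).card : ℤ) = 2 := by decide
        rw [h6] at hE2
        omega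
  · -- exceptions
    intro t ht h1 h2
    have e1 : t.1 = T.n := by exact_mod_cast h1.symm
    have e2 : t.2.1 = T.rot.n := by exact_mod_cast h2.symm
    have hs2 : (t.2.2 : ℤ) ≤ T.rot.E := by
      simp only [exc2, List.mem_cons, List.not_mem_nil, or_false] at ht
      rcases ht with rfl | rfl | rfl | rfl | rfl | rfl | rfl | rfl
      · exact hf.rot.sep e2.symm
      · exact hf.rot.sep e2.symm
      · exact hf.rot.sep e2.symm
      all_goals exact n2
    have hp3 : 3 ≤ T.n := by
      rw [← e1]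
      simp only [exc2, List.mem_cons, List.not_mem_nil, or_false] at ht
      rcases ht with rfl | rfl | rfl | rfl | rfl | rfl | rfl | rfl <;> simp
    obtain ⟨u', v', w', hu, hv, hw, hs, hb⟩ := hf.exists_box (by omega)
    have hw' : T.n + 2 - u' - v' = w' := by omega
    rcases he with he | he
    · have hLB := LB_le hf F hp3 (by omega) hb hu hv hw 1 2 t.2.2 (Or.inl he) hs2
      have hck := ck2_all12 t ht
      rw [e1, e2] at hck
      have h := hck u' (by omega) v' (by omega) hu hv (by omega)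
      rw [hw'] at h
      rw [hr] at hLB
      have h' : (((T.n + T.rot.n + 2 + 2) ^ 2 : ℕ) : ℤ) ≤
          ((LB T.n T.rot.n 2 u' v' w' 1 2 t.2.2 : ℕ) : ℤ) := by exact_mod_cast h
      push_cast at h' hLB ⊢
      linarith
    · have hLB := LB_le hf F hp3 (by omega) hb hu hv hw 2 1 t.2.2 (Or.inl he) hs2
      have hck := ck2_all21 t ht
      rw [e1, e2] at hck
      have h := hck u' (by omega) v' (by omega) hu hv (by omega)
      rw [hw'] at h
      rw [hr] at hLB
      have h' : (((T.n + T.rot.n + 2 + 2) ^ 2 : ℕ) : ℤ) ≤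
          ((LB T.n T.rot.n 2 u' v' w' 2 1 t.2.2 : ℕ) : ℤ) := by exact_mod_cast h
      push_cast at h' hLB ⊢
      linarith
  · -- (2,2,2)
    intro h1 h2
    have e1 : T.n = 2 := by exact_mod_cast h1
    have e2 : T.rot.n = 2 := by exact_mod_cast h2
    have hsum := hf.sum_two e1 e2 hr
    rw [h1, h2]
    linarith

end Tile

end MPc709deB
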