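import Pool.Agent.Work.MP_c709de_al_h19.T1
import Pool.Agent.Work.MP_c709de_al_h19.Num3

/-! Tiles with a full minimal non-element: the inequality. -/

namespace MPc709deB

open Finset

variable {R : Type*} [CommRing R]

namespace Tile

theorem kap_le {n W : ℕ} {X : ℤ} (hn : 1 ≤ n) (h0 : 0 ≤ X)
    (h : ((n : ℤ) - 1) * W - (n : ℤ) ^ 2 / 2 + 2 ≤ X) : ((kap n W : ℕ) : ℤ) ≤ X := by
  unfold kap
  have e : (((n - 1) * W : ℕ) : ℤ) = ((n : ℤ) - 1) * W := by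
    rw [Nat.cast_mul, Nat.cast_sub hn]; simp
  have e2 : ((n ^ 2 / 2 : ℕ) : ℤ) = (n : ℤ) ^ 2 / 2 := by push_cast; rfl
  rcases le_total (n ^ 2 / 2) ((n - 1) * W + 2) with h1 | h1
  · rw [Nat.cast_sub h1, Nat.cast_add, e, e2]
    push_cast
    linarith
  · rw [Nat.sub_eq_zero_of_le h1]
    simpa using h0

theorem gg_le {n Q : ℕ} {X : ℤ} (hn : 1 ≤ n)
    (h : min (2 * (n : ℤ) - 2) Q + 1 ≤ X) : ((gg n Q : ℕ) : ℤ) ≤ X := by
  unfold gg
  have e : ((2 * n - 2 : ℕ) : ℤ) = 2 * (n : ℤ) - 2 := by omega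
  rw [Nat.cast_add, Nat.cast_min, e]
  simpa using h

theorem Pe_spec {n u v e1 e2 i j : ℕ} (h : Pe n u v e1 e2 i j = true) :
    n + 1 ≤ i + j ∧ ((i ≤ u ∧ j ≤ v) ∨ (i = e1 ∧ j = e2)) := by
  unfold Pe at h
  simp only [Bool.and_eq_true, Bool.or_eq_true, Nat.ble_eq, Nat.beq_eq] at h
  exact h

theorem Box.E1 {T : Tile R} {u v w : ℕ} (hb : T.Box u v w) (hw : 1 ≤ w) (M : ℕ) :
    ((Eb M T.n u v 0 0 : ℕ) : ℤ) ≤ T.E := by
  apply T.E_ge_pred
  intro i j hi hj h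
  obtain ⟨h1, h2⟩ := Pe_spec h
  refine ⟨h1, ?_⟩
  rcases h2 with h2 | h2
  · exact hb i j 0 h2.1 h2.2 (by omega) (by omega)
  · omega

theorem Box.E3 {T : Tile R} {u v w : ℕ} (hb : T.Box u v w) (hv : 1 ≤ v) (M e1 e2 : ℕ)
    (he : (e1, 0, e2) ∈ T.S ∨ e1 = 0) :
    ((Eb M T.rot.rot.n w u e2 e1 : ℕ) : ℤ) ≤ T.rot.rot.E := by
  apply T.rot.rot.E_ge_pred
  intro i j hi hj h
  obtain ⟨h1, h2⟩ := Pe_spec h
  refine ⟨h1, ?_⟩
  rw [mem_rot, mem_rot]
  rcases h2 with h2 | h2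
  · exact hb j 0 i h2.2 (by omega) h2.1 (by omega)
  · rcases he with he | he
    · rw [h2.1, h2.2]; exact he
    · omega

theorem Full.I3 {T : Tile R} {u0 v0 w0 : ℕ} (hf : T.Full u0 v0 w0) {u v w : ℕ} (hb : T.Box u v w)
    (M e1 e2 : ℕ) (he : (e1, 0, e2) ∈ T.S ∨ e1 = 0) :
    Jb M T.n T.rot.n T.rot.rot.n u v w e1 e2 ≤ T.N true true true := by
  apply T.I3_ge
  intro i k j hi hk hj h
  unfold hcol at h
  rw [le_max_iff] at h
  rcases h with h | h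
  · split_ifs at h with h1
    · rw [le_min_iff] at h
      simp only [Bool.or_eq_true, Bool.and_eq_true, Nat.ble_eq, Nat.beq_eq] at h1
      apply hf.mem
      · exact T.tri_mem _ _ (by omega)
      · exact T.mem_yz (by omega)
      · rcases h1 with h1 | h1
        · exact T.mem_xz h1
        · rcases he with he | he
          · rw [h1.1, h1.2]; exact he
          · omega
      · omega
    · omega
  · split_ifs at h with h1 h2
    · simp only [Bool.and_eq_true, Nat.ble_eq, Nat.beq_eq] at h1 h2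
      exact hb i j k h1.1 (by omega) h1.2 (by omega)
    · simp only [Bool.and_eq_true, Nat.ble_eq, Nat.beq_eq] at h1 h2
      exact hb i j k h1.1 (by omega) h1.2 (by omega)
    · omega

/-- the basic facts for a tile with a full minimal non-element -/
structure Facts (T : Tile R) : Prop where
  hqp : T.rot.n ≤ T.n
  hrq : T.rot.rot.n ≤ T.rot.n
  l1 : T.LabelGe 1
  l2 : T.rot.LabelGe 1
  l3 : T.rot.rot.LabelGe 1
  V1 : (T.n : ℤ) + T.E ≤ T.V
  V2 : (T.n : ℤ) + T.rot.E ≤ T.rot.V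
  V3 : (T.n : ℤ) + T.rot.rot.E ≤ T.rot.rot.V

theorem Full.facts {T : Tile R} {u v w : ℕ} (hf : T.Full u v w) (hqp : T.rot.n ≤ T.n)
    (hrq : T.rot.rot.n ≤ T.rot.n) : T.Facts where
  hqp := hqp
  hrq := hrq
  l1 := hf.labelGe
  l2 := hf.rot.labelGe
  l3 := hf.rot.rot.labelGe
  V1 := by
    have h : T.n ≤ T.top := by
      rcases Nat.eq_zero_or_pos T.n with h | h
      · omega
      · have := T.top_ge hf.labelGe h
        omega
    unfold V
    have : (T.n : ℤ) ≤ T.top := by exact_mod_cast h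
    linarith
  V2 := by
    unfold V
    have : (T.n : ℤ) ≤ T.rot.top := by exact_mod_cast T.rot_top_ge
    linarith
  V3 := by
    unfold V
    have : (T.n : ℤ) ≤ T.rot.rot.top := by exact_mod_cast T.rot_rot_top_ge
    linarith

theorem Facts.k1 {T : Tile R} (F : T.Facts) (h : 2 ≤ T.n) :
    ((T.n : ℤ) - 1) * (T.rot.rot.n + 1) - (T.n : ℤ) ^ 2 / 2 + 2 ≤ T.V := by
  have hrq := F.hrq
  have := T.V_kappa F.l1 h (T.rot.rot.n + 1) (by omega) (by omega)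
  push_cast at this
  linarith

theorem Facts.k2 {T : Tile R} (F : T.Facts) (h : 2 ≤ T.rot.n) :
    ((T.rot.n : ℤ) - 1) * (T.rot.rot.n + 1) - (T.rot.n : ℤ) ^ 2 / 2 + 2 ≤ T.rot.V := by
  have hrq := F.hrq
  have hqp := F.hqp
  have := T.rot.V_kappa F.l2 h (T.rot.rot.n + 1) (by omega) (by rw [rot_rot_rot]; omega)
  push_cast at this
  linarith

theorem Facts.k3 {T : Tile R} (F : T.Facts) (h : 2 ≤ T.rot.rot.n) :
    ((T.rot.rot.n : ℤ) - 1) * (T.rot.n + 1) - (T.rot.rot.n : ℤ) ^ 2 / 2 + 2 ≤ T.rot.rot.V := by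
  have hrq := F.hrq
  have hqp := F.hqp
  have := T.rot.rot.V_kappa F.l3 h (T.rot.n + 1) (by rw [rot_rot_rot]; omega)
    (by rw [rot_rot_rot])
  push_cast at this
  linarith

theorem Facts.g1 {T : Tile R} (F : T.Facts) (h : 3 ≤ T.n) (hr : 2 ≤ T.rot.rot.n) :
    min (2 * (T.n : ℤ) - 2) (T.rot.n + 1) + 1 ≤ T.V := by
  have hrq := F.hrq
  have := T.V_G F.l1 h (T.rot.n + 1) (by omega) (Or.inl ⟨le_rfl, hr⟩)
  simpa using this

theorem Facts.g2 {T : Tile R} (F : T.Facts) (h : 3 ≤ T.rot.n) (hr : 2 ≤ T.rot.rot.n) :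
    min (2 * (T.rot.n : ℤ) - 2) (T.n + 1) + 1 ≤ T.rot.V := by
  have hqp := F.hqp
  have := T.rot.V_G F.l2 h (T.n + 1) (by omega) (Or.inr ⟨by rw [rot_rot_rot], hr⟩)
  simpa using this

theorem LB_le {T : Tile R} {u0 v0 w0 : ℕ} (hf : T.Full u0 v0 w0) (F : T.Facts)
    (hp3 : 3 ≤ T.n) (hr : 2 ≤ T.rot.rot.n) {u v w : ℕ} (hb : T.Box u v w)
    (hu : 1 ≤ u) (hv : 1 ≤ v) (hw : 1 ≤ w) (e1 e2 s2 : ℕ) (he : (e1, 0, e2) ∈ T.S ∨ e1 = 0)
    (hs2 : (s2 : ℤ) ≤ T.rot.E) :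
    ((LB T.n T.rot.n T.rot.rot.n u v w e1 e2 s2 : ℕ) : ℤ) ≤
      4 * (1 + T.V + T.rot.V + T.rot.rot.V + T.N true true true) +
        2 * ((T.n : ℤ) * (T.n - 1) + T.rot.n * (T.rot.n - 1) + T.rot.rot.n * (T.rot.rot.n - 1)) := by
  have hrq := F.hrq
  have hqp := F.hqp
  have E1 := hb.E1 hw (T.n + 1)
  have E2 := hb.rot.E1 hu (T.n + 1)
  have E3 := hb.E3 hv (T.n + 1) e1 e2 he
  have J := hf.I3 hb (T.n + 1) e1 e2 he
  have n1 := T.E_nonneg
  have n2 := T.rot.E_nonneg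
  have n3 := T.rot.rot.E_nonneg
  have f1 := F.V1
  have f2 := F.V2
  have f3 := F.V3
  have p0 : (0 : ℤ) ≤ T.n := by positivity
  have c1 : ((kap T.n (T.rot.rot.n + 1) : ℕ) : ℤ) ≤ T.V := by
    apply kap_le (by omega) (by linarith)
    have := F.k1 (by omega)
    push_cast
    exact this
  have c2 : ((kap T.rot.n (T.rot.rot.n + 1) : ℕ) : ℤ) ≤ T.rot.V := by
    apply kap_le (by omega) (by linarith)
    have := F.k2 (by omega)
    push_cast
    exact this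
  have c3 : ((kap T.rot.rot.n (T.rot.n + 1) : ℕ) : ℤ) ≤ T.rot.rot.V := by
    apply kap_le (by omega) (by linarith)
    have := F.k3 (by omega)
    push_cast
    exact this
  have d1 : ((gg T.n (T.rot.n + 1) : ℕ) : ℤ) ≤ T.V := by
    apply gg_le (by omega)
    have := F.g1 (by omega) hr
    push_cast
    exact this
  have d2 : (((if Nat.ble 3 T.rot.n then gg T.rot.n (T.n + 1) else 0) : ℕ) : ℤ) ≤ T.rot.V := by
    split_ifs with h
    · rw [Nat.ble_eq] at h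
      apply gg_le (by omega)
      have := F.g2 h hr
      push_cast
      exact this
    · push_cast
      linarith
  have m1 : ((max (max (kap T.n (T.rot.rot.n + 1)) (gg T.n (T.rot.n + 1)))
      (T.n + Eb (T.n + 1) T.n u v 0 0) : ℕ) : ℤ) ≤ T.V := by
    rw [Nat.cast_max, Nat.cast_max, Nat.cast_add]
    exact max_le (max_le c1 d1) (by linarith)
  have m2 : ((max (max (kap T.rot.n (T.rot.rot.n + 1)) (if Nat.ble 3 T.rot.n then
      gg T.rot.n (T.n + 1) else 0)) (T.n + max s2 (Eb (T.n + 1) T.rot.n v w 0 0)) : ℕ) : ℤ) ≤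
      T.rot.V := by
    rw [Nat.cast_max, Nat.cast_max, Nat.cast_add, Nat.cast_max]
    apply max_le (max_le c2 d2)
    have : max (s2 : ℤ) ((Eb (T.n + 1) T.rot.n v w 0 0 : ℕ) : ℤ) ≤ T.rot.E := max_le hs2 E2
    linarith
  have m3 : ((max (kap T.rot.rot.n (T.rot.n + 1))
      (T.n + Eb (T.n + 1) T.rot.rot.n w u e2 e1) : ℕ) : ℤ) ≤ T.rot.rot.V := by
    rw [Nat.cast_max, Nat.cast_add]
    exact max_le c3 (by linarith)
  have J' : ((Jb (T.n + 1) T.n T.rot.n T.rot.rot.n u v w e1 e2 : ℕ) : ℤ) ≤ T.N true true true := by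
    exact_mod_cast J
  unfold LB
  have q1 : ((T.n * (T.n - 1) : ℕ) : ℤ) = (T.n : ℤ) * (T.n - 1) := by
    rw [Nat.cast_mul, Nat.cast_sub (by omega)]; simp
  have q2 : ((T.rot.n * (T.rot.n - 1) : ℕ) : ℤ) = (T.rot.n : ℤ) * (T.rot.n - 1) := by
    rw [Nat.cast_mul, Nat.cast_sub (by omega)]; simp
  have q3 : ((T.rot.rot.n * (T.rot.rot.n - 1) : ℕ) : ℤ) =
      (T.rot.rot.n : ℤ) * (T.rot.rot.n - 1) := by
    rw [Nat.cast_mul, Nat.cast_sub (by omega)]; simp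
  rw [Nat.cast_add, Nat.cast_mul, Nat.cast_mul, Nat.cast_add, Nat.cast_add, Nat.cast_add,
    Nat.cast_add, Nat.cast_add, Nat.cast_add, q1, q2, q3]
  push_cast at m1 m2 m3 J' ⊢
  linarith

end Tile

end MPc709deB
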