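import Pool.Agent.Work.MP_c709de_al_h19.Kappa

/-! Tiles: order ideals of `ℕ³` that are transversals of a homomorphism. -/

namespace MPc709deB

open Finset

/-- an order ideal `S` of `ℕ³` on which `(i,j,k) ↦ i x + j y + k z` is injective and has the same
image as on `ℕ³`. -/
@[ext] structure Tile (R : Type*) [CommRing R] where
  x : R
  y : R
  z : R
  S : Finset (ℕ × ℕ × ℕ)
  down : ∀ {i j k i' j' k' : ℕ}, (i, j, k) ∈ S → i' ≤ i → j' ≤ j → k' ≤ k → (i', j', k') ∈ S
  inj : ∀ {i j k i' j' k' : ℕ}, (i, j, k) ∈ S → (i', j', k') ∈ S →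
    (i : R) * x + j * y + k * z = i' * x + j' * y + k' * z → i = i' ∧ j = j' ∧ k = k'
  surj : ∀ i j k : ℕ, ∃ i' j' k' : ℕ, (i', j', k') ∈ S ∧
    (i : R) * x + j * y + k * z = i' * x + j' * y + k' * z

variable {R : Type*} [CommRing R]

namespace Tile

/-- rotation of the coordinates -/
def rot (T : Tile R) : Tile R where
  x := T.y
  y := T.z
  z := T.x
  S := T.S.image (fun p => (p.2.1, p.2.2, p.1))
  down := by
    intro i j k i' j' k' h hi hj hk
    simp only [Finset.mem_image, Prod.mk.injEq, Prod.exists] at h ⊢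
    obtain ⟨a, b, c, h, rfl, rfl, rfl⟩ := h
    exact ⟨k', i', j', T.down h hk hi hj, rfl, rfl, rfl⟩
  inj := by
    intro i j k i' j' k' h h' he
    simp only [Finset.mem_image, Prod.mk.injEq, Prod.exists] at h h'
    obtain ⟨a, b, c, h, rfl, rfl, rfl⟩ := h
    obtain ⟨a', b', c', h', rfl, rfl, rfl⟩ := h'
    obtain ⟨h1, h2, h3⟩ := T.inj h h' (by linear_combination he)
    exact ⟨h2, h3, h1⟩
  surj := by
    intro i j k
    obtain ⟨i', j', k', h, he⟩ := T.surj k i j
    refine ⟨j', k', i', ?_, by linear_combination he⟩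
    simp only [Finset.mem_image, Prod.mk.injEq, Prod.exists]
    exact ⟨i', j', k', h, rfl, rfl, rfl⟩

@[simp] theorem mem_rot (T : Tile R) (i j k : ℕ) : (i, j, k) ∈ T.rot.S ↔ (k, i, j) ∈ T.S := by
  simp only [rot, Finset.mem_image, Prod.mk.injEq, Prod.exists]
  constructor
  · rintro ⟨a, b, c, h, rfl, rfl, rfl⟩
    exact h
  · intro h
    exact ⟨k, i, j, h, rfl, rfl, rfl⟩

/-- exchange of the first two coordinates -/
def swp (T : Tile R) : Tile R where
  x := T.y
  y := T.x
  z := T.z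
  S := T.S.image (fun p => (p.2.1, p.1, p.2.2))
  down := by
    intro i j k i' j' k' h hi hj hk
    simp only [Finset.mem_image, Prod.mk.injEq, Prod.exists] at h ⊢
    obtain ⟨a, b, c, h, rfl, rfl, rfl⟩ := h
    exact ⟨j', i', k', T.down h hj hi hk, rfl, rfl, rfl⟩
  inj := by
    intro i j k i' j' k' h h' he
    simp only [Finset.mem_image, Prod.mk.injEq, Prod.exists] at h h'
    obtain ⟨a, b, c, h, rfl, rfl, rfl⟩ := h
    obtain ⟨a', b', c', h', rfl, rfl, rfl⟩ := h'
    obtain ⟨h1, h2, h3⟩ := T.inj h h' (by linear_combination he)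
    exact ⟨h2, h1, h3⟩
  surj := by
    intro i j k
    obtain ⟨i', j', k', h, he⟩ := T.surj j i k
    refine ⟨j', i', k', ?_, by linear_combination he⟩
    simp only [Finset.mem_image, Prod.mk.injEq, Prod.exists]
    exact ⟨i', j', k', h, rfl, rfl, rfl⟩

@[simp] theorem mem_swp (T : Tile R) (i j k : ℕ) : (i, j, k) ∈ T.swp.S ↔ (j, i, k) ∈ T.S := by
  simp only [swp, Finset.mem_image, Prod.mk.injEq, Prod.exists]
  constructor
  · rintro ⟨a, b, c, h, rfl, rfl, rfl⟩
    exact h
  · intro h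
    exact ⟨j, i, k, h, rfl, rfl, rfl⟩

theorem rot_rot_rot (T : Tile R) : T.rot.rot.rot = T := by
  ext1
  · rfl
  · rfl
  · rfl
  · ext ⟨i, j, k⟩
    simp

theorem swp_rot (T : Tile R) : T.swp.rot = T.rot.rot.swp := by
  ext1
  · rfl
  · rfl
  · rfl
  · ext ⟨i, j, k⟩
    simp

theorem swp_rot_rot (T : Tile R) : T.swp.rot.rot = T.rot.swp := by
  rw [swp_rot, swp_rot, rot_rot_rot]

theorem zero_mem (T : Tile R) : (0, 0, 0) ∈ T.S := by
  obtain ⟨i, j, k, h, -⟩ := T.surj 0 0 0
  exact T.down h (Nat.zero_le _) (Nat.zero_le _) (Nat.zero_le _)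

theorem exists_not (T : Tile R) : ∃ k, (0, 0, k) ∉ T.S := by
  by_contra hcon
  push Not at hcon
  have h1 : Set.InjOn (fun k : ℕ => ((0 : ℕ), (0 : ℕ), k)) Set.univ := by
    intro a _ b _ h
    simpa using h
  have h2 : (Set.univ : Set ℕ).Finite := by
    apply Set.Finite.of_injOn (t := (T.S : Set (ℕ × ℕ × ℕ))) _ h1 (Finset.finite_toSet _)
    intro k _
    exact hcon k
  exact Set.infinite_univ h2

/-- `Z`: the last point of `S` on the third axis -/
noncomputable def top (T : Tile R) : ℕ := by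
  classical exact Nat.find T.exists_not - 1

theorem mem_axis (T : Tile R) (k : ℕ) : (0, 0, k) ∈ T.S ↔ k ≤ T.top := by
  classical
  have h0 : Nat.find T.exists_not ≠ 0 := by
    intro h
    have := Nat.find_spec T.exists_not
    rw [h] at this
    exact this T.zero_mem
  have htop : T.top = Nat.find T.exists_not - 1 := by
    unfold top; congr
  constructor
  · intro h
    rw [htop]
    by_contra hcon
    apply Nat.find_spec T.exists_not
    exact T.down h le_rfl le_rfl (by omega)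
  · intro h
    rw [htop] at h
    by_contra hcon
    have := Nat.find_min' T.exists_not hcon
    omega

/-- a corner of the plane of the first two coordinates -/
def IsCor (T : Tile R) (a b : ℕ) : Prop :=
  1 ≤ a ∧ 1 ≤ b ∧ (a, b, 0) ∉ T.S ∧ (a - 1, b, 0) ∈ T.S ∧ (a, b - 1, 0) ∈ T.S

/-- the set of corners -/
noncomputable def cor (T : Tile R) : Finset (ℕ × ℕ) := by
  classical exact (T.S.image (fun p => (p.1 + 1, p.2.1))).filter (fun q => T.IsCor q.1 q.2)

theorem mem_cor (T : Tile R) (a b : ℕ) : (a, b) ∈ T.cor ↔ T.IsCor a b := by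
  classical
  unfold cor
  simp only [Finset.mem_filter, Finset.mem_image, Prod.mk.injEq, Prod.exists, and_iff_right_iff_imp]
  intro h
  refine ⟨a - 1, b, 0, h.2.2.2.1, ?_, rfl⟩
  have := h.1
  omega

/-- number of corners -/
noncomputable def n (T : Tile R) : ℕ := T.cor.card

theorem swp_n (T : Tile R) : T.swp.n = T.n := by
  classical
  unfold n
  apply Finset.card_bij (fun p _ => (p.2, p.1))
  · rintro ⟨a, b⟩ h
    rw [mem_cor] at h ⊢
    obtain ⟨h1, h2, h3, h4, h5⟩ := h
    rw [mem_swp] at h3 h4 h5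
    exact ⟨h2, h1, h3, h5, h4⟩
  · rintro ⟨a, b⟩ _ ⟨a', b'⟩ _ h
    simp only [Prod.mk.injEq] at h ⊢
    exact ⟨h.2, h.1⟩
  · rintro ⟨a, b⟩ h
    refine ⟨(b, a), ?_, rfl⟩
    rw [mem_cor] at h ⊢
    obtain ⟨h1, h2, h3, h4, h5⟩ := h
    refine ⟨h2, h1, ?_, ?_, ?_⟩
    · rw [mem_swp]; exact h3
    · rw [mem_swp]; exact h5
    · rw [mem_swp]; exact h4

theorem cor_anti (T : Tile R) {a b a' b' : ℕ} (h : T.IsCor a b) (h' : T.IsCor a' b')
    (h1 : a ≤ a') (h2 : b ≤ b') : a = a' ∧ b = b' := by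
  by_contra hcon
  apply h.2.2.1
  rcases lt_or_eq_of_le h1 with h3 | h3
  · exact T.down h'.2.2.2.1 (by omega) h2 le_rfl
  · exact T.down h'.2.2.2.2 h1 (by omega) le_rfl

theorem enum (C : Finset (ℕ × ℕ)) (h1 : ∀ p ∈ C, ∀ q ∈ C, p.1 ≤ q.1 → p.2 ≤ q.2 → p = q) :
    ∃ a b : Fin C.card → ℕ, StrictMono a ∧ StrictAnti b ∧ (∀ i, (a i, b i) ∈ C) ∧
      ∀ p ∈ C, ∃ i, p = (a i, b i) := by
  classical
  have hinj : Set.InjOn Prod.fst (C : Set (ℕ × ℕ)) := by
    intro p hp q hq h
    rcases le_total p.2 q.2 with h2 | h2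
    · exact h1 p hp q hq h.le h2
    · exact (h1 q hq p hp h.ge h2).symm
  have hcard : (C.image Prod.fst).card = C.card := Finset.card_image_of_injOn hinj
  set a := (C.image Prod.fst).orderEmbOfFin hcard with ha
  have hmem : ∀ i, ∃ b, (a i, b) ∈ C := by
    intro i
    have : a i ∈ C.image Prod.fst := Finset.orderEmbOfFin_mem _ _ i
    rw [Finset.mem_image] at this
    obtain ⟨⟨s, t⟩, hst, he⟩ := this
    simp only at he
    subst he
    exact ⟨t, hst⟩
  choose b hb using hmem
  refine ⟨a, b, a.strictMono, ?_, hb, ?_⟩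
  · intro i j hij
    by_contra hcon
    have h2 : a i < a j := a.strictMono hij
    have := h1 _ (hb i) _ (hb j) h2.le (by simp only; omega)
    simp only [Prod.mk.injEq] at this
    omega
  · intro p hp
    have h2 : p.1 ∈ C.image Prod.fst := Finset.mem_image_of_mem _ hp
    have h3 : p.1 ∈ Set.range a := by
      rw [ha, Finset.range_orderEmbOfFin]
      exact_mod_cast h2
    obtain ⟨i, hi⟩ := h3
    refine ⟨i, ?_⟩
    apply hinj (by exact_mod_cast hp) (by exact_mod_cast hb i)
    exact hi.symm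

theorem exists_enum (T : Tile R) : ∃ a b : Fin T.n → ℕ, StrictMono a ∧ StrictAnti b ∧
    (∀ i, T.IsCor (a i) (b i)) ∧ ∀ s t, T.IsCor s t → ∃ i, s = a i ∧ t = b i := by
  obtain ⟨a, b, h1, h2, h3, h4⟩ := enum T.cor (by
    rintro ⟨a, b⟩ h ⟨a', b'⟩ h' ha hb
    rw [mem_cor] at h h'
    obtain ⟨h1, h2⟩ := T.cor_anti h h' ha hb
    rw [h1, h2])
  refine ⟨a, b, h1, h2, fun i => (T.mem_cor _ _).1 (h3 i), ?_⟩
  intro s t h
  obtain ⟨i, hi⟩ := h4 (s, t) ((T.mem_cor _ _).2 h)
  simp only [Prod.mk.injEq] at hi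
  exact ⟨i, hi⟩

theorem exists_min (T : Tile R) (N : ℕ) : ∀ i j, i + j = N → (i, j, 0) ∉ T.S →
    (i, 0, 0) ∉ T.S ∨ (0, j, 0) ∉ T.S ∨ ∃ a b, T.IsCor a b ∧ a ≤ i ∧ b ≤ j := by
  induction N using Nat.strong_induction_on with
  | _ N ih =>
    intro i j hij h
    by_cases h1 : (i, 0, 0) ∈ T.S
    · by_cases h2 : (0, j, 0) ∈ T.S
      · right; right
        have hi : 1 ≤ i := by
          by_contra hcon
          have : i = 0 := by omega
          subst this
          exact h h2
        have hj : 1 ≤ j := by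
          by_contra hcon
          have : j = 0 := by omega
          subst this
          exact h h1
        by_cases h3 : (i - 1, j, 0) ∈ T.S
        · by_cases h4 : (i, j - 1, 0) ∈ T.S
          · exact ⟨i, j, ⟨hi, hj, h, h3, h4⟩, le_rfl, le_rfl⟩
          · rcases ih (i + (j - 1)) (by omega) i (j - 1) rfl h4 with h5 | h5 | ⟨a, b, h5, h6, h7⟩
            · exact absurd h1 h5
            · exact absurd (T.down h2 le_rfl (by omega) le_rfl) h5
            · exact ⟨a, b, h5, h6, by omega⟩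
        · rcases ih (i - 1 + j) (by omega) (i - 1) j rfl h3 with h5 | h5 | ⟨a, b, h5, h6, h7⟩
          · exact absurd (T.down h1 (by omega) le_rfl le_rfl) h5
          · exact absurd h2 h5
          · exact ⟨a, b, h5, by omega, h7⟩
      · exact Or.inr (Or.inl h2)
    · exact Or.inl h1

/-- the triangle of size `n` lies in the tile -/
theorem tri_mem (T : Tile R) (i j : ℕ) (h : i + j ≤ T.n) : (i, j, 0) ∈ T.S := by
  obtain ⟨a, b, ha, hb, hc, hcomp⟩ := T.exists_enum
  have ha1 : ∀ i, 1 ≤ a i := fun i => (hc i).1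
  have hb1 : ∀ i, 1 ≤ b i := fun i => (hc i).2.1
  by_contra hcon
  have hax : ∀ i, i ≤ T.n → (i, 0, 0) ∈ T.S := by
    intro i hi
    by_cases hn : T.n = 0
    · have : i = 0 := by omega
      subst this
      exact T.zero_mem
    · have h1 := fin_le ha ha1 ⟨T.n - 1, by omega⟩
      simp only at h1
      exact T.down (hc ⟨T.n - 1, by omega⟩).2.2.2.2 (by omega) (Nat.zero_le _) le_rfl
  have hay : ∀ j, j ≤ T.n → (0, j, 0) ∈ T.S := by
    intro j hj
    by_cases hn : T.n = 0
    · have : j = 0 := by omega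
      subst this
      exact T.zero_mem
    · have h1 := fin_le' hb hb1 ⟨0, by omega⟩
      simp only at h1
      exact T.down (hc ⟨0, by omega⟩).2.2.2.1 (Nat.zero_le _) (by omega) le_rfl
  rcases T.exists_min (i + j) i j rfl hcon with h1 | h1 | ⟨s, t, h1, h2, h3⟩
  · exact h1 (hax i (by omega))
  · exact h1 (hay j (by omega))
  · obtain ⟨k, rfl, rfl⟩ := hcomp s t h1
    have h4 := fin_le ha ha1 k
    have h5 := fin_le' hb hb1 k
    have := k.2
    omega

/-- a minimal non-element of full support -/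
def Full (T : Tile R) (u v w : ℕ) : Prop :=
  1 ≤ u ∧ 1 ≤ v ∧ 1 ≤ w ∧ (u, v, w) ∉ T.S ∧ (u - 1, v, w) ∈ T.S ∧ (u, v - 1, w) ∈ T.S ∧
    (u, v, w - 1) ∈ T.S

theorem Full.rot {T : Tile R} {u v w : ℕ} (h : T.Full u v w) : T.rot.Full v w u := by
  obtain ⟨h1, h2, h3, h4, h5, h6, h7⟩ := h
  exact ⟨h2, h3, h1, by rwa [mem_rot], by rwa [mem_rot], by rwa [mem_rot], by rwa [mem_rot]⟩

theorem Full.swp {T : Tile R} {u v w : ℕ} (h : T.Full u v w) : T.swp.Full v u w := by
  obtain ⟨h1, h2, h3, h4, h5, h6, h7⟩ := h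
  exact ⟨h2, h1, h3, by rwa [mem_swp], by rwa [mem_swp], by rwa [mem_swp], by rwa [mem_swp]⟩

theorem full_rot_iff (T : Tile R) : (∃ u v w, T.rot.Full u v w) ↔ ∃ u v w, T.Full u v w := by
  constructor
  · rintro ⟨u, v, w, h⟩
    have h2 := h.rot.rot
    rw [rot_rot_rot] at h2
    exact ⟨_, _, _, h2⟩
  · rintro ⟨u, v, w, h⟩
    exact ⟨_, _, _, h.rot⟩

theorem full_swp_iff (T : Tile R) : (∃ u v w, T.swp.Full u v w) ↔ ∃ u v w, T.Full u v w := by
  have hss : T.swp.swp = T := by
    ext1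
    · rfl
    · rfl
    · rfl
    · ext ⟨i, j, k⟩
      simp
  constructor
  · rintro ⟨u, v, w, h⟩
    have h2 := h.swp
    rw [hss] at h2
    exact ⟨_, _, _, h2⟩
  · rintro ⟨u, v, w, h⟩
    exact ⟨_, _, _, h.swp⟩

theorem exists_full (T : Tile R) (N : ℕ) : ∀ i j k, i + j + k = N → (i, j, k) ∉ T.S →
    (i, j, 0) ∈ T.S → (0, j, k) ∈ T.S → (i, 0, k) ∈ T.S →
    ∃ u v w, T.Full u v w ∧ u ≤ i ∧ v ≤ j ∧ w ≤ k := by
  induction N using Nat.strong_induction_on with
  | _ N ih =>
    intro i j k hN h h1 h2 h3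
    have hi : 1 ≤ i := by
      by_contra hcon
      have : i = 0 := by omega
      subst this
      exact h h2
    have hj : 1 ≤ j := by
      by_contra hcon
      have : j = 0 := by omega
      subst this
      exact h h3
    have hk : 1 ≤ k := by
      by_contra hcon
      have : k = 0 := by omega
      subst this
      exact h h1
    by_cases h4 : (i - 1, j, k) ∈ T.S
    · by_cases h5 : (i, j - 1, k) ∈ T.S
      · by_cases h6 : (i, j, k - 1) ∈ T.S
        · exact ⟨i, j, k, ⟨hi, hj, hk, h, h4, h5, h6⟩, le_rfl, le_rfl, le_rfl⟩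
        · obtain ⟨u, v, w, h7, h8, h9, h10⟩ := ih (i + j + (k - 1)) (by omega) i j (k - 1) rfl h6
            h1 (T.down h2 le_rfl le_rfl (by omega)) (T.down h3 le_rfl le_rfl (by omega))
          exact ⟨u, v, w, h7, h8, h9, by omega⟩
      · obtain ⟨u, v, w, h7, h8, h9, h10⟩ := ih (i + (j - 1) + k) (by omega) i (j - 1) k rfl h5
          (T.down h1 le_rfl (by omega) le_rfl) (T.down h2 le_rfl (by omega) le_rfl) h3
        exact ⟨u, v, w, h7, h8, by omega, h10⟩
    · obtain ⟨u, v, w, h7, h8, h9, h10⟩ := ih (i - 1 + j + k) (by omega) (i - 1) j k rfl h4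
        (T.down h1 (by omega) le_rfl le_rfl) h2 (T.down h3 (by omega) le_rfl le_rfl)
      exact ⟨u, v, w, h7, by omega, h9, h10⟩

/-- a corner is congruent to a power of `z` -/
theorem label (T : Tile R) {a b : ℕ} (h : T.IsCor a b) :
    ∃ c, c ≤ T.top ∧ (a : R) * T.x + b * T.y = c * T.z := by
  obtain ⟨ha, hb, h1, h2, h3⟩ := h
  obtain ⟨i, j, k, h4, h5⟩ := T.surj a b 0
  have hi : i = 0 := by
    by_contra hi
    have h6 : (i - 1, j, k) ∈ T.S := T.down h4 (by omega) le_rfl le_rfl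
    obtain ⟨h7, h8, h9⟩ := T.inj h2 h6 (by
      have e1 : ((a - 1 : ℕ) : R) = a - 1 := by rw [Nat.cast_sub ha]; simp
      have e2 : ((i - 1 : ℕ) : R) = i - 1 := by rw [Nat.cast_sub (by omega)]; simp
      rw [e1, e2]
      linear_combination h5)
    apply h1
    have : i = a := by omega
    subst this
    subst h8
    rw [← h9] at h4
    exact h4
  have hj : j = 0 := by
    by_contra hj
    have h6 : (i, j - 1, k) ∈ T.S := T.down h4 le_rfl (by omega) le_rfl
    obtain ⟨h7, h8, h9⟩ := T.inj h3 h6 (by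
      have e1 : ((b - 1 : ℕ) : R) = b - 1 := by rw [Nat.cast_sub hb]; simp
      have e2 : ((j - 1 : ℕ) : R) = j - 1 := by rw [Nat.cast_sub (by omega)]; simp
      rw [e1, e2]
      linear_combination h5)
    apply h1
    have : j = b := by omega
    subst this
    subst h7
    rw [← h9] at h4
    exact h4
  subst hi
  subst hj
  refine ⟨k, (T.mem_axis k).1 h4, ?_⟩
  push_cast at h5
  linear_combination h5

theorem Full.zero {T : Tile R} {u v w : ℕ} (h : T.Full u v w) :
    (u : R) * T.x + v * T.y + w * T.z = 0 := by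
  obtain ⟨hu, hv, hw, h1, h2, h3, h4⟩ := h
  obtain ⟨i, j, k, h5, h6⟩ := T.surj u v w
  have hi : i = 0 := by
    by_contra hi
    have h7 : (i - 1, j, k) ∈ T.S := T.down h5 (by omega) le_rfl le_rfl
    obtain ⟨h8, h9, h10⟩ := T.inj h2 h7 (by
      have e1 : ((u - 1 : ℕ) : R) = u - 1 := by rw [Nat.cast_sub hu]; simp
      have e2 : ((i - 1 : ℕ) : R) = i - 1 := by rw [Nat.cast_sub (by omega)]; simp
      rw [e1, e2]
      linear_combination h6)
    apply h1
    have : i = u := by omega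
    rw [this, ← h9, ← h10] at h5
    exact h5
  have hj : j = 0 := by
    by_contra hi
    have h7 : (i, j - 1, k) ∈ T.S := T.down h5 le_rfl (by omega) le_rfl
    obtain ⟨h8, h9, h10⟩ := T.inj h3 h7 (by
      have e1 : ((v - 1 : ℕ) : R) = v - 1 := by rw [Nat.cast_sub hv]; simp
      have e2 : ((j - 1 : ℕ) : R) = j - 1 := by rw [Nat.cast_sub (by omega)]; simp
      rw [e1, e2]
      linear_combination h6)
    apply h1
    have : j = v := by omega
    rw [this, ← h8, ← h10] at h5
    exact h5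
  have hk : k = 0 := by
    by_contra hi
    have h7 : (i, j, k - 1) ∈ T.S := T.down h5 le_rfl le_rfl (by omega)
    obtain ⟨h8, h9, h10⟩ := T.inj h4 h7 (by
      have e1 : ((w - 1 : ℕ) : R) = w - 1 := by rw [Nat.cast_sub hw]; simp
      have e2 : ((k - 1 : ℕ) : R) = k - 1 := by rw [Nat.cast_sub (by omega)]; simp
      rw [e1, e2]
      linear_combination h6)
    apply h1
    have : k = w := by omega
    rw [this, ← h8, ← h9] at h5
    exact h5
  subst hi hj hk
  push_cast at h6
  linear_combination h6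

/-- the pair constraints -/
theorem pairR (T : Tile R) {a b c a' b' c' : ℕ} (h : T.IsCor a b)
    (hc : (a : R) * T.x + b * T.y = c * T.z) (hc' : (a' : R) * T.x + b' * T.y = c' * T.z)
    (ha : a < a') (hb : b' < b) (hcc : c' < c) : T.rot.rot.n + 1 ≤ (a' - a) + (c - c') := by
  by_contra hcon
  have h1 := T.rot.rot.tri_mem (c - c') (a' - a) (by omega)
  rw [mem_rot, mem_rot] at h1
  have h2 : (0, b - b', 0) ∈ T.S := T.down h.2.2.2.1 (Nat.zero_le _) (by omega) le_rfl
  obtain ⟨h3, -⟩ := T.inj h1 h2 (by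
    rw [Nat.cast_sub ha.le, Nat.cast_sub hb.le, Nat.cast_sub hcc.le]
    push_cast
    linear_combination hc' - hc)
  omega

theorem pairL (T : Tile R) {a b c a' b' c' : ℕ} (h' : T.IsCor a' b')
    (hc : (a : R) * T.x + b * T.y = c * T.z) (hc' : (a' : R) * T.x + b' * T.y = c' * T.z)
    (ha : a < a') (hb : b' < b) (hcc : c < c') : T.rot.n + 1 ≤ (b - b') + (c' - c) := by
  by_contra hcon
  have h1 := T.rot.tri_mem (b - b') (c' - c) (by omega)
  rw [mem_rot] at h1
  have h2 : (a' - a, 0, 0) ∈ T.S := T.down h'.2.2.2.2 (by omega) (Nat.zero_le _) le_rfl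
  obtain ⟨h3, -⟩ := T.inj h1 h2 (by
    rw [Nat.cast_sub ha.le, Nat.cast_sub hb.le, Nat.cast_sub hcc.le]
    push_cast
    linear_combination hc - hc')
  omega

theorem pair_ne (T : Tile R) {a b c a' b' c' : ℕ} (h : T.IsCor a b) (h' : T.IsCor a' b')
    (hc : (a : R) * T.x + b * T.y = c * T.z) (hc' : (a' : R) * T.x + b' * T.y = c' * T.z)
    (ha : a < a') (hb : b' < b) : c ≠ c' := by
  rintro rfl
  have h1 : (a' - a, 0, 0) ∈ T.S := T.down h'.2.2.2.2 (by omega) (Nat.zero_le _) le_rfl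
  have h2 : (0, b - b', 0) ∈ T.S := T.down h.2.2.2.1 (Nat.zero_le _) (by omega) le_rfl
  obtain ⟨h3, -⟩ := T.inj h1 h2 (by
    rw [Nat.cast_sub ha.le, Nat.cast_sub hb.le]
    push_cast
    linear_combination hc' - hc)
  omega

/-- with a full minimal non-element no label vanishes -/
theorem Full.label_pos {T : Tile R} {u v w : ℕ} (hf : T.Full u v w) {a b c : ℕ}
    (h : T.IsCor a b) (hc : (a : R) * T.x + b * T.y = c * T.z) : 1 ≤ c := by
  by_contra hcon
  have hc0 : c = 0 := by omega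
  subst hc0
  have hz := hf.zero
  obtain ⟨hu, hv, hw, h1, h2, h3, h4⟩ := hf
  obtain ⟨ha, hb, h5, h6, h7⟩ := h
  have key : u < a ∨ v < b := by
    by_contra hcon2
    push Not at hcon2
    exact h5 (T.down h4 hcon2.1 hcon2.2 (Nat.zero_le _))
  rcases key with hk | hk
  · rcases le_or_gt v b with hvb | hvb
    · have h8 : (a - u, b - v, 0) ∈ T.S := T.down h6 (by omega) (by omega) le_rfl
      have h9 : (0, 0, w) ∈ T.S := T.down h2 (Nat.zero_le _) (Nat.zero_le _) le_rfl
      obtain ⟨h10, -⟩ := T.inj h8 h9 (by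
        rw [Nat.cast_sub hk.le, Nat.cast_sub hvb]
        push_cast at hc ⊢
        linear_combination hc - hz)
      omega
    · have h8 : (a - u, 0, 0) ∈ T.S := T.down h6 (by omega) (by omega) le_rfl
      have h9 : (0, v - b, w) ∈ T.S := T.down h2 (Nat.zero_le _) (by omega) le_rfl
      obtain ⟨h10, -⟩ := T.inj h8 h9 (by
        rw [Nat.cast_sub hk.le, Nat.cast_sub hvb.le]
        push_cast at hc ⊢
        linear_combination hc - hz)
      omega
  · rcases le_or_gt u a with hua | hua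
    · have h8 : (a - u, b - v, 0) ∈ T.S := T.down h7 (by omega) (by omega) le_rfl
      have h9 : (0, 0, w) ∈ T.S := T.down h2 (Nat.zero_le _) (Nat.zero_le _) le_rfl
      obtain ⟨-, h10, -⟩ := T.inj h8 h9 (by
        rw [Nat.cast_sub hk.le, Nat.cast_sub hua]
        push_cast at hc ⊢
        linear_combination hc - hz)
      omega
    · have h8 : (0, b - v, 0) ∈ T.S := T.down h7 (by omega) (by omega) le_rfl
      have h9 : (u - a, 0, w) ∈ T.S := T.down h3 (by omega) (by omega) le_rfl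
      obtain ⟨-, h10, -⟩ := T.inj h8 h9 (by
        rw [Nat.cast_sub hk.le, Nat.cast_sub hua.le]
        push_cast at hc ⊢
        linear_combination hc - hz)
      omega

/-- with a full minimal non-element `(u,v,w)` each corner is of one of three types -/
theorem Full.type {T : Tile R} {u v w : ℕ} (hf : T.Full u v w) {a b c : ℕ}
    (h : T.IsCor a b) (hc : (a : R) * T.x + b * T.y = c * T.z) (hau : u ≤ a) (hbv : v ≤ b) :
    T.top + 1 ≤ c + w := by
  by_contra hcon
  have hz := hf.zero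
  obtain ⟨hu, hv, hw, h1, h2, h3, h4⟩ := hf
  obtain ⟨ha, hb, h5, h6, h7⟩ := h
  have h8 : (a - u, b - v, 0) ∈ T.S := T.down h6 (by omega) (by omega) le_rfl
  have h9 : (0, 0, c + w) ∈ T.S := (T.mem_axis _).2 (by omega)
  obtain ⟨-, -, h10⟩ := T.inj h8 h9 (by
    rw [Nat.cast_sub hau, Nat.cast_sub hbv]
    push_cast
    linear_combination hc - hz)
  omega

end Tile

end MPc709deB
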