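import Pool.Agent.Work.MP_c709de_al.Growth
import Pool.Agent.Work.MP_c709de_al_h19.MainTile

/-! The upper bound for embedding dimension four. -/

namespace MPc709deB

open Finset MPc709de

section

variable {κ : Type*} [Fintype κ] [LinearOrder κ] (m : ℕ) (φ : (κ →₀ ℕ) →+ ℕ) (e : Fin 3 ≃ κ)

/-- the point with coordinates `i, j, k` -/
noncomputable def pt (i j k : ℕ) : κ →₀ ℕ :=
  Finsupp.single (e 0) i + Finsupp.single (e 1) j + Finsupp.single (e 2) k

theorem pt_0 (i j k : ℕ) : pt e i j k (e 0) = i := by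
  have h1 : e 1 ≠ e 0 := by rw [Ne, e.injective.eq_iff]; decide
  have h2 : e 2 ≠ e 0 := by rw [Ne, e.injective.eq_iff]; decide
  simp [pt, Finsupp.single_apply, h1, h2]

theorem pt_1 (i j k : ℕ) : pt e i j k (e 1) = j := by
  have h1 : e 0 ≠ e 1 := by rw [Ne, e.injective.eq_iff]; decide
  have h2 : e 2 ≠ e 1 := by rw [Ne, e.injective.eq_iff]; decide
  simp [pt, Finsupp.single_apply, h1, h2]

theorem pt_2 (i j k : ℕ) : pt e i j k (e 2) = k := by
  have h1 : e 0 ≠ e 2 := by rw [Ne, e.injective.eq_iff]; decide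
  have h2 : e 1 ≠ e 2 := by rw [Ne, e.injective.eq_iff]; decide
  simp [pt, Finsupp.single_apply, h1, h2]

theorem forall_e {P : κ → Prop} : (∀ x, P x) ↔ P (e 0) ∧ P (e 1) ∧ P (e 2) := by
  constructor
  · intro h; exact ⟨h _, h _, h _⟩
  · rintro ⟨h0, h1, h2⟩ x
    obtain ⟨i, rfl⟩ := e.surjective x
    fin_cases i
    · exact h0
    · exact h1
    · exact h2

theorem pt_self (a : κ →₀ ℕ) : pt e (a (e 0)) (a (e 1)) (a (e 2)) = a := by
  apply Finsupp.ext
  rw [forall_e e]
  exact ⟨pt_0 e _ _ _, pt_1 e _ _ _, pt_2 e _ _ _⟩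

theorem pt_le {i j k i' j' k' : ℕ} (h1 : i' ≤ i) (h2 : j' ≤ j) (h3 : k' ≤ k) :
    pt e i' j' k' ≤ pt e i j k := by
  rw [Finsupp.le_def, forall_e e]
  rw [pt_0, pt_0, pt_1, pt_1, pt_2, pt_2]
  exact ⟨h1, h2, h3⟩

theorem phi_pt (i j k : ℕ) : φ (pt e i j k) = i * φ (Finsupp.single (e 0) 1) +
    j * φ (Finsupp.single (e 1) 1) + k * φ (Finsupp.single (e 2) 1) := by
  have h : ∀ (x : κ) (n : ℕ), φ (Finsupp.single x n) = n * φ (Finsupp.single x 1) := by
    intro x n
    have : Finsupp.single x n = n • (Finsupp.single x 1 : κ →₀ ℕ) := by simp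
    rw [this, map_nsmul, smul_eq_mul]
  unfold pt
  rw [map_add, map_add, h (e 0) i, h (e 1) j, h (e 2) k]

/-- the tile of standard elements -/
noncomputable def tile (hm : 0 < m) : Tile (ZMod m) where
  x := (φ (Finsupp.single (e 0) 1) : ℕ)
  y := (φ (Finsupp.single (e 1) 1) : ℕ)
  z := (φ (Finsupp.single (e 2) 1) : ℕ)
  S := by
    classical exact (std_finite m φ hm).toFinset.image (fun a => (a (e 0), a (e 1), a (e 2)))
  down := by
    classical
    intro i j k i' j' k' h h1 h2 h3
    simp only [Finset.mem_image, Set.Finite.mem_toFinset, Set.mem_ofPred_eq, Prod.mk.injEq] at h ⊢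
    obtain ⟨a, ha, rfl, rfl, rfl⟩ := h
    refine ⟨pt e i' j' k', ?_, pt_0 e _ _ _, pt_1 e _ _ _, pt_2 e _ _ _⟩
    have hle : pt e i' j' k' ≤ a := by
      rw [← pt_self e a]
      exact pt_le e h1 h2 h3
    exact ha.of_le m φ hle
  inj := by
    classical
    intro i j k i' j' k' h h' he
    simp only [Finset.mem_image, Set.Finite.mem_toFinset, Set.mem_ofPred_eq, Prod.mk.injEq] at h h'
    obtain ⟨a, ha, rfl, rfl, rfl⟩ := h
    obtain ⟨b, hb, rfl, rfl, rfl⟩ := h'
    have h1 : φ a ≡ φ b [MOD m] := by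
      rw [← ZMod.natCast_eq_natCast_iff]
      rw [← pt_self e a, ← pt_self e b, phi_pt, phi_pt]
      push_cast
      exact he
    have h2 := ha.unique m φ hb h1
    rw [h2]
    exact ⟨rfl, rfl, rfl⟩
  surj := by
    classical
    intro i j k
    refine ⟨nf m φ (pt e i j k) (e 0), nf m φ (pt e i j k) (e 1), nf m φ (pt e i j k) (e 2), ?_, ?_⟩
    · simp only [Finset.mem_image, Set.Finite.mem_toFinset, Set.mem_ofPred_eq, Prod.mk.injEq]
      exact ⟨_, nf_std m φ _, rfl, rfl, rfl⟩
    · have h := nf_modEq m φ (pt e i j k)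
      rw [← ZMod.natCast_eq_natCast_iff] at h
      have h2 := pt_self e (nf m φ (pt e i j k))
      rw [← h2, phi_pt, phi_pt] at h
      push_cast at h
      exact h.symm

theorem mem_tile (hm : 0 < m) (i j k : ℕ) : (i, j, k) ∈ (tile m φ e hm).S ↔ Std m φ (pt e i j k) := by
  classical
  simp only [tile, Finset.mem_image, Set.Finite.mem_toFinset, Set.mem_ofPred_eq, Prod.mk.injEq]
  constructor
  · rintro ⟨a, ha, rfl, rfl, rfl⟩
    rwa [pt_self]
  · intro h
    exact ⟨_, h, pt_0 e _ _ _, pt_1 e _ _ _, pt_2 e _ _ _⟩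

theorem card_tile (hm : 0 < m) : (tile m φ e hm).S.card ≤ m := by
  classical
  unfold tile
  exact Finset.card_image_le.trans (std_card m φ hm)

theorem pt_sub0 (i j k : ℕ) : pt e i j k - Finsupp.single (e 0) 1 = pt e (i - 1) j k := by
  have h1 : e 1 ≠ e 0 := by rw [Ne, e.injective.eq_iff]; decide
  have h2 : e 2 ≠ e 0 := by rw [Ne, e.injective.eq_iff]; decide
  apply Finsupp.ext
  rw [forall_e e]
  simp only [Finsupp.coe_tsub, Pi.sub_apply, pt_0, pt_1, pt_2]
  simp [Finsupp.single_apply, h1.symm, h2.symm]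

theorem pt_sub1 (i j k : ℕ) : pt e i j k - Finsupp.single (e 1) 1 = pt e i (j - 1) k := by
  have h1 : e 0 ≠ e 1 := by rw [Ne, e.injective.eq_iff]; decide
  have h2 : e 2 ≠ e 1 := by rw [Ne, e.injective.eq_iff]; decide
  apply Finsupp.ext
  rw [forall_e e]
  simp only [Finsupp.coe_tsub, Pi.sub_apply, pt_0, pt_1, pt_2]
  simp [Finsupp.single_apply, h1.symm, h2.symm]

theorem pt_sub2 (i j k : ℕ) : pt e i j k - Finsupp.single (e 2) 1 = pt e i j (k - 1) := by
  have h1 : e 0 ≠ e 2 := by rw [Ne, e.injective.eq_iff]; decide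
  have h2 : e 1 ≠ e 2 := by rw [Ne, e.injective.eq_iff]; decide
  apply Finsupp.ext
  rw [forall_e e]
  simp only [Finsupp.coe_tsub, Pi.sub_apply, pt_0, pt_1, pt_2]
  simp [Finsupp.single_apply, h1.symm, h2.symm]

/-- minimal non-standard elements in coordinates -/
theorem minNon_pt (hm : 0 < m) (i j k : ℕ) : pt e i j k ∈ MinNon m φ ↔
    (i, j, k) ∉ (tile m φ e hm).S ∧ (i ≠ 0 → (i - 1, j, k) ∈ (tile m φ e hm).S) ∧
    (j ≠ 0 → (i, j - 1, k) ∈ (tile m φ e hm).S) ∧ (k ≠ 0 → (i, j, k - 1) ∈ (tile m φ e hm).S) := by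
  simp only [mem_tile]
  unfold MinNon
  rw [Set.mem_ofPred_eq, forall_e e, pt_0, pt_1, pt_2, pt_sub0, pt_sub1, pt_sub2]

include e in
/-- the number of minimal non-standard elements -/
theorem minNon_card3 (hm : 0 < m) : (minNon_finite m φ hm).toFinset.card ≤ Nat.sqrt (4 * m) + 2 := by
  classical
  set T := tile m φ e hm with hT
  set U := (minNon_finite m φ hm).toFinset with hU
  have hmem : ∀ u, u ∈ U ↔ u ∈ MinNon m φ := by intro u; simp [hU]
  let cl : (κ →₀ ℕ) → Bool × Bool × Bool :=
    fun a => (decide (a (e 0) ≠ 0), decide (a (e 1) ≠ 0), decide (a (e 2) ≠ 0))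
  have hsum := Finset.card_eq_sum_card_fiberwise (s := U)
    (t := (univ : Finset (Bool × Bool × Bool))) (f := cl) (by intro p _; simp)
  simp only [Fintype.sum_prod_type, Fintype.sum_bool] at hsum
  -- coordinates
  have hco : ∀ u, u ∈ U → (u (e 0), u (e 1), u (e 2)) ∉ T.S ∧
      (u (e 0) ≠ 0 → (u (e 0) - 1, u (e 1), u (e 2)) ∈ T.S) ∧
      (u (e 1) ≠ 0 → (u (e 0), u (e 1) - 1, u (e 2)) ∈ T.S) ∧
      (u (e 2) ≠ 0 → (u (e 0), u (e 1), u (e 2) - 1) ∈ T.S) := by
    intro u hu
    rw [← minNon_pt m φ e hm, pt_self]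
    exact (hmem u).1 hu
  have hext : ∀ u v : κ →₀ ℕ, u (e 0) = v (e 0) → u (e 1) = v (e 1) → u (e 2) = v (e 2) → u = v := by
    intro u v h0 h1 h2
    rw [← pt_self e u, ← pt_self e v, h0, h1, h2]
  have hanti : ∀ u ∈ U, ∀ v ∈ U, u (e 0) ≤ v (e 0) → u (e 1) ≤ v (e 1) → u (e 2) ≤ v (e 2) →
      u = v := by
    intro u hu v hv h0 h1 h2
    apply MinNon.antichain m φ ((hmem u).1 hu) ((hmem v).1 hv)
    rw [Finsupp.le_def, forall_e e]
    exact ⟨h0, h1, h2⟩
  have c000 : (U.filter (fun u => cl u = (false, false, false))).card = 0 := by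
    rw [Finset.card_eq_zero, Finset.filter_eq_empty_iff]
    intro u hu hcl
    simp only [cl, Prod.mk.injEq, decide_eq_false_iff_not, not_not] at hcl
    have h := (hco u hu).1
    rw [hcl.1, hcl.2.1, hcl.2.2] at h
    exact h T.zero_mem
  have c100 : (U.filter (fun u => cl u = (true, false, false))).card ≤ 1 := by
    rw [Finset.card_le_one]
    intro u hu v hv
    rw [Finset.mem_filter] at hu hv
    simp only [cl, Prod.mk.injEq, decide_eq_false_iff_not, not_not] at hu hv
    rcases le_total (u (e 0)) (v (e 0)) with h | h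
    · exact hanti u hu.1 v hv.1 h (by omega) (by omega)
    · exact (hanti v hv.1 u hu.1 h (by omega) (by omega)).symm
  have c010 : (U.filter (fun u => cl u = (false, true, false))).card ≤ 1 := by
    rw [Finset.card_le_one]
    intro u hu v hv
    rw [Finset.mem_filter] at hu hv
    simp only [cl, Prod.mk.injEq, decide_eq_false_iff_not, not_not] at hu hv
    rcases le_total (u (e 1)) (v (e 1)) with h | h
    · exact hanti u hu.1 v hv.1 (by omega) h (by omega)
    · exact (hanti v hv.1 u hu.1 (by omega) h (by omega)).symm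
  have c001 : (U.filter (fun u => cl u = (false, false, true))).card ≤ 1 := by
    rw [Finset.card_le_one]
    intro u hu v hv
    rw [Finset.mem_filter] at hu hv
    simp only [cl, Prod.mk.injEq, decide_eq_false_iff_not, not_not] at hu hv
    rcases le_total (u (e 2)) (v (e 2)) with h | h
    · exact hanti u hu.1 v hv.1 (by omega) (by omega) h
    · exact (hanti v hv.1 u hu.1 (by omega) (by omega) h).symm
  have c110 : (U.filter (fun u => cl u = (true, true, false))).card ≤ T.n := by
    unfold Tile.n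
    apply Finset.card_le_card_of_injOn (fun u => (u (e 0), u (e 1)))
    · intro u hu
      rw [Finset.mem_coe, Finset.mem_filter] at hu
      simp only [cl, Prod.mk.injEq, decide_eq_false_iff_not, not_not, decide_eq_true_eq] at hu
      obtain ⟨hu, h0, h1, h2⟩ := hu
      obtain ⟨g0, g1, g2, g3⟩ := hco u hu
      rw [h2] at g0 g1 g2
      rw [Finset.mem_coe, Tile.mem_cor]
      exact ⟨by omega, by omega, g0, g1 h0, g2 h1⟩
    · intro u hu v hv huv
      rw [Finset.mem_coe, Finset.mem_filter] at hu hv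
      simp only [cl, Prod.mk.injEq, decide_eq_false_iff_not, not_not, decide_eq_true_eq] at hu hv huv
      exact hext u v huv.1 huv.2 (by omega)
  have c011 : (U.filter (fun u => cl u = (false, true, true))).card ≤ T.rot.n := by
    unfold Tile.n
    apply Finset.card_le_card_of_injOn (fun u => (u (e 1), u (e 2)))
    · intro u hu
      rw [Finset.mem_coe, Finset.mem_filter] at hu
      simp only [cl, Prod.mk.injEq, decide_eq_false_iff_not, not_not, decide_eq_true_eq] at hu
      obtain ⟨hu, h0, h1, h2⟩ := hu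
      obtain ⟨g0, g1, g2, g3⟩ := hco u hu
      rw [h0] at g0 g2 g3
      rw [Finset.mem_coe, Tile.mem_cor]
      refine ⟨by omega, by omega, ?_, ?_, ?_⟩
      · rw [Tile.mem_rot]; exact g0
      · rw [Tile.mem_rot]; exact g2 h1
      · rw [Tile.mem_rot]; exact g3 h2
    · intro u hu v hv huv
      rw [Finset.mem_coe, Finset.mem_filter] at hu hv
      simp only [cl, Prod.mk.injEq, decide_eq_false_iff_not, not_not, decide_eq_true_eq] at hu hv huv
      exact hext u v (by omega) huv.1 huv.2
  have c101 : (U.filter (fun u => cl u = (true, false, true))).card ≤ T.rot.rot.n := by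
    unfold Tile.n
    apply Finset.card_le_card_of_injOn (fun u => (u (e 2), u (e 0)))
    · intro u hu
      rw [Finset.mem_coe, Finset.mem_filter] at hu
      simp only [cl, Prod.mk.injEq, decide_eq_false_iff_not, not_not, decide_eq_true_eq] at hu
      obtain ⟨hu, h0, h1, h2⟩ := hu
      obtain ⟨g0, g1, g2, g3⟩ := hco u hu
      rw [h1] at g0 g1 g3
      rw [Finset.mem_coe, Tile.mem_cor]
      refine ⟨by omega, by omega, ?_, ?_, ?_⟩
      · rw [Tile.mem_rot, Tile.mem_rot]; exact g0
      · rw [Tile.mem_rot, Tile.mem_rot]; exact g3 h2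
      · rw [Tile.mem_rot, Tile.mem_rot]; exact g1 h0
    · intro u hu v hv huv
      rw [Finset.mem_coe, Finset.mem_filter] at hu hv
      simp only [cl, Prod.mk.injEq, decide_eq_false_iff_not, not_not, decide_eq_true_eq] at hu hv huv
      exact hext u v huv.2 (by omega) huv.1
  have c111 : (U.filter (fun u => cl u = (true, true, true))).card ≤ T.t := by
    rcases Finset.eq_empty_or_nonempty (U.filter (fun u => cl u = (true, true, true))) with h | h
    · rw [h]; simp
    · obtain ⟨u, hu⟩ := h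
      have hu' := hu
      rw [Finset.mem_filter] at hu
      simp only [cl, Prod.mk.injEq, decide_eq_true_eq] at hu
      obtain ⟨hu, h0, h1, h2⟩ := hu
      obtain ⟨g0, g1, g2, g3⟩ := hco u hu
      have hf : T.Full (u (e 0)) (u (e 1)) (u (e 2)) :=
        ⟨by omega, by omega, by omega, g0, g1 h0, g2 h1, g3 h2⟩
      have ht : T.t = 1 := by
        unfold Tile.t
        rw [if_pos ⟨_, _, _, hf⟩]
      rw [ht, Finset.card_le_one]
      intro a ha b hb
      rw [Finset.mem_filter] at ha hb
      simp only [cl, Prod.mk.injEq, decide_eq_true_eq] at ha hb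
      have hne : Nonempty κ := ⟨e 0⟩
      exact full_unique m φ ((hmem a).1 ha.1) ((hmem b).1 hb.1)
        ((forall_e e).2 ha.2) ((forall_e e).2 hb.2)
  have hmain := T.main
  have hcard := card_tile m φ e hm
  have hle : U.card ≤ (T.n + T.rot.n + T.rot.rot.n + 1 + T.t) + 2 := by omega
  have h4 : (T.n + T.rot.n + T.rot.rot.n + 1 + T.t) ^ 2 ≤ 4 * m :=
    hmain.trans (Nat.mul_le_mul_left 4 hcard)
  have h5 : T.n + T.rot.n + T.rot.rot.n + 1 + T.t ≤ Nat.sqrt (4 * m) := by
    rw [Nat.le_sqrt']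
    exact h4
  omega

theorem presRank_Phi_le3 (hm : 0 < m) (hc : Fintype.card κ = 3) :
    (∃ R, GenKer (Phi m φ) R) ∧ presRank (Phi m φ) ≤ Nat.sqrt (4 * m) + 2 := by
  classical
  have h1 := genKer_relOf m φ hm (minNon_finite m φ hm).toFinset (by intro u; simp)
  refine ⟨⟨_, h1⟩, ?_⟩
  exact (presRank_le h1).trans (Finset.card_image_le.trans
    (minNon_card3 m φ (Fintype.equivFinOfCardEq hc).symm hm))

end

theorem rho_le3 {Γ : AddSubmonoid ℕ} (h : IsNumerical Γ) (hed : edim Γ = 3 + 1) :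
    rho Γ ≤ Nat.sqrt (4 * mult Γ) + 2 := by
  classical
  have hfin : (minGens Γ).Finite := Set.finite_of_ncard_ne_zero (by
    have : (minGens Γ).ncard = 3 + 1 := hed
    omega)
  obtain ⟨hm1, hm2⟩ := mult_mem h
  have hmg := mult_mem_minGens h
  set m := mult Γ with hm
  have : Fintype (minGens Γ) := hfin.fintype
  set κ := {x : minGens Γ // (x : ℕ) ≠ m} with hκ
  have hcard1 : Fintype.card (minGens Γ) = 3 + 1 := by
    have : (minGens Γ).ncard = 3 + 1 := hed
    rw [← this, Set.ncard_eq_toFinset_card', Set.toFinset_card]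
  have hcard : Fintype.card κ = 3 := by
    have h1 : Fintype.card κ = (univ.erase (⟨m, hmg⟩ : minGens Γ)).card := by
      rw [Fintype.card_subtype]
      congr 1
      ext x
      simp only [Finset.mem_filter, Finset.mem_univ, true_and, Finset.mem_erase, and_true, ne_eq]
      constructor
      · intro h hx; exact h (by rw [hx])
      · intro h hx; exact h (Subtype.ext hx)
    rw [h1, Finset.card_erase_of_mem (Finset.mem_univ _), Finset.card_univ, hcard1]
  let hh : Option κ → ℕ := fun o => o.elim m (fun k => (k.1 : ℕ))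
  have hinj : Function.Injective hh := by
    intro a b hab
    cases a with
    | none =>
      cases b with
      | none => rfl
      | some b => exact absurd hab.symm b.2
    | some a =>
      cases b with
      | none => exact absurd hab a.2
      | some b =>
        have : a = b := Subtype.ext (Subtype.ext hab)
        rw [this]
  have hr : Set.range hh = minGens Γ := by
    ext x
    constructor
    · rintro ⟨o, rfl⟩
      cases o with
      | none => exact hmg
      | some k => exact k.1.2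
    · intro hx
      by_cases hxm : x = m
      · exact ⟨none, hxm.symm⟩
      · exact ⟨some ⟨⟨x, hx⟩, hxm⟩, rfl⟩
  let φ : (κ →₀ ℕ) →+ ℕ :=
    (comb (fun k : κ => (k.1 : ℕ))).comp (Finsupp.coeFnAddHom : (κ →₀ ℕ) →+ (κ → ℕ))
  have hcomb : comb hh = (Phi m φ).comp (optEquiv κ).toAddMonoidHom := by
    ext a
    simp only [comb_apply, AddMonoidHom.coe_comp, Function.comp_apply, Phi_apply, φ]
    rw [Fintype.sum_option]
    rfl
  have hmain := presRank_Phi_le3 m φ hm2 hcard
  obtain ⟨⟨R, hR⟩, hle⟩ := hmain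
  have hne : ∃ R, GenKer (comb hh) R := by
    rw [hcomb]; exact ⟨_, hR.comp_equiv _⟩
  rw [rho_eq hinj hr hne, hcomb]
  exact (presRank_comp_equiv_le _ _ ⟨R, hR⟩).trans hle

theorem maxRho_three_le (m : ℕ) : maxRho 3 m ≤ ((Nat.sqrt (4 * m) + 2 : ℕ) : ℕ∞) := by
  unfold maxRho
  apply iSup_le
  rintro ⟨Γ, hnum, hed, hmult⟩
  have := rho_le3 hnum hed
  rw [hmult] at this
  exact_mod_cast this

end MPc709deB
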